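import Pool.Agent.Lib.MP_1db5af_an.Ae.Defs

set_option autoImplicit false

namespace Pool.Agent.Lib.MP_1db5af_an

open MeasureTheory Filter Topology ComplexConjugate Finset InnerProductSpace

variable {X : Type*} {m m1 : MeasurableSpace X} [m0 : MeasurableSpace X] {μ : Measure X}
  [IsProbabilityMeasure μ] {S : X → X} {a : ℕ → ℕ} {C : ℝ}

section
variable {A : (X → ℂ) → Prop} {g g' : X → ℂ}

theorem alg_congr (hA : Alg μ A) (h : A g) (e : g =ᵐ[μ] g') : A g' := by
  obtain ⟨D, hD⟩ := hA.bd g h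
  exact hA.lim g' D (hD.congr e) fun ε hε => ⟨g, h, by rw [L2_congr e, sub_self, norm_zero]; exact hε.le⟩

theorem alg_sum (hA : Alg μ A) {ι : Type*} (I : Finset ι) {u : ι → X → ℂ} (h : ∀ i ∈ I, A (u i)) :
    A fun x => ∑ i ∈ I, u i x := by
  classical
  induction I using Finset.induction_on with
  | empty => simpa using hA.const 0
  | insert i I hi ih =>
    simp only [sum_insert hi]
    exact hA.add _ _ (h i (mem_insert_self _ _)) (ih fun j hj => h j (mem_insert_of_mem hj))

theorem alg_dom (hA : Alg μ A) (hg : Bd μ C g) {u : ℕ → X → ℂ} (hu : ∀ n, A (u n)) {D : ℝ}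
    (hD : ∀ n, Bd μ D (u n)) (hl : ∀ x, Tendsto (fun n => u n x) atTop (𝓝 (g x))) : A g := by
  refine hA.lim g C hg fun ε hε => ?_
  have h1 : Tendsto (fun n => ∫ x, ‖g x - u n x‖ ^ 2 ∂μ) atTop (𝓝 (∫ _x, (0 : ℝ) ∂μ)) := by
    refine tendsto_integral_of_dominated_convergence (fun _ => (C + D) ^ 2)
      (fun n => (hg.sub (hD n)).1.norm.pow 2) (integrable_const _) (fun n => ?_)
      (Eventually.of_forall fun x => ?_)
    · filter_upwards [(hg.sub (hD n)).2] with x hx
      rw [norm_pow, norm_norm]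
      exact pow_le_pow_left₀ (norm_nonneg _) hx 2
    · have h2 := ((tendsto_const_nhds (x := g x)).sub (hl x)).norm.pow 2
      rwa [sub_self, norm_zero, zero_pow two_ne_zero] at h2
  rw [integral_zero] at h1
  obtain ⟨n, hn⟩ := (h1.eventually (eventually_le_nhds (pow_pos hε 2))).exists
  refine ⟨u n, hu n, (pow_le_pow_iff_left₀ (norm_nonneg _) hε.le two_ne_zero).1 ?_⟩
  rwa [← L2_sub hg.memLp (hD n).memLp, norm_L2_sq (hg.sub (hD n)).memLp]

theorem alg_poly (hA : Alg μ A) {f : X → ℝ} (h : A fun x => (f x : ℂ)) (p : Polynomial ℝ) :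
    A fun x => ((p.eval (f x) : ℝ) : ℂ) := by
  induction p using Polynomial.induction_on with
  | C c => simpa using hA.const c
  | add p q hp hq => simpa using hA.add _ _ hp hq
  | monomial n c ih =>
    have h1 := hA.mul _ _ ih h
    simp only [pow_succ, ← mul_assoc, Polynomial.eval_mul, Polynomial.eval_X,
      Complex.ofReal_mul] at h1 ⊢
    exact h1

theorem alg_cont (hA : Alg μ A) {f : X → ℝ} (hf : Measurable f) (h : A fun x => (f x : ℂ))
    {F : ℝ → ℝ} (hF : Continuous F) (hb : ∀ s, |F s| ≤ 1) : A fun x => (F (f x) : ℂ) := by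
  obtain ⟨D, hD⟩ := hA.bd _ h
  have h1 : Bd μ 1 fun x => (F (f x) : ℂ) :=
    ⟨(Complex.measurable_ofReal.comp (hF.measurable.comp hf)).aestronglyMeasurable,
      Eventually.of_forall fun x => by rw [Complex.norm_real]; exact hb _⟩
  refine hA.lim _ 1 h1 fun ε hε => ?_
  obtain ⟨p, hp⟩ := exists_polynomial_near_of_continuousOn (-D) D F hF.continuousOn ε hε
  obtain ⟨D', hD'⟩ := hA.bd _ (alg_poly hA h p)
  refine ⟨_, alg_poly hA h p, ?_⟩
  rw [← L2_sub h1.memLp hD'.memLp]
  refine Bd.norm_L2 ⟨(h1.sub hD').1, ?_⟩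
  filter_upwards [hD.2] with x hx
  rw [Complex.norm_real, Real.norm_eq_abs] at hx
  rw [← Complex.ofReal_sub, Complex.norm_real, Real.norm_eq_abs, abs_sub_comm]
  exact (hp _ (abs_le.1 hx)).le

theorem alg_ind (hA : Alg μ A) {f : X → ℝ} (hf : Measurable f) (h : A fun x => (f x : ℂ))
    (t : ℝ) : A ((f ⁻¹' Set.Ioi t).indicator fun _ => 1) := by
  have hb : ∀ (n : ℕ) (s : ℝ), |min 1 (n * max (s - t) 0)| ≤ 1 := fun n s => by
    rw [abs_of_nonneg (le_min zero_le_one (mul_nonneg n.cast_nonneg (le_max_right _ _)))]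
    exact min_le_left _ _
  have hc : ∀ n : ℕ, Continuous fun s : ℝ => min 1 (n * max (s - t) 0) := fun n => by fun_prop
  refine alg_dom hA (tw_bd_ind (hf measurableSet_Ioi) 1)
    (u := fun n x => ((min 1 (n * max (f x - t) 0) : ℝ) : ℂ))
    (fun n => alg_cont hA hf h (hc n) (hb n)) (D := 1) (fun n =>
      ⟨(Complex.measurable_ofReal.comp ((hc n).measurable.comp hf)).aestronglyMeasurable,
        Eventually.of_forall fun x => by rw [Complex.norm_real]; exact hb n _⟩) fun x => ?_
  by_cases hx : t < f x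
  · rw [Set.indicator_of_mem (show x ∈ f ⁻¹' Set.Ioi t from hx)]
    refine tendsto_const_nhds.congr' ?_
    have h1 : Tendsto (fun n : ℕ => (n : ℝ) * (f x - t)) atTop atTop :=
      tendsto_natCast_atTop_atTop.atTop_mul_const (sub_pos.2 hx)
    filter_upwards [h1.eventually_ge_atTop 1] with n hn
    rw [max_eq_left (sub_pos.2 hx).le, min_eq_left hn, Complex.ofReal_one]
  · rw [Set.indicator_of_notMem (show x ∉ f ⁻¹' Set.Ioi t from hx)]
    refine tendsto_const_nhds.congr fun n => ?_
    rw [max_eq_right (sub_nonpos.2 (not_lt.1 hx)), mul_zero, min_eq_right zero_le_one,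
      Complex.ofReal_zero]

theorem alg_compl (hA : Alg μ A) {s : Set X} (h : A (s.indicator fun _ => 1)) :
    A (sᶜ.indicator fun _ => 1) := by
  have e : (sᶜ.indicator fun _ => (1 : ℂ)) = fun x => 1 + -1 * s.indicator (fun _ => 1) x := by
    funext x
    by_cases hx : x ∈ s <;> simp [Set.indicator, hx]
  rw [e]
  exact hA.add _ _ (hA.const 1) (hA.mul _ _ (hA.const _) h)

theorem alg_union (hA : Alg μ A) {s t : Set X} (h : A (s.indicator fun _ => 1))
    (h' : A (t.indicator fun _ => 1)) : A ((s ∪ t).indicator fun _ => 1) := by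
  have e : ((s ∪ t).indicator fun _ => (1 : ℂ)) = fun x => s.indicator (fun _ => 1) x +
      sᶜ.indicator (fun _ => 1) x * t.indicator (fun _ => 1) x := by
    funext x
    by_cases hx : x ∈ s <;> by_cases hx' : x ∈ t <;> simp [Set.indicator, hx, hx']
  rw [e]
  exact hA.add _ _ h (hA.mul _ _ (alg_compl hA h) h')

theorem alg_iUnion (hA : Alg μ A) {s : ℕ → Set X} (hs : ∀ n, MeasurableSet (s n))
    (h : ∀ n, A ((s n).indicator fun _ => 1)) : A ((⋃ n, s n).indicator fun _ => 1) := by
  have h1 : ∀ n, MeasurableSet (Set.accumulate s n) ∧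
      A ((Set.accumulate s n).indicator fun _ => 1) := by
    intro n
    induction n with
    | zero => rw [Set.accumulate_zero_nat]; exact ⟨hs 0, h 0⟩
    | succ n ih => rw [Set.accumulate_succ]; exact ⟨ih.1.union (hs _), alg_union hA ih.2 (h _)⟩
  refine alg_dom hA (tw_bd_ind (MeasurableSet.iUnion hs) 1) (fun n => (h1 n).2)
    (fun n => tw_bd_ind (h1 n).1 1) fun x => ?_
  rw [← Set.iUnion_accumulate]
  exact (Monotone.tendsto_indicator _ Set.monotone_accumulate _ x).mono_right (pure_le_nhds _)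

theorem alg_simple (hm : m ≤ m0) (hA : Alg μ A)
    (h : ∀ s, MeasurableSet[m] s → A (s.indicator fun _ => 1)) (hg : Bd μ C g)
    (hgm : AEStronglyMeasurable[m] g μ) : A g := by
  refine hA.lim g C hg fun ε hε => ?_
  obtain ⟨k, ξ, ψ, h1, h2⟩ := tw_simple hm hg hgm hε
  refine ⟨fun x => ∑ i, ψ i * (ξ ⁻¹' {i}).indicator (fun _ => 1) x, alg_sum hA _ fun i _ =>
    hA.mul _ _ (hA.const _) (h _ (h1 (measurableSet_singleton i))), h2.trans_eq' ?_⟩
  congr 3
  funext x
  simp [Set.indicator]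

theorem alg_meas (hm1 : m1 ≤ m0) (hA : Alg μ A)
    (h : ∀ s, MeasurableSet[m1] s → A (s.indicator fun _ => 1) → MeasurableSet[m] s)
    (hg : A g) (hgm : AEStronglyMeasurable[m1] g μ) : AEStronglyMeasurable[m] g μ := by
  obtain ⟨g', h1, e⟩ := hgm
  have h2 : A g' := alg_congr hA hg e
  have key : ∀ f : X → ℝ, Measurable[m1] f → (A fun x => (f x : ℂ)) → Measurable[m] f :=
    fun f hf hAf => measurable_of_Ioi (mδ := m) fun t =>
      h _ (hf measurableSet_Ioi) (alg_ind hA (hf.mono hm1 le_rfl) hAf t)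
  have h3 : Measurable[m] fun x => (g' x).re := by
    refine key _ (Complex.measurable_re.comp h1.measurable) ?_
    have e1 : (fun x => ((g' x).re : ℂ)) = fun x => 1 / 2 * (g' x + conj (g' x)) := by
      funext x
      rw [Complex.re_eq_add_conj]
      ring
    rw [e1]
    exact hA.mul _ _ (hA.const _) (hA.add _ _ h2 (hA.star _ h2))
  have h4 : Measurable[m] fun x => (g' x).im := by
    refine key _ (Complex.measurable_im.comp h1.measurable) ?_
    have e1 : (fun x => ((g' x).im : ℂ)) =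
        fun x => 1 / (2 * Complex.I) * (g' x + -1 * conj (g' x)) := by
      funext x
      rw [Complex.im_eq_sub_conj]
      ring
    rw [e1]
    exact hA.mul _ _ (hA.const _) (hA.add _ _ h2 (hA.mul _ _ (hA.const _) (hA.star _ h2)))
  have h5 : Measurable[m] fun x => ((g' x).re : ℂ) + ((g' x).im : ℂ) * Complex.I :=
    (Complex.measurable_ofReal.comp h3).add ((Complex.measurable_ofReal.comp h4).mul_const _)
  simp only [Complex.re_add_im] at h5
  exact ⟨g', h5.stronglyMeasurable, e⟩

end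

theorem ae_alg_sigma (hm1 : m1 ≤ m0) {A : (X → ℂ) → Prop} (hA : Alg μ A) :
    ∃ m' : MeasurableSpace X,
      (∀ s, MeasurableSet[m'] s ↔ MeasurableSet[m1] s ∧ A (s.indicator fun _ => 1)) ∧
      (∀ (g : X → ℂ) (C : ℝ), @Bd X m0 μ C g → AEStronglyMeasurable[m'] g μ → A g) ∧
      (∀ g : X → ℂ, A g → AEStronglyMeasurable[m1] g μ → AEStronglyMeasurable[m'] g μ) := by
  let m' : MeasurableSpace X :=
    { MeasurableSet' := fun s => MeasurableSet[m1] s ∧ A (s.indicator fun _ => 1)
      measurableSet_empty := ⟨@MeasurableSet.empty X m1, by simpa using hA.const 0⟩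
      measurableSet_compl := fun s hs => ⟨hs.1.compl, alg_compl hA hs.2⟩
      measurableSet_iUnion := fun s hs => ⟨MeasurableSet.iUnion fun n => (hs n).1,
        alg_iUnion (m0 := m0) hA (fun n => hm1 _ (hs n).1) fun n => (hs n).2⟩ }
  exact ⟨m', fun s => Iff.rfl,
    fun g C hg hgm => alg_simple (m := m') (m0 := m0) (fun s hs => hm1 s hs.1) hA
      (fun s hs => hs.2) hg hgm,
    fun g hg hgm => alg_meas (m := m') (m0 := m0) hm1 hA (fun s h1 h2 => ⟨h1, h2⟩) hg hgm⟩

end Pool.Agent.Lib.MP_1db5af_an
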