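import Pool.Agent.Lib.MP_1db5af_an.Ae.Defs

set_option autoImplicit false

namespace Pool.Agent.Lib.MP_1db5af_an

open MeasureTheory Filter Topology ComplexConjugate Finset InnerProductSpace

theorem atom_fib {φ : ℕ → ℕ} {L M : ℕ} {ω : ℕ → ℝ} (hω : ∀ t, 0 ≤ ω t)
    (h1 : ∀ z z', z + 4 ≤ z' → z' < L → φ z < φ z') (h2 : ∀ z < L, φ z < M) :
    ∑ z ∈ range L, ω (φ z) ≤ 4 * ∑ t ∈ range M, ω t := by
  have h3 : Set.InjOn (fun z => (φ z, z % 4)) (range L : Finset ℕ) := by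
    intro z hz z' hz' e
    obtain ⟨e1, e2⟩ := Prod.mk.inj e
    have k1 := h1 z z'
    have k2 := h1 z' z
    have k3 := mem_range.1 (mem_coe.1 hz)
    have k4 := mem_range.1 (mem_coe.1 hz')
    omega
  rw [← sum_image (f := fun p : ℕ × ℕ => ω p.1) h3]
  refine (sum_le_sum_of_subset_of_nonneg (t := range M ×ˢ range 4) (fun p hp => ?_)
    fun p _ _ => hω _).trans (le_of_eq ?_)
  · obtain ⟨z, hz, rfl⟩ := mem_image.1 hp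
    exact mem_product.2 ⟨mem_range.2 (h2 z (mem_range.1 hz)),
      mem_range.2 (Nat.mod_lt _ (by norm_num))⟩
  · rw [sum_product, mul_sum]
    simp

/-- The integer parts lie close to a line. -/
theorem atom_pt {K : ℕ} {u v : ℕ → ℝ} {A B : ℝ} (hA : 0 ≤ A) (hB0 : 0 ≤ B) (hB : K * B ≤ 1)
    (h2 : ∀ j < K, 2 ≤ u j) (h0 : u 0 ≤ v 0) (hK : 0 < K)
    (h : ∀ i < K, A ≤ (v (i + 1) - v i) - (u (i + 1) - u i) ∧
      (v (i + 1) - v i) - (u (i + 1) - u i) ≤ A + B) {j : ℕ} (hj : j < K) :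
    ∃ e < K + 5, ⌊v j⌋₊ = (⌊u j⌋₊ - 2 + e) + j * ⌊(v 1 - v 0) - (u 1 - u 0)⌋₊ + ⌊v 0 - u 0⌋₊ := by
  set T := (v 1 - v 0) - (u 1 - u 0) with hT
  have h3 : A ≤ T ∧ T ≤ A + B := h 0 hK
  have h4 : ∀ i ≤ K, |v i - u i - (v 0 - u 0) - i * T| ≤ i * B := by
    intro i hi
    induction i with
    | zero => simp
    | succ i ih =>
      have k1 := abs_le.1 (ih (by omega))
      have k2 := h i hi
      push_cast
      exact abs_le.2 ⟨by linarith [k1.1, k2.1], by linarith [k1.2, k2.2]⟩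
  have hjK : (j : ℝ) + 1 ≤ K := by exact_mod_cast hj
  have hj0 : (0 : ℝ) ≤ j := Nat.cast_nonneg j
  have h5 := abs_le.1 ((h4 j hj.le).trans
    ((mul_le_mul_of_nonneg_right (by linarith : (j : ℝ) ≤ K) hB0).trans hB))
  have a1 := Nat.floor_le (hA.trans h3.1)
  have a2 := Nat.lt_floor_add_one T
  have b1 := Nat.floor_le (sub_nonneg.2 h0)
  have b2 := Nat.lt_floor_add_one (v 0 - u 0)
  have c1 := Nat.floor_le (zero_le_two.trans (h2 j hj))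
  have c2 := Nat.lt_floor_add_one (u j)
  have c3 : 2 ≤ ⌊u j⌋₊ := Nat.le_floor (by exact_mod_cast h2 j hj)
  have d1 := mul_le_mul_of_nonneg_left a1 hj0
  have d2 := mul_le_mul_of_nonneg_left a2.le hj0
  have e1 : ⌊u j⌋₊ - 2 + j * ⌊T⌋₊ + ⌊v 0 - u 0⌋₊ ≤ ⌊v j⌋₊ := Nat.le_floor (by
    push_cast [c3]
    linarith [h5.1])
  have e2 : ⌊v j⌋₊ < ⌊u j⌋₊ - 2 + j * ⌊T⌋₊ + ⌊v 0 - u 0⌋₊ + (K + 5) :=
    Nat.floor_lt' (by omega) |>.2 (by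
      push_cast [c3]
      linarith [h5.2])
  exact ⟨⌊v j⌋₊ - (⌊u j⌋₊ - 2 + j * ⌊T⌋₊ + ⌊v 0 - u 0⌋₊), by omega, by omega⟩

/-- One majorant for all the points near the lines with base `b`. -/
theorem atom_om {K : ℕ} {Ψ : (ℕ → ℕ) → ℝ} (hΨ : Pat K Ψ) {ε0 : ℝ} {M : ℕ} (hM : 0 < M)
    (hL : ∀ b : ℕ → ℕ, av (fun t => Ψ fun j => b j + j * t) M ≤ ε0) (b : ℕ → ℕ) :
    ∃ ω : ℕ → ℝ, (∀ t, 0 ≤ ω t) ∧ ∑ t ∈ range M, ω t ≤ (K + 5) ^ K * ε0 * M ∧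
      ∀ (p : ℕ → ℕ) (t σ : ℕ), (∀ j < K, ∃ e < K + 5, p j = (b j + e) + j * t + σ) →
        Ψ p ≤ ω t := by
  let ex : (Fin K → Fin (K + 5)) → ℕ → ℕ := fun e j => if h : j < K then e ⟨j, h⟩ else 0
  refine ⟨fun t => ∑ e, Ψ fun j => (b j + ex e j) + j * t,
    fun t => sum_nonneg fun _ _ => hΨ.nonneg _, ?_, fun p t σ h => ?_⟩
  · rw [sum_comm]
    refine (sum_le_card_nsmul _ _ (ε0 * M) fun e _ => ?_).trans (le_of_eq ?_)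
    · have h := hL fun j => b j + ex e j
      rwa [av, smul_eq_mul, inv_mul_le_iff₀ (Nat.cast_pos.2 hM), mul_comm] at h
    · simp [mul_assoc]
  · choose e h1 h2 using h
    refine le_trans (le_of_eq ?_) (single_le_sum (fun _ _ => hΨ.nonneg _)
      (mem_univ fun j : Fin K => (⟨e j j.2, h1 j j.2⟩ : Fin (K + 5))))
    refine (hΨ.dep _ _ fun j hj => ?_).trans (hΨ.diag _ σ)
    simp only [ex, dif_pos hj]
    exact h2 j hj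

theorem ae_atom {K : ℕ} {Ψ : (ℕ → ℕ) → ℝ} (hΨ : Pat K Ψ) {ε0 : ℝ} {s : ℕ}
    (hL : ∀ b : ℕ → ℕ, av (fun t => Ψ fun j => b j + j * t) (2 ^ s + 1) ≤ ε0)
    {U : ℝ → ℕ → ℝ} {w η : ℝ} {ρ : ℕ} (hρ : s ≤ ρ) (hw1 : 2 ^ ρ ≤ 4 * w) (hw2 : 2 * w ≤ 2 ^ ρ)
    (hη0 : 0 ≤ η) (hη : K * η * 2 ^ s ≤ 1)
    (hU2 : ∀ x : ℝ, 0 ≤ x → x ≤ 1 → ∀ j < K, 2 ≤ U x j)
    (hU0 : ∀ x x' : ℝ, 0 ≤ x → x ≤ x' → x' ≤ 1 → U x 0 ≤ U x' 0)
    (hU : ∀ x x' : ℝ, 0 ≤ x → x ≤ x' → x' ≤ 1 → ∀ i < K,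
      w * (x' - x) ≤ (U x' (i + 1) - U x' i) - (U x (i + 1) - U x i) ∧
      (U x' (i + 1) - U x' i) - (U x (i + 1) - U x i) ≤ (1 + η) * w * (x' - x)) :
    ∃ W : ℕ → ℝ, (∀ q, 0 ≤ W q ∧ W q ≤ 1) ∧
      (∀ x : ℝ, 0 ≤ x → x < 1 → Ψ (fun j => ⌊U x j⌋₊) ≤ W ⌊2 ^ ρ * x⌋₊) ∧
      ∀ y : ℕ, ∑ z ∈ range (2 ^ s), W (2 ^ s * y + z) ≤ 16 * (K + 5) ^ K * ε0 * 2 ^ s := by
  have hK := hΨ.pos
  have hP : (0 : ℝ) < 2 ^ ρ := by positivity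
  have hw : 0 ≤ w := by linarith
  have hε : 0 ≤ ε0 := (av_nonneg (fun _ => hΨ.nonneg _) _).trans (hL 0)
  have hη1 : η ≤ 1 := by
    have k1 : (1 : ℝ) ≤ K := by exact_mod_cast hK
    have k2 : (1 : ℝ) ≤ 2 ^ s := one_le_pow₀ one_le_two
    have k3 : 1 * η * 1 ≤ K * η * 2 ^ s := by gcongr
    linarith
  have hwP : ∀ d : ℝ, 0 ≤ d → d / 4 ≤ w * (d / 2 ^ ρ) ∧ w * (d / 2 ^ ρ) ≤ d / 2 := fun d hd => by
    rw [← mul_div_assoc, le_div_iff₀ hP, div_le_iff₀ hP]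
    constructor <;> nlinarith
  let W : ℕ → ℝ := fun q => ⨆ x : {x : ℝ // 0 ≤ x ∧ x < 1 ∧ ⌊2 ^ ρ * x⌋₊ = q},
    Ψ fun j => ⌊U x j⌋₊
  refine ⟨W, fun q => ⟨Real.iSup_nonneg fun _ => hΨ.nonneg _,
    Real.iSup_le (fun _ => hΨ.le_one _) zero_le_one⟩, fun x h0 h1 => ?_, fun y => ?_⟩
  · exact le_ciSup (f := fun x' : {x' : ℝ // 0 ≤ x' ∧ x' < 1 ∧ ⌊2 ^ ρ * x'⌋₊ = ⌊2 ^ ρ * x⌋₊} =>
      Ψ fun j => ⌊U x' j⌋₊) ⟨1, by rintro _ ⟨_, rfl⟩; exact hΨ.le_one _⟩ ⟨x, h0, h1, rfl⟩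
  by_cases hy : 2 ^ ρ ≤ 2 ^ s * y
  · refine (sum_nonpos fun z _ => Real.iSup_le ?_ le_rfl).trans (by positivity)
    rintro ⟨x, h0, h1, h2⟩
    have : ⌊2 ^ ρ * x⌋₊ < 2 ^ ρ := (Nat.floor_lt (by positivity)).2 (by
      push_cast
      exact mul_lt_of_lt_one_right hP h1)
    omega
  have hy1 : 2 ^ s * y + 2 ^ s ≤ 2 ^ ρ := by
    obtain ⟨r, rfl⟩ := Nat.exists_eq_add_of_le hρ
    rw [pow_add] at hy ⊢
    rw [← Nat.mul_succ]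
    exact Nat.mul_le_mul_left _ (Nat.lt_of_mul_lt_mul_left (not_le.1 hy))
  have hy2 : (2 : ℝ) ^ s * y + 2 ^ s ≤ 2 ^ ρ := by exact_mod_cast hy1
  let c : ℕ → ℝ := fun z => (2 ^ s * y + z) / 2 ^ ρ
  have c0 : ∀ z, 0 ≤ c z := fun z => by positivity
  have c1 : ∀ z < 2 ^ s, c z ≤ 1 := fun z hz => by
    have : (z : ℝ) ≤ 2 ^ s := by exact_mod_cast hz.le
    exact (div_le_one hP).2 (by linarith)
  have c2 : ∀ z z', c z' - c z = ((z' : ℝ) - z) / 2 ^ ρ := fun z z' => by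
    simp only [c]
    ring
  have c3 : ∀ z z', z ≤ z' → c z ≤ c z' := fun z z' h =>
    sub_nonneg.1 (c2 z z' ▸ div_nonneg (sub_nonneg.2 (Nat.cast_le.2 h)) hP.le)
  let T : ℝ → ℝ := fun x => (U x 1 - U x 0) - (U (c 0) 1 - U (c 0) 0)
  have hT : ∀ x x' d, 0 ≤ x → x' ≤ 1 → 0 ≤ d → x' - x = d / 2 ^ ρ →
      d / 4 ≤ T x' - T x ∧ T x' - T x ≤ d := fun x x' d h0 h1 hd e => by
    have k1 := hU x x' h0 (sub_nonneg.1 (e ▸ div_nonneg hd hP.le)) h1 0 hK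
    have k2 := hwP d hd
    rw [e, zero_add, mul_assoc] at k1
    have k3 : (1 + η) * (w * (d / 2 ^ ρ)) ≤ 2 * (d / 2) :=
      mul_le_mul (by linarith) k2.2 (by positivity) zero_le_two
    simp only [T]
    exact ⟨by linarith [k1.1, k2.1], by linarith [k1.2]⟩
  have hT0 : T (c 0) = 0 := sub_self _
  have hTz : ∀ z < 2 ^ s, 0 ≤ T (c z) ∧ T (c z) ≤ z := fun z hz => by
    have k := hT (c 0) (c z) z (c0 0) (c1 z hz) (Nat.cast_nonneg z) (by rw [c2]; simp)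
    have : (0 : ℝ) ≤ z := Nat.cast_nonneg z
    exact ⟨by linarith [k.1], by linarith [k.2]⟩
  obtain ⟨ω, h1, h2, h3⟩ := atom_om hΨ (Nat.succ_pos _) hL fun j => ⌊U (c 0) j⌋₊ - 2
  have h4 : ∀ z ∈ range (2 ^ s), W (2 ^ s * y + z) ≤ ω ⌊T (c z)⌋₊ + ω (⌊T (c z)⌋₊ + 1) := by
    intro z hz
    have hz' := mem_range.1 hz
    refine Real.iSup_le ?_ (add_nonneg (h1 _) (h1 _))
    rintro ⟨x, k0, k1, k2⟩
    obtain ⟨k3, k4⟩ := (Nat.floor_eq_iff (by positivity)).1 k2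
    push_cast at k3 k4
    have k5 : (z : ℝ) + 1 ≤ 2 ^ s := by exact_mod_cast hz'
    have k6 : (0 : ℝ) ≤ z := Nat.cast_nonneg z
    have k7 := hT (c z) x (2 ^ ρ * x - (2 ^ s * y + z)) (c0 z) k1.le (by linarith)
      (by simp only [c]; field_simp)
    have k8 : x - c 0 = (2 ^ ρ * x - 2 ^ s * y) / 2 ^ ρ := by
      simp only [c]
      field_simp
      simp
    have k9 := hwP (2 ^ ρ * x - 2 ^ s * y) (by linarith)
    rw [← k8] at k9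
    have l1 : c 0 ≤ x := sub_nonneg.1 (k8 ▸ div_nonneg (by linarith) hP.le)
    have l2 : 0 ≤ w * (x - c 0) := mul_nonneg hw (sub_nonneg.2 l1)
    have l3 : Ψ (fun j => ⌊U x j⌋₊) ≤ ω ⌊T x⌋₊ := h3 _ _ _ fun j hj =>
      atom_pt (u := U (c 0)) (v := U x) (B := η * (w * (x - c 0))) l2 (by positivity) (by
        have : (K : ℝ) * η * (w * (x - c 0)) ≤ K * η * 2 ^ s :=
          mul_le_mul_of_nonneg_left (by linarith [k9.2]) (by positivity)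
        linarith) (hU2 _ (c0 0) (l1.trans k1.le)) (hU0 _ _ (c0 0) l1 k1.le) hK
        (fun i hi => by
          have := hU _ _ (c0 0) l1 k1.le i hi
          exact ⟨this.1, by linarith [this.2]⟩) hj
    have l4 : ⌊T (c z)⌋₊ ≤ ⌊T x⌋₊ := Nat.floor_le_floor (by linarith [k7.1])
    have l5 : ⌊T x⌋₊ ≤ ⌊T (c z)⌋₊ + 1 := by
      rw [← Nat.floor_add_one (hTz z hz').1]
      exact Nat.floor_le_floor (by linarith [k7.2])
    rcases (by omega : ⌊T x⌋₊ = ⌊T (c z)⌋₊ ∨ ⌊T x⌋₊ = ⌊T (c z)⌋₊ + 1) with e | e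
    · exact (e ▸ l3).trans (le_add_of_nonneg_right (h1 _))
    · exact (e ▸ l3).trans (le_add_of_nonneg_left (h1 _))
  have h5 : ∀ z z', z + 4 ≤ z' → z' < 2 ^ s → ⌊T (c z)⌋₊ < ⌊T (c z')⌋₊ := fun z z' k1 k2 => by
    have k3 : (z : ℝ) + 4 ≤ z' := by exact_mod_cast k1
    have k4 := hT (c z) (c z') (z' - z) (c0 z) (c1 z' k2) (by linarith) (c2 z z')
    rw [← Nat.add_one_le_iff, ← Nat.floor_add_one (hTz z (by omega)).1]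
    exact Nat.floor_le_floor (by linarith [k4.1])
  have h6 : ∀ z < 2 ^ s, ⌊T (c z)⌋₊ ≤ z := fun z hz => Nat.floor_le_of_le (hTz z hz).2
  have h7 := atom_fib (φ := fun z => ⌊T (c z)⌋₊) (M := 2 ^ s + 1) h1 h5
    fun z hz => by have := h6 z hz; omega
  have h8 := atom_fib (φ := fun z => ⌊T (c z)⌋₊ + 1) (M := 2 ^ s + 1) h1
    (fun z z' k1 k2 => Nat.succ_lt_succ (h5 z z' k1 k2)) fun z hz => by have := h6 z hz; omega
  refine (sum_le_sum h4).trans ?_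
  rw [sum_add_distrib]
  have h9 : ((K : ℝ) + 5) ^ K * ε0 * 1 ≤ (K + 5) ^ K * ε0 * 2 ^ s :=
    mul_le_mul_of_nonneg_left (one_le_pow₀ one_le_two) (by positivity)
  push_cast at h2
  linarith

end Pool.Agent.Lib.MP_1db5af_an
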