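import Pool.Agent.Lib.MP_1db5af_an.Ae.Defs

set_option autoImplicit false

namespace Pool.Agent.Lib.MP_1db5af_an

open MeasureTheory Filter Topology ComplexConjugate Finset InnerProductSpace

variable {X : Type*} {m m1 : MeasurableSpace X} [m0 : MeasurableSpace X] {μ : Measure X}
  [IsProbabilityMeasure μ] {S : X → X} {a : ℕ → ℕ} {C : ℝ}

theorem base_av (u : ℕ → ℂ) (Λ : ℕ) :
    av u Λ = ∑ l ∈ range Λ, (((Λ : ℝ)⁻¹ : ℝ) : ℂ) * u l := by
  rw [av, Complex.real_smul, mul_sum]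

theorem base_av2 (u : ℕ → ℕ → ℂ) (Λ : ℕ) :
    ∑ l ∈ range Λ, ∑ l' ∈ range Λ, (((Λ : ℝ)⁻¹ : ℝ) : ℂ) * conj (((Λ : ℝ)⁻¹ : ℝ) : ℂ) * u l l' =
      av (fun l => av (fun l' => u l l') Λ) Λ := by
  rw [base_av]
  refine sum_congr rfl fun l _ => ?_
  rw [base_av, mul_sum, Complex.conj_ofReal]
  exact sum_congr rfl fun l' _ => mul_assoc _ _ _

theorem base_bound (hS : MeasurePreserving S μ μ) (hJE : JE μ S a m) {J : Finset ℕ}
    {Φ : ℕ → X → ℂ} {h : ℕ → ℕ → X → ℂ} {D : ℝ} (hΦ : ∀ j ∈ J, Bd μ D (Φ j))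
    (hh : ∀ l, ∀ j ∈ J, Bd μ D (h l j) ∧ AEStronglyMeasurable[m] (h l j) μ)
    (L : Finset ℕ) (q : ℕ → ℂ) :
    ∃ w : ℕ → ℝ, Tendsto w atTop (𝓝 ((D ^ J.card) ^ 2 *
        (∑ l ∈ L, ∑ l' ∈ L, q l * conj (q l') *
          ∏ j ∈ J, ∫ x, h l j x * conj (h l' j x) ∂μ).re)) ∧
      ∀ N, ‖∑ l ∈ L, q l * cor μ S a J (fun j x => h l j x * Φ j x) N‖ ^ 2 ≤ w N := by
  have hP : ∀ n : ℕ, Bd μ (D ^ J.card) fun x => ∏ j ∈ J, Φ j (S^[a (n + j)] x) := fun n =>
    Bd.prod _ fun j hj => (hΦ j hj).iter hS _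
  have hH : ∀ l (n : ℕ), Bd μ (D ^ J.card) fun x => ∏ j ∈ J, h l j (S^[a (n + j)] x) :=
    fun l n => Bd.prod _ fun j hj => (hh l j hj).1.iter hS _
  have hY : ∀ n : ℕ, Bd μ (∑ l ∈ L, ‖q l‖ * D ^ J.card)
      fun x => ∑ l ∈ L, q l * ∏ j ∈ J, h l j (S^[a (n + j)] x) := fun n =>
    Bd.sum _ fun l _ => (Bd.const (q l)).mul (hH l n)
  let y : ℕ → ℝ := fun n => ‖L2 μ fun x => ∑ l ∈ L, q l * ∏ j ∈ J, h l j (S^[a (n + j)] x)‖
  have hy : ∀ n, ((y n ^ 2 : ℝ) : ℂ) = ∑ l ∈ L, ∑ l' ∈ L, q l * conj (q l') *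
      ∫ x, ∏ j ∈ J, h l j (S^[a (n + j)] x) * conj (h l' j (S^[a (n + j)] x)) ∂μ := fun n => by
    have h4 := spec_sum μ L q (fun l x => ∏ j ∈ J, h l j (S^[a (n + j)] x))
      fun l l' => ((hH l n).mul (hH l' n).star).integrable
    rw [norm_L2_sq (hY n).memLp, ← h4]
    simp only [map_prod, prod_mul_distrib]
  refine ⟨fun N => (D ^ J.card) ^ 2 * (∑ l ∈ L, ∑ l' ∈ L, q l * conj (q l') * cor μ S a J
    (fun j x => h l j x * conj (h l' j x)) N).re, ?_, fun N => ?_⟩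
  · refine Tendsto.const_mul _ ((Complex.continuous_re.tendsto _).comp ?_)
    exact tendsto_finsetSum L fun l _ => tendsto_finsetSum L fun l' _ =>
      Tendsto.const_mul (q l * conj (q l')) (hJE J (fun j x => h l j x * conj (h l' j x)) (D * D)
        fun j hj => ⟨(hh l j hj).1.mul (hh l' j hj).1.star,
          (hh l j hj).2.mul (tw_aesm_conj (hh l' j hj).2)⟩)
  · have h4 : ∑ l ∈ L, q l * cor μ S a J (fun j x => h l j x * Φ j x) N =
        av (fun n => ∫ x, (∏ j ∈ J, Φ j (S^[a (n + j)] x)) *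
          ∑ l ∈ L, q l * ∏ j ∈ J, h l j (S^[a (n + j)] x) ∂μ) N := by
      unfold cor
      simp only [← av_mul]
      rw [← av_sum]
      congr 1
      funext n
      simp only [mul_sum]
      rw [integral_finsetSum L fun l _ =>
        ((hP n).mul ((Bd.const (q l)).mul (hH l n))).integrable]
      refine sum_congr rfl fun l _ => ?_
      rw [← integral_const_mul]
      congr 1
      funext x
      rw [prod_mul_distrib]
      ring
    have h5 : ‖∑ l ∈ L, q l * cor μ S a J (fun j x => h l j x * Φ j x) N‖ ≤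
        av (fun n => D ^ J.card * y n) N := by
      rw [h4]
      refine (norm_av_le_av _ N).trans (av_mono fun n _ => ?_)
      exact (norm_integral_le_L2 ((hP n).mul (hY n)).memLp).trans
        ((hP n).norm_L2_mul (hY n).memLp)
    have h6 : (∑ l ∈ L, ∑ l' ∈ L, q l * conj (q l') * cor μ S a J
        (fun j x => h l j x * conj (h l' j x)) N) = ((av (fun n => y n ^ 2) N : ℝ) : ℂ) := by
      refine Eq.trans ?_ (av_map Complex.ofRealCLM (fun n => y n ^ 2) N)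
      simp only [Complex.ofRealCLM_apply, hy]
      unfold cor
      rw [av_sum]
      refine sum_congr rfl fun l _ => ?_
      rw [av_sum]
      exact sum_congr rfl fun l' _ => (av_mul _ _ N).symm
    beta_reduce
    rw [h6, Complex.ofReal_re, ← av_rmul]
    refine (pow_le_pow_left₀ (norm_nonneg _) h5 2).trans ((sq_av_le _ N).trans
      (av_mono fun n _ => ?_))
    rw [mul_pow]

theorem ae_base (hS : MeasurePreserving S μ μ) (hJE : JE μ S a m) {J : Finset ℕ} {i : ℕ}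
    (hi : i ∈ J) {Φ : ℕ → X → ℂ} {h : ℕ → ℕ → X → ℂ} {D : ℝ} (hΦ : ∀ j ∈ J, Bd μ D (Φ j))
    (hh : ∀ l, ∀ j ∈ J, Bd μ D (h l j) ∧ AEStronglyMeasurable[m] (h l j) μ)
    (hW : Wk fun l => L2 μ (h l i)) : Small μ S a J fun l j x => h l j x * Φ j x := by
  intro ε hε
  have hD : 0 ≤ D := (hΦ i hi).nonneg
  obtain ⟨K, hK⟩ : ∃ K : ℝ, K = (D ^ J.card) ^ 2 * (D * D) ^ (J.card - 1) := ⟨_, rfl⟩
  have hK0 : 0 ≤ K := by
    rw [hK]
    positivity
  have hδ : 0 < ε ^ 2 / (K + 1) := by positivity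
  filter_upwards [hW.eventually (gt_mem_nhds (pow_pos hδ 2))] with Λ hΛ
  obtain ⟨w, hw, hb⟩ := base_bound hS hJE hΦ hh (range Λ) fun _ => (((Λ : ℝ)⁻¹ : ℝ) : ℂ)
  rw [base_av2] at hw
  have h1 : av (fun l => av (fun l' => ‖⟪L2 μ (h l i), L2 μ (h l' i)⟫_ℂ‖) Λ) Λ ≤
      ε ^ 2 / (K + 1) := by
    refine le_of_sq_le_sq ?_ hδ.le
    exact ((sq_av_le _ Λ).trans (av_mono fun l _ => sq_av_le _ Λ)).trans hΛ.le
  have h2 : (av (fun l => av (fun l' => ∏ j ∈ J, ∫ x, h l j x * conj (h l' j x) ∂μ) Λ) Λ).re ≤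
      (D * D) ^ (J.card - 1) * (ε ^ 2 / (K + 1)) := by
    refine (Complex.re_le_norm _).trans ((norm_av_le_av _ Λ).trans (le_trans ?_
      (mul_le_mul_of_nonneg_left h1 (by positivity))))
    rw [← av_rmul]
    refine av_mono fun l _ => (norm_av_le_av _ Λ).trans ?_
    rw [← av_rmul]
    refine av_mono fun l' _ => ?_
    rw [← prod_erase_mul J _ hi, norm_mul, norm_inner_symm,
      inner_L2 (hh l' i hi).1.memLp (hh l i hi).1.memLp]
    exact mul_le_mul_of_nonneg_right (tw_norm_prod_erase (g := fun j x => h l j x * conj (h l' j x))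
      (fun j hj => (hh l j hj).1.mul (hh l' j hj).1.star) hi) (norm_nonneg _)
  have h3 : (D ^ J.card) ^ 2 *
      (av (fun l => av (fun l' => ∏ j ∈ J, ∫ x, h l j x * conj (h l' j x) ∂μ) Λ) Λ).re <
        ε ^ 2 := by
    refine (mul_le_mul_of_nonneg_left h2 (by positivity)).trans_lt ?_
    rw [← mul_assoc, ← hK, ← mul_div_assoc, div_lt_iff₀ (by positivity)]
    nlinarith [pow_pos hε 2]
  filter_upwards [hw.eventually (gt_mem_nhds h3)] with N hN
  rw [base_av]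
  exact le_of_sq_le_sq ((hb N).trans hN.le) hε.le

end Pool.Agent.Lib.MP_1db5af_an
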