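import Pool.Agent.Lib.MP_1db5af_an.Ae.Defs

set_option autoImplicit false

namespace Pool.Agent.Lib.MP_1db5af_an

open MeasureTheory Filter Topology ComplexConjugate Finset InnerProductSpace

theorem conc_sum_mul (Q P : ℕ) (F : ℕ → ℝ) :
    ∑ q ∈ range (Q * P), F q = ∑ y ∈ range P, ∑ z ∈ range Q, F (Q * y + z) := by
  induction P with
  | zero => simp
  | succ P ih => rw [Nat.mul_succ, sum_range_add, ih, sum_range_succ]

theorem conc_div {B z : ℕ} (hz : z ∈ range (2 ^ B)) (y c : ℕ) :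
    (2 ^ B * y + z) / 2 ^ (B + c) = y / 2 ^ c := by
  rw [pow_add, ← Nat.div_div_eq_div_mul, Nat.mul_add_div (by positivity),
    Nat.div_eq_of_lt (mem_range.1 hz), add_zero]

theorem conc_chain {s M : ℕ} {r : ℕ → ℕ} (hr : ∀ i, i + 1 < M → r i + s ≤ r (i + 1)) {i j : ℕ}
    (hij : i + 1 ≤ j) (hj : j < M) : r i + s ≤ r j := by
  induction j, hij using Nat.le_induction with
  | base => exact hr i hj
  | succ j _ ih =>
    have := ih (by omega)
    have := hr j hj
    omega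

theorem ae_count (s : ℕ) {ε : ℝ} (hε : 0 ≤ ε) (r : ℕ → ℕ) (W : ℕ → ℕ → ℝ) (M : ℕ)
    (hW : ∀ i < M, ∀ q, 0 ≤ W i q)
    (hb : ∀ i < M, ∀ y, ∑ z ∈ range (2 ^ s), W i (2 ^ s * y + z) ≤ ε * 2 ^ s)
    (h0 : 0 < M → s ≤ r 0) (hr : ∀ i, i + 1 < M → r i + s ≤ r (i + 1)) (R : ℕ)
    (hR : ∀ i < M, r i ≤ R) :
    ∑ q ∈ range (2 ^ R), ∏ i ∈ range M, (1 + 2 * W i (q / 2 ^ (R - r i))) ≤
      2 ^ R * (1 + 2 * ε) ^ M := by
  induction M generalizing R with
  | zero => simp
  | succ M ih =>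
    have h1 : ∀ i < M, r i + s ≤ r M := fun i hi => conc_chain hr hi M.lt_succ_self
    have h2 : s ≤ r M := by
      rcases Nat.eq_zero_or_pos M with rfl | hM
      · exact h0 zero_lt_one
      · have := h1 0 hM
        omega
    obtain ⟨a, ha⟩ := Nat.exists_eq_add_of_le h2
    obtain ⟨B, rfl⟩ := Nat.exists_eq_add_of_le' (hR M M.lt_succ_self)
    have h3 := ih (fun i hi => hW i (by omega)) (fun i hi => hb i (by omega))
      (fun hM => h0 (by omega)) (fun i hi => hr i (by omega)) a fun i hi => by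
        have := h1 i hi
        omega
    have h4 : ∀ y, ∀ z ∈ range (2 ^ B), ∏ i ∈ range (M + 1),
        (1 + 2 * W i ((2 ^ B * y + z) / 2 ^ (B + r M - r i))) =
        ∏ i ∈ range (M + 1), (1 + 2 * W i (y / 2 ^ (r M - r i))) := fun y z hz =>
      prod_congr rfl fun i hi => by
        have : r i ≤ r M := by
          rcases (Nat.lt_succ_iff.1 (mem_range.1 hi)).eq_or_lt with rfl | h
          · rfl
          · have := h1 i h
            omega
        rw [Nat.add_sub_assoc this, conc_div hz]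
    have h5 : ∀ y, ∑ z ∈ range (2 ^ s), ∏ i ∈ range (M + 1),
        (1 + 2 * W i ((2 ^ s * y + z) / 2 ^ (r M - r i))) ≤
        (∏ i ∈ range M, (1 + 2 * W i (y / 2 ^ (a - r i)))) * (2 ^ s * (1 + 2 * ε)) := fun y => by
      have e : ∀ z ∈ range (2 ^ s), ∏ i ∈ range (M + 1),
          (1 + 2 * W i ((2 ^ s * y + z) / 2 ^ (r M - r i))) =
          (∏ i ∈ range M, (1 + 2 * W i (y / 2 ^ (a - r i)))) * (1 + 2 * W M (2 ^ s * y + z)) :=
        fun z hz => by
          rw [prod_range_succ, Nat.sub_self, pow_zero, Nat.div_one]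
          congr 1
          refine prod_congr rfl fun i hi => ?_
          have := h1 i (mem_range.1 hi)
          rw [ha, Nat.add_sub_assoc (by omega), conc_div hz]
      rw [sum_congr rfl e, ← mul_sum, sum_add_distrib, ← mul_sum]
      refine mul_le_mul_of_nonneg_left ?_ (prod_nonneg fun i hi => ?_)
      · have := hb M M.lt_succ_self y
        simp only [sum_const, card_range, nsmul_eq_mul, Nat.cast_pow, Nat.cast_ofNat]
        linarith
      · have := hW i ((mem_range.1 hi).trans M.lt_succ_self) (y / 2 ^ (a - r i))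
        linarith
    rw [pow_add, conc_sum_mul, sum_congr rfl fun y _ => sum_congr rfl (h4 y)]
    simp only [sum_const, card_range, nsmul_eq_mul, Nat.cast_pow, Nat.cast_ofNat, ← mul_sum]
    rw [pow_add, mul_assoc]
    refine mul_le_mul_of_nonneg_left ?_ (by positivity)
    rw [show 2 ^ r M = 2 ^ s * 2 ^ a by rw [ha, pow_add], conc_sum_mul]
    refine (sum_le_sum fun y _ => h5 y).trans ?_
    rw [← sum_mul]
    refine (mul_le_mul_of_nonneg_right h3 (by positivity)).trans (le_of_eq ?_)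
    rw [ha]
    ring

theorem ae_conc {s M D : ℕ} (hD : 0 < D) {ε : ℝ} (hε : 0 < ε) {r : ℕ → ℕ → ℕ}
    {W : ℕ → ℕ → ℕ → ℝ} (hW : ∀ u < D, ∀ i < M, ∀ q, 0 ≤ W u i q ∧ W u i q ≤ 1)
    (hb : ∀ u < D, ∀ i < M, ∀ y, ∑ z ∈ range (2 ^ s), W u i (2 ^ s * y + z) ≤ ε * 2 ^ s)
    (h0 : ∀ u < D, 0 < M → s ≤ r u 0) (hr : ∀ u < D, ∀ i, i + 1 < M → r u i + s ≤ r u (i + 1))
    {f : ℕ → ℕ → ℝ → ℝ}
    (hf : ∀ u < D, ∀ i < M, ∀ x : ℝ, 0 ≤ x → x < 1 → f u i x ≤ W u i ⌊2 ^ r u i * x⌋₊) :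
    volume {x : ℝ | 0 ≤ x ∧ x < 1 ∧ 3 * ε * (D * M) < ∑ u ∈ range D, ∑ i ∈ range M, f u i x} ≤
      ENNReal.ofReal (Real.exp (-(ε * M))) := by
  obtain ⟨R, hR⟩ : ∃ R, ∀ u < D, ∀ i < M, r u i ≤ R :=
    ⟨(range D ×ˢ range M).sup fun p => r p.1 p.2, fun u hu i hi =>
      le_sup (f := fun p : ℕ × ℕ => r p.1 p.2) (b := (u, i))
        (mem_product.2 ⟨mem_range.2 hu, mem_range.2 hi⟩)⟩
  have hD' : (0 : ℝ) < D := by exact_mod_cast hD
  have hp : (0 : ℝ) < 2 ^ R := by positivity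
  set Bad := (range (2 ^ R)).filter fun q => 3 * ε * (D * M) <
    ∑ u ∈ range D, ∑ i ∈ range M, W u i (q / 2 ^ (R - r u i)) with hBad
  have h1 : ∀ q ∈ Bad, D * Real.exp (3 * ε * M) ≤
      ∑ u ∈ range D, ∏ i ∈ range M, (1 + 2 * W u i (q / 2 ^ (R - r u i))) := fun q hq => by
    have a1 := (mem_filter.1 hq).2
    calc _ ≤ ∑ u ∈ range D, Real.exp (3 * ε * M) *
          (∑ i ∈ range M, W u i (q / 2 ^ (R - r u i)) - 3 * ε * M + 1) := by
          rw [← mul_sum, mul_comm, sum_add_distrib, sum_sub_distrib]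
          simp only [sum_const, card_range, nsmul_eq_mul]
          exact mul_le_mul_of_nonneg_left (by linarith) (Real.exp_pos _).le
      _ ≤ _ := sum_le_sum fun u hu => by
          refine (mul_le_mul_of_nonneg_left (Real.add_one_le_exp _) (Real.exp_pos _).le).trans ?_
          rw [← Real.exp_add, add_sub_cancel, Real.exp_sum]
          refine prod_le_prod (fun i _ => (Real.exp_pos _).le) fun i hi => ?_
          obtain ⟨b1, b2⟩ := hW u (mem_range.1 hu) i (mem_range.1 hi) (q / 2 ^ (R - r u i))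
          have := Real.abs_exp_sub_one_le (x := W u i (q / 2 ^ (R - r u i)))
            (by rwa [abs_of_nonneg b1])
          rw [abs_of_nonneg b1] at this
          linarith [le_abs_self (Real.exp (W u i (q / 2 ^ (R - r u i))) - 1)]
  have h2 : Bad.card * (D * Real.exp (3 * ε * M)) ≤ D * (2 ^ R * Real.exp (2 * ε * M)) := by
    rw [← nsmul_eq_mul]
    refine (card_nsmul_le_sum _ _ _ h1).trans ((sum_le_sum_of_subset_of_nonneg
      (filter_subset _ _) fun q _ _ => sum_nonneg fun u hu => prod_nonneg fun i hi => ?_).trans ?_)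
    · have := (hW u (mem_range.1 hu) i (mem_range.1 hi) (q / 2 ^ (R - r u i))).1
      linarith
    rw [sum_comm]
    refine (sum_le_card_nsmul _ _ _ fun u hu => ?_).trans (by rw [card_range, nsmul_eq_mul])
    have hu' := mem_range.1 hu
    refine (ae_count s hε.le (r u) (W u) M (fun i hi q => (hW u hu' i hi q).1) (hb u hu')
      (h0 u hu') (hr u hu') R (hR u hu')).trans (mul_le_mul_of_nonneg_left ?_ hp.le)
    rw [mul_comm _ (M : ℝ), Real.exp_nat_mul, add_comm]
    exact pow_le_pow_left₀ (by positivity) (Real.add_one_le_exp _) M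
  have h3 : Bad.card * (1 / 2 ^ R : ℝ) ≤ Real.exp (-(ε * M)) := by
    rw [mul_one_div, div_le_iff₀ hp]
    refine le_of_mul_le_mul_right (h2.trans (le_of_eq ?_)) (by positivity)
    rw [show 2 * ε * M = -(ε * M) + 3 * ε * M by ring, Real.exp_add]
    ring
  have h4 : {x : ℝ | 0 ≤ x ∧ x < 1 ∧ 3 * ε * (D * M) < ∑ u ∈ range D, ∑ i ∈ range M, f u i x} ⊆
      ⋃ q ∈ Bad, Set.Ico ((q : ℝ) / 2 ^ R) ((q + 1) / 2 ^ R) := fun x ⟨x0, x1, hx⟩ => by
    have y0 : 0 ≤ 2 ^ R * x := by positivity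
    refine Set.mem_iUnion₂.2 ⟨⌊2 ^ R * x⌋₊, mem_filter.2 ⟨mem_range.2 ?_, hx.trans_le
      (sum_le_sum fun u hu => sum_le_sum fun i hi => ?_)⟩, ?_, ?_⟩
    · rw [Nat.floor_lt y0]
      push_cast
      exact mul_lt_of_lt_one_right hp x1
    · refine (hf u (mem_range.1 hu) i (mem_range.1 hi) x x0 x1).trans (le_of_eq ?_)
      rw [← Nat.floor_div_natCast]
      congr 2
      obtain ⟨c, rfl⟩ := Nat.exists_eq_add_of_le (hR u (mem_range.1 hu) i (mem_range.1 hi))
      rw [Nat.add_sub_cancel_left, pow_add]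
      push_cast
      field_simp
    · rw [div_le_iff₀' hp]
      exact Nat.floor_le y0
    · rw [lt_div_iff₀' hp]
      exact Nat.lt_floor_add_one _
  refine (measure_mono h4).trans ((measure_biUnion_finset_le _ _).trans ?_)
  simp only [Real.volume_Ico, ← sub_div, add_sub_cancel_left, sum_const, nsmul_eq_mul]
  rw [← ENNReal.ofReal_natCast, ← ENNReal.ofReal_mul (Nat.cast_nonneg _)]
  exact ENNReal.ofReal_le_ofReal h3

end Pool.Agent.Lib.MP_1db5af_an
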