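import Pool.Agent.Lib.MP_1db5af_an.Ae.G2
import Pool.Agent.Lib.MP_1db5af_an.Ae.Atom
import Pool.Agent.Lib.MP_1db5af_an.Ae.Conc

set_option autoImplicit false

namespace Pool.Agent.Lib.MP_1db5af_an

open MeasureTheory Filter Topology ComplexConjugate Finset InnerProductSpace

theorem blk_sum_mul (F : ℕ → ℝ) (D M : ℕ) :
    ∑ m ∈ range (D * M), F m = ∑ i ∈ range M, ∑ u ∈ range D, F (D * i + u) := by
  induction M with
  | zero => simp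
  | succ M ih => rw [Nat.mul_succ, sum_range_add, ih, sum_range_succ]

theorem blk_sum_le {F : ℕ → ℝ} (hF : ∀ n, 0 ≤ F n) {k D M : ℕ} (h : 2 ^ k ≤ D * M) :
    ∑ n ∈ Ico (2 ^ k) (2 ^ (k + 1)), F n ≤
      ∑ u ∈ range D, ∑ i ∈ range M, F (2 ^ k + (D * i + u)) := by
  rw [sum_Ico_eq_sum_range, sum_comm, ← blk_sum_mul (fun m => F (2 ^ k + m)) D M]
  refine sum_le_sum_of_subset_of_nonneg (range_subset_range.2 ?_) fun i _ _ => hF _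
  rw [pow_succ]
  omega

/-- The weight function attached to one time `n` of the block. -/
theorem blk_one {K : ℕ} {Ψ : (ℕ → ℕ) → ℝ} (hΨ : Pat K Ψ) {ε0 η α : ℝ} {s k n : ℕ}
    (hL : ∀ b : ℕ → ℕ, av (fun t => Ψ fun j => b j + j * t) (2 ^ s + 1) ≤ ε0)
    (hη0 : 0 ≤ η) (hη : K * η * 2 ^ s ≤ 1) (hα : 0 < α) (hα1 : α + 1 / 2 ^ k ≤ 1) (hsk : s ≤ k)
    (hn3 : 3 ≤ n) (hn1 : 2 ^ k ≤ n) (hn2 : n ≤ 3 * 2 ^ k) (hbig : (n : ℝ) ^ 2 ≤ VV α n)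
    (hsp : ∀ c c' : ℝ, α ≤ c → c ≤ c' → c' ≤ 1 → c' ≤ α + 3 / n → ∀ i < K,
        VV α n * (c' - c) ≤ (G c' ((n + (i + 1) : ℕ) : ℝ) - G c' ((n + i : ℕ) : ℝ)) -
          (G c ((n + (i + 1) : ℕ) : ℝ) - G c ((n + i : ℕ) : ℝ)) ∧
        (G c' ((n + (i + 1) : ℕ) : ℝ) - G c' ((n + i : ℕ) : ℝ)) -
          (G c ((n + (i + 1) : ℕ) : ℝ) - G c ((n + i : ℕ) : ℝ)) ≤
            (1 + η) * VV α n * (c' - c)) :
    ∃ (e : ℕ) (W : ℕ → ℝ), (2 : ℝ) ^ e ≤ VV α n / 2 ^ k ∧ VV α n / 2 ^ k < 2 ^ (e + 1) ∧ s ≤ e ∧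
      (∀ q, 0 ≤ W q ∧ W q ≤ 1) ∧
      (∀ x : ℝ, 0 ≤ x → x < 1 →
        Ψ (fun j => ⌊G (α + x / 2 ^ k) ((n + j : ℕ) : ℝ)⌋₊) ≤ W ⌊2 ^ (e + 2) * x⌋₊) ∧
      ∀ y : ℕ, ∑ z ∈ range (2 ^ s), W (2 ^ s * y + z) ≤ 16 * (K + 5) ^ K * ε0 * 2 ^ s := by
  have h2k : (0 : ℝ) < 2 ^ k := by positivity
  have hn1' : (2 : ℝ) ^ k ≤ n := by exact_mod_cast hn1
  have hn2' : (n : ℝ) ≤ 3 * 2 ^ k := by exact_mod_cast hn2
  have hn0 : (0 : ℝ) < n := h2k.trans_le hn1'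
  have hw : (2 : ℝ) ^ k ≤ VV α n / 2 ^ k := by
    rw [le_div_iff₀ h2k]
    nlinarith
  have h1k : (1 : ℝ) ≤ 2 ^ k := one_le_pow₀ one_le_two
  obtain ⟨e, he1, he2⟩ := exists_nat_pow_near (h1k.trans hw) (one_lt_two (α := ℝ))
  have hse : s ≤ e := by
    have h1 : (2 : ℝ) ^ k < 2 ^ (e + 1) := hw.trans_lt he2
    have h2 := (pow_lt_pow_iff_right₀ (one_lt_two (α := ℝ))).1 h1
    omega
  have h3 : ∀ j : ℕ, (3 : ℝ) ≤ ((n + j : ℕ) : ℝ) := fun j => by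
    exact_mod_cast hn3.trans (Nat.le_add_right n j)
  have hk3 : (1 : ℝ) / 2 ^ k ≤ 3 / n := by
    rw [div_le_div_iff₀ h2k hn0]
    linarith
  obtain ⟨W, hW1, hW2, hW3⟩ := ae_atom hΨ hL (U := fun x j => G (α + x / 2 ^ k) ((n + j : ℕ) : ℝ))
    (w := VV α n / 2 ^ k) (η := η) (ρ := e + 2) (by omega) (by rw [pow_add]; linarith)
    (by rw [pow_succ, pow_succ] at *; linarith) hη0 hη
    (fun x hx _ j _ => by
      have h4 : 0 ≤ α + x / 2 ^ k := by positivity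
      have := ae_G_ge h4 (h3 j)
      linarith [h3 j])
    (fun x x' _ hxx _ => ae_G_mono_c (by gcongr) (h3 0))
    (fun x x' hx hxx hx1 i hi => by
      have h4 : x' / 2 ^ k ≤ 1 / 2 ^ k := by gcongr
      have h5 : 0 ≤ x / 2 ^ k := by positivity
      have h6 := hsp (α + x / 2 ^ k) (α + x' / 2 ^ k) (by linarith) (by gcongr) (by linarith)
        (by linarith) i hi
      have h7 : VV α n * (α + x' / 2 ^ k - (α + x / 2 ^ k)) = VV α n / 2 ^ k * (x' - x) := by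
        ring
      have h8 : (1 + η) * VV α n * (α + x' / 2 ^ k - (α + x / 2 ^ k)) =
          (1 + η) * (VV α n / 2 ^ k) * (x' - x) := by ring
      rw [h7, h8] at h6
      exact h6)
  exact ⟨e, W, he1, he2, hse, hW1, hW2, hW3⟩

theorem blk_ev {p : ℕ → Prop} (h : ∀ᶠ n : ℕ in atTop, p n) :
    ∀ᶠ k : ℕ in atTop, ∀ n, 2 ^ k ≤ n → p n := by
  obtain ⟨N, hN⟩ := eventually_atTop.1 h
  filter_upwards [eventually_ge_atTop N] with k hk n hn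
  exact hN n (hk.trans (Nat.lt_two_pow_self.le.trans hn))

theorem ae_blk {K : ℕ} {Ψ : (ℕ → ℕ) → ℝ} (hΨ : Pat K Ψ) (hL : Lin id Ψ) {c0 ε : ℝ}
    (hc0 : 0 < c0) (hε : 0 < ε) :
    ∀ᶠ k : ℕ in atTop, ∀ α : ℝ, c0 ≤ α → α + 1 / 2 ^ k ≤ 1 →
      volume {x : ℝ | 0 ≤ x ∧ x < 1 ∧ ε * 2 ^ k < ∑ n ∈ Ico (2 ^ k) (2 ^ (k + 1)),
        Ψ fun j => ⌊G (α + x / 2 ^ k) ((n + j : ℕ) : ℝ)⌋₊} ≤ ENNReal.ofReal (1 / (k : ℝ) ^ 2) := by
  have hK : (0 : ℝ) < K := by exact_mod_cast hΨ.pos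
  have hε1 : 0 < ε / 6 := by positivity
  obtain ⟨s, hs⟩ := hL (ε / 6 / (16 * (K + 5) ^ K)) (by positivity)
  have hLs := hs (2 ^ s + 1) (Nat.lt_two_pow_self.le.trans (Nat.le_succ _))
  have hη : (0 : ℝ) < 1 / (K * 2 ^ s) := by positivity
  have hη1 : (K : ℝ) * (1 / (K * 2 ^ s)) * 2 ^ s ≤ 1 := le_of_eq (by field_simp)
  have hε0 : 16 * ((K : ℝ) + 5) ^ K * (ε / 6 / (16 * (K + 5) ^ K)) = ε / 6 := by field_simp
  filter_upwards [ae_gap hc0 hε1 s, eventually_ge_atTop s, blk_ev (ae_speed K hη),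
    blk_ev (ae_V_big hc0), blk_ev (eventually_ge_atTop 3)] with k hgap hsk hsp hbig h3 α hα hα1
  obtain ⟨M, D, hD, hDM1, hDM2, hexp, hgap⟩ := hgap
  have hα0 : 0 < α := hc0.trans_le hα
  have h2k : (0 : ℝ) < 2 ^ k := by positivity
  have hone := fun (n : ℕ) (hn1 : 2 ^ k ≤ n) (hn2 : n ≤ 3 * 2 ^ k) =>
    blk_one hΨ hLs hη.le hη1 hα0 hα1 hsk (h3 n hn1) hn1 hn2 (hbig n hn1 α hα)
      fun c c' => hsp n hn1 α c c' hα0
  choose! e W he1 he2 hse hW1 hW2 hW3 using hone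
  have hlo : ∀ u i : ℕ, 2 ^ k ≤ 2 ^ k + (D * i + u) := fun u i => Nat.le_add_right _ _
  have hhi : ∀ u < D, ∀ i < M, 2 ^ k + (D * i + u) ≤ 3 * 2 ^ k := fun u hu i hi => by
    have h1 : D * (i + 1) ≤ D * M := Nat.mul_le_mul_left D hi
    rw [Nat.mul_succ] at h1
    rw [pow_succ] at hDM2
    omega
  have hc := ae_conc (s := s) (M := M) hD hε1 (r := fun u i => e (2 ^ k + (D * i + u)) + 2)
    (W := fun u i => W (2 ^ k + (D * i + u)))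
    (f := fun u i x => Ψ fun j => ⌊G (α + x / 2 ^ k) ((2 ^ k + (D * i + u) + j : ℕ) : ℝ)⌋₊)
    (fun u hu i hi => hW1 _ (hlo u i) (hhi u hu i hi))
    (fun u hu i hi y => by
      have := hW3 _ (hlo u i) (hhi u hu i hi) y
      rwa [hε0] at this)
    (fun u hu hM => (hse _ (hlo u 0) (hhi u hu 0 hM)).trans (Nat.le_add_right _ _))
    (fun u hu i hi => by
      have hi' : i < M := by omega
      have h1 := he1 _ (hlo u i) (hhi u hu i hi')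
      have h2 := he2 _ (hlo u (i + 1)) (hhi u hu (i + 1) hi)
      have h4 := hgap α _ hα (hlo u i) (hhi u hu i hi')
      have h5 : 2 ^ k + (D * i + u) + D = 2 ^ k + (D * (i + 1) + u) := by ring
      rw [h5] at h4
      rw [le_div_iff₀ h2k] at h1
      rw [div_lt_iff₀ h2k] at h2
      have h6 : (2 : ℝ) ^ (s + e (2 ^ k + (D * i + u))) * 2 ^ k <
          2 ^ (e (2 ^ k + (D * (i + 1) + u)) + 1) * 2 ^ k := by
        refine lt_of_le_of_lt ?_ (h4.trans_lt h2)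
        rw [pow_add, mul_assoc]
        gcongr
      have h7 := (pow_lt_pow_iff_right₀ (one_lt_two (α := ℝ))).1 (lt_of_mul_lt_mul_right h6 h2k.le)
      show e _ + 2 + s ≤ e _ + 2
      omega)
    (fun u hu i hi => hW2 _ (hlo u i) (hhi u hu i hi))
  refine le_trans (measure_mono ?_) (hc.trans (ENNReal.ofReal_le_ofReal hexp))
  rintro x ⟨hx0, hx1, hx⟩
  refine ⟨hx0, hx1, ?_⟩
  have h1 := blk_sum_le (F := fun n => Ψ fun j => ⌊G (α + x / 2 ^ k) ((n + j : ℕ) : ℝ)⌋₊)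
    (fun n => hΨ.nonneg _) hDM1
  have h2 : ((D : ℝ) * M) ≤ 2 ^ k * 2 := by
    rw [← pow_succ]
    exact_mod_cast hDM2
  refine lt_of_le_of_lt ?_ (hx.trans_le h1)
  nlinarith

end Pool.Agent.Lib.MP_1db5af_an
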