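import Pool.Agent.Lib.MP_1db5af_an.Ae.Defs

set_option autoImplicit false

namespace Pool.Agent.Lib.MP_1db5af_an

open MeasureTheory Filter Topology ComplexConjugate Finset InnerProductSpace

variable {X : Type*} {m m1 : MeasurableSpace X} [m0 : MeasurableSpace X] {μ : Measure X}
  [IsProbabilityMeasure μ] {S : X → X} {a : ℕ → ℕ} {C : ℝ}

theorem ae_block {T : X → X} (hT : MeasurePreserving T μ μ) (hS : MeasurePreserving S μ μ)
    (hZ : ZeroEnt μ T) {k : ℕ} {ζ : X → Fin k} (hζ : Measurable ζ) (φ : Fin k → ℂ) {g : X → ℂ}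
    (hgm : Measurable g) (hg : ∀ x, ‖g x‖ ≤ C)
    (H : ∀ (la B : ℝ) (K : ℕ) (c : ℕ → ℂ), 0 ≤ la → la * B ≤ 1 → (∀ j x, ‖c j * g x‖ ≤ B) →
      ∀ᶠ N in atTop, av (fun n => ∫ x,
        Real.exp (la * (∑ j ∈ range K, c j * g (S^[a (n + j)] x)).re) ∂μ) N ≤
          2 * Real.exp (K * (la * B) ^ 2)) :
    Null μ T S a (fun x => φ (ζ x)) g := by
  classical
  obtain ⟨B, hB1, hB⟩ : ∃ B : ℝ, 1 ≤ B ∧ ∀ i x, ‖φ i * g x‖ ≤ B := by
    obtain ⟨B, hB⟩ := (Set.finite_range fun i : Fin k => ‖φ i‖ * C).bddAbove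
    refine ⟨max 1 B, le_max_left _ _, fun i x => le_trans ?_
      ((hB ⟨i, rfl⟩).trans (le_max_right _ _))⟩
    rw [norm_mul]
    exact mul_le_mul_of_nonneg_left (hg x) (norm_nonneg _)
  have hB0 : 0 < B := by linarith
  have hmg : ∀ n, Measurable fun x => g (S^[n] x) := fun n =>
    hgm.comp (hS.measurable.iterate n)
  have hbd : ∀ n, Bd μ B fun x => φ (ζ (T^[n] x)) * g (S^[a n] x) := fun n =>
    ⟨(((measurable_of_countable φ).comp (hζ.comp (hT.measurable.iterate n))).mul
      (hmg _)).aestronglyMeasurable, Eventually.of_forall fun x => hB _ _⟩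
  refine tendsto_zero_of_forall fun ε0 hε0 => ?_
  obtain ⟨ε, hε, hε1, hε2⟩ : ∃ ε : ℝ, 0 < ε ∧ ε ≤ 1 ∧ 2 * ε ≤ ε0 :=
    ⟨min 1 (ε0 / 2), by positivity, min_le_left _ _, by linarith [min_le_right 1 (ε0 / 2)]⟩
  set δ : ℝ := ε ^ 2 / (8 * B ^ 2) with hδ
  set la : ℝ := ε / (2 * B ^ 2) with hla
  have hδ0 : 0 < δ := by positivity
  have hla0 : 0 ≤ la := by positivity
  have hlaB : la * B ≤ 1 := by
    rw [hla, div_mul_eq_mul_div, div_le_one (by positivity)]
    nlinarith
  have hexp : Tendsto (fun K : ℕ => 8 * B ^ 2 * Real.exp (-(δ * K))) atTop (𝓝 0) := by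
    have h1 := (Real.tendsto_exp_neg_atTop_nhds_zero.comp
      (tendsto_natCast_atTop_atTop.const_mul_atTop hδ0)).const_mul (8 * B ^ 2)
    rwa [mul_zero] at h1
  obtain ⟨K, ⟨W, hW1, hW2⟩, hK, hK0⟩ := ((names hT.measurable hZ hζ hδ0).and
    ((hexp.eventually (gt_mem_nhds (pow_pos hε 2))).and (eventually_gt_atTop 0))).exists
  refine ⟨_, block_shift (fun n => (hbd n).norm_L2) hK0, ?_⟩
  have hc : ∀ p : (Fin K → Fin k) × Fin 4, ∀ j i, ‖blockC φ p j * g i‖ ≤ B := fun p j i => by
    rw [blockC]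
    split_ifs with h
    · rw [mul_assoc, norm_mul, blockOm_norm, one_mul]
      exact hB _ _
    · simpa using hB0.le
  filter_upwards [(eventually_all_finset (W ×ˢ (univ : Finset (Fin 4)))).2 fun p _ =>
    H la B K (blockC φ p) hla0 hlaB (hc p), eventually_gt_atTop 0] with N hN hN0
  rw [sub_sub_cancel]
  refine (norm_av_le_av _ N).trans (le_trans ?_ hε2)
  refine le_of_sq_le_sq ((sq_av_le _ N).trans ?_) (by positivity)
  have hA : MeasurableSet {x | (fun j : Fin K => ζ (T^[j] x)) ∉ W} :=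
    (measurable_pi_lambda _ fun j : Fin K => hζ.comp (hT.measurable.iterate j))
      (MeasurableSet.of_discrete (s := {w | w ∉ W}))
  have hie : ∀ n p, Integrable (fun x => Real.exp (la *
      (∑ j ∈ range K, blockC φ p j * g (S^[a (n + j)] x)).re)) μ := fun n p => by
    refine Integrable.of_bound (Measurable.aestronglyMeasurable ?_) (Real.exp (la * (K * B)))
      (Eventually.of_forall fun x => ?_)
    · exact ((Complex.measurable_re.comp (Finset.measurable_sum _ fun j _ =>
        (hmg _).const_mul _)).const_mul la).exp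
    · rw [Real.norm_eq_abs, Real.abs_exp]
      refine Real.exp_le_exp.2 (mul_le_mul_of_nonneg_left ((Complex.re_le_norm _).trans
        ((norm_sum_le_of_le _ fun j _ => hc p j _).trans ?_)) hla0)
      simp
  have hn : ∀ n, ‖av (fun j => L2 μ fun x => φ (ζ (T^[n + j] x)) * g (S^[a (n + j)] x)) K‖ ^ 2 ≤
      (B ^ 2 * δ + 2 * ε ^ 2) + B ^ 2 * Real.exp (-(la * K * ε)) *
        ∑ p ∈ W ×ˢ (univ : Finset (Fin 4)), ∫ x, Real.exp (la *
          (∑ j ∈ range K, blockC φ p j * g (S^[a (n + j)] x)).re) ∂μ := fun n => by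
    have hZn := (Bd.av hB0.le (fun j => hbd (n + j)) K).memLp
    have hA' := (hT.iterate n).measurable hA
    have hi1 : Integrable (fun x => B ^ 2 * (T^[n] ⁻¹' {x | (fun j : Fin K => ζ (T^[j] x)) ∉ W}).indicator
        (1 : X → ℝ) x) μ := ((integrable_const (1 : ℝ)).indicator hA').const_mul _
    have hi2 := (integrable_finsetSum (W ×ˢ (univ : Finset (Fin 4))) fun p _ =>
      hie n p).const_mul (B ^ 2 * Real.exp (-(la * K * ε)))
    rw [← L2_av fun j => (hbd (n + j)).memLp, norm_L2_sq hZn]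
    refine (integral_mono (hZn.norm.integrable_sq) ((hi1.add (integrable_const (2 * ε ^ 2))).add hi2)
      fun x => ?_).trans ?_
    · have h1 := block_pt (T := T) hK0 ζ φ (fun j => g (S^[a (n + j)] x)) (T^[n] x) W
        (ε := ε) (fun i j => hB _ _) hla0
      simp only [← Function.iterate_add_apply, add_comm _ n] at h1
      exact h1
    · simp only [Pi.add_apply]
      rw [integral_add (by exact hi1.add (integrable_const (2 * ε ^ 2))) hi2, integral_add hi1 (integrable_const _),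
        integral_const_mul, integral_const_mul, integral_const_mul, integral_indicator_one hA',
        integral_finsetSum _ fun p _ => hie n p, (hT.iterate n).measureReal_preimage
          hA.nullMeasurableSet]
      simp only [integral_const, probReal_univ, one_smul]
      gcongr
  refine (av_mono fun n _ => hn n).trans ?_
  rw [av_add, av_const _ hN0, av_rmul, av_sum]
  have h1 := sum_le_card_nsmul _ _ _ hN
  rw [card_product, card_univ, Fintype.card_fin, nsmul_eq_mul, Nat.cast_mul] at h1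
  have h2 : Real.exp (-(la * K * ε)) * (Real.exp (δ * K) * Real.exp (K * (la * B) ^ 2)) =
      Real.exp (-(δ * K)) := by
    rw [← Real.exp_add, ← Real.exp_add, hδ, hla]
    congr 1
    field_simp
    ring
  have h3 : B ^ 2 * δ = ε ^ 2 / 8 := by
    rw [hδ]
    field_simp
  have h4 : B ^ 2 * Real.exp (-(la * K * ε)) * ((W.card : ℝ) * ((4 : ℕ) : ℝ) *
      (2 * Real.exp (K * (la * B) ^ 2))) ≤ 8 * B ^ 2 * Real.exp (-(δ * K)) := by
    rw [← h2]
    calc _ ≤ B ^ 2 * Real.exp (-(la * K * ε)) * (Real.exp (δ * K) * ((4 : ℕ) : ℝ) *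
          (2 * Real.exp (K * (la * B) ^ 2))) := by gcongr
      _ = _ := by push_cast; ring
  have h5 := mul_le_mul_of_nonneg_left h1
    (by positivity : 0 ≤ B ^ 2 * Real.exp (-(la * K * ε)))
  nlinarith [sq_nonneg ε]

end Pool.Agent.Lib.MP_1db5af_an
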