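import Pool.Agent.Lib.MP_1db5af_an.Ae.Defs

set_option autoImplicit false

namespace Pool.Agent.Lib.MP_1db5af_an

open MeasureTheory Filter Topology ComplexConjugate Finset InnerProductSpace

variable {X : Type*} {m m1 : MeasurableSpace X} [m0 : MeasurableSpace X] {μ : Measure X}
  [IsProbabilityMeasure μ] {S : X → X} {a : ℕ → ℕ} {C : ℝ}

theorem cpt_bd {ι : Type} [Fintype ι] {Φ h : ι → X → ℂ} {D : ℝ} (hΦ : ∀ k, Bd μ D (Φ k))
    (hh : ∀ k, Bd μ D (h k)) : Bd μ (Fintype.card ι * (D * D)) fun x => ∑ k, h k x * Φ k x := by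
  have := Bd.sum univ (B := fun _ => D * D) fun k _ => (hh k).mul (hΦ k)
  rwa [sum_const, card_univ, nsmul_eq_mul] at this

theorem cpt_norm_conj {φ : X → ℂ} (h : Bd μ C φ) : ‖L2 μ fun x => conj (φ x)‖ = ‖L2 μ φ‖ := by
  rw [← sq_eq_sq₀ (norm_nonneg _) (norm_nonneg _), norm_L2_sq h.star.memLp, norm_L2_sq h.memLp]
  simp only [Complex.norm_conj]

/-- an exact representation with one generator -/
theorem cpt_one {g Φ : X → ℂ} {D : ℝ} (hg : Bd μ C g) (hΦ : Bd μ D Φ)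
    (H : ∀ l : ℕ, ∃ h : X → ℂ, Bd μ D h ∧ AEStronglyMeasurable[m] h μ ∧
      (fun x => g (S^[l] x)) =ᵐ[μ] fun x => h x * Φ x) : Cpt m μ S g := by
  refine ⟨⟨C, hg⟩, fun ε hε => ⟨Unit, inferInstance, fun _ => Φ, D, fun _ => hΦ, fun l => ?_⟩⟩
  obtain ⟨h, h1, h2, h3⟩ := H l
  refine ⟨fun _ => h, fun _ => ⟨h1, h2⟩, ?_⟩
  simp only [univ_unique, sum_singleton]
  rw [L2_congr h3, sub_self, norm_zero]
  exact hε.le

theorem cpt_const (c : ℂ) : Cpt m μ S fun _ => c :=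
  cpt_one (Φ := fun _ => 1) (D := max ‖c‖ ‖(1 : ℂ)‖) (Bd.const c)
    ((Bd.const 1).mono (le_max_right _ _)) fun _ => ⟨fun _ => c, (Bd.const c).mono (le_max_left _ _),
      aestronglyMeasurable_const, Eventually.of_forall fun _ => (mul_one c).symm⟩

theorem cpt_add (hS : MeasurePreserving S μ μ) {g g' : X → ℂ} (H : Cpt m μ S g)
    (H' : Cpt m μ S g') : Cpt m μ S fun x => g x + g' x := by
  obtain ⟨⟨B, hB⟩, H⟩ := H
  obtain ⟨⟨B', hB'⟩, H'⟩ := H'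
  refine ⟨⟨_, hB.add hB'⟩, fun ε hε => ?_⟩
  obtain ⟨ι, _, Φ, D, hΦ, H⟩ := H _ (half_pos hε)
  obtain ⟨ι', _, Φ', D', hΦ', H'⟩ := H' _ (half_pos hε)
  refine ⟨ι ⊕ ι', inferInstance, Sum.elim Φ Φ', max D D', ?_, fun l => ?_⟩
  · rintro (k | k)
    · exact (hΦ k).mono (le_max_left _ _)
    · exact (hΦ' k).mono (le_max_right _ _)
  obtain ⟨h, h1, h2⟩ := H l
  obtain ⟨h', h1', h2'⟩ := H' l
  refine ⟨Sum.elim h h', ?_, ?_⟩
  · rintro (k | k)
    · exact ⟨(h1 k).1.mono (le_max_left _ _), (h1 k).2⟩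
    · exact ⟨(h1' k).1.mono (le_max_right _ _), (h1' k).2⟩
  simp only [Fintype.sum_sum_type, Sum.elim_inl, Sum.elim_inr]
  rw [L2_add (hB.iter hS l).memLp (hB'.iter hS l).memLp,
    L2_add (cpt_bd hΦ fun k => (h1 k).1).memLp (cpt_bd hΦ' fun k => (h1' k).1).memLp,
    add_sub_add_comm]
  exact (norm_add_le _ _).trans (by linarith)

theorem cpt_mul (hS : MeasurePreserving S μ μ) {g g' : X → ℂ} (H : Cpt m μ S g)
    (H' : Cpt m μ S g') : Cpt m μ S fun x => g x * g' x := by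
  obtain ⟨⟨B, hB⟩, H⟩ := H
  obtain ⟨⟨B', hB'⟩, H'⟩ := H'
  refine ⟨⟨_, hB.mul hB'⟩, fun ε hε => ?_⟩
  have p1 := hB'.nonneg
  obtain ⟨ι, _, Φ, D, hΦ, H⟩ := H (ε / 2 / (B' + 1)) (by positivity)
  have p2 : 0 ≤ Fintype.card ι * (D * D) := mul_nonneg (Nat.cast_nonneg _) (mul_self_nonneg D)
  obtain ⟨ι', _, Φ', D', hΦ', H'⟩ := H' (ε / 2 / (Fintype.card ι * (D * D) + 1)) (by positivity)
  refine ⟨ι × ι', inferInstance, fun k x => Φ k.1 x * Φ' k.2 x, D * D',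
    fun k => (hΦ k.1).mul (hΦ' k.2), fun l => ?_⟩
  obtain ⟨h, h1, h2⟩ := H l
  obtain ⟨h', h1', h2'⟩ := H' l
  refine ⟨fun k x => h k.1 x * h' k.2 x,
    fun k => ⟨(h1 k.1).1.mul (h1' k.2).1, (h1 k.1).2.mul (h1' k.2).2⟩, ?_⟩
  have b1 := cpt_bd hΦ fun k => (h1 k).1
  have b2 := cpt_bd hΦ' fun k => (h1' k).1
  have b3 := hB.iter hS l
  have b4 := hB'.iter hS l
  have e : ∀ x, ∑ k : ι × ι', h k.1 x * h' k.2 x * (Φ k.1 x * Φ' k.2 x) =
      (∑ k, h k x * Φ k x) * ∑ k, h' k x * Φ' k x := fun x => by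
    rw [Fintype.sum_prod_type, sum_mul_sum]
    exact sum_congr rfl fun _ _ => sum_congr rfl fun _ _ => by ring
  simp only [e]
  rw [← L2_sub b3.memLp b1.memLp] at h2
  rw [← L2_sub b4.memLp b2.memLp] at h2'
  have e2 : (L2 μ (fun x => g (S^[l] x) * g' (S^[l] x)) -
      L2 μ fun x => (∑ k, h k x * Φ k x) * ∑ k, h' k x * Φ' k x) =
      L2 μ (fun x => g' (S^[l] x) * (g (S^[l] x) - ∑ k, h k x * Φ k x)) +
        L2 μ fun x => (∑ k, h k x * Φ k x) * (g' (S^[l] x) - ∑ k, h' k x * Φ' k x) := by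
    rw [← L2_sub (b3.mul b4).memLp (b1.mul b2).memLp,
      ← L2_add (b4.mul (b3.sub b1)).memLp (b1.mul (b4.sub b2)).memLp]
    congr 1
    funext x
    ring
  rw [e2]
  have k : ∀ {t r : ℝ}, 0 ≤ t → r ≤ ε / 2 / (t + 1) → t * r ≤ ε / 2 := fun {t r} ht hr => by
    refine (mul_le_mul_of_nonneg_left hr ht).trans ?_
    rw [← mul_div_assoc, div_le_iff₀ (by positivity)]
    nlinarith
  have c1 := (b4.norm_L2_mul (b3.sub b1).memLp).trans (k p1 h2)
  have c2 := (b1.norm_L2_mul (b4.sub b2).memLp).trans (k p2 h2')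
  exact (norm_add_le _ _).trans (by linarith)

theorem cpt_star (hS : MeasurePreserving S μ μ) {g : X → ℂ} (H : Cpt m μ S g) :
    Cpt m μ S fun x => conj (g x) := by
  obtain ⟨⟨B, hB⟩, H⟩ := H
  refine ⟨⟨_, hB.star⟩, fun ε hε => ?_⟩
  obtain ⟨ι, _, Φ, D, hΦ, H⟩ := H ε hε
  refine ⟨ι, inferInstance, fun k x => conj (Φ k x), D, fun k => (hΦ k).star, fun l => ?_⟩
  obtain ⟨h, h1, h2⟩ := H l
  refine ⟨fun k x => conj (h k x), fun k => ⟨(h1 k).1.star, tw_aesm_conj (h1 k).2⟩, ?_⟩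
  have b1 := cpt_bd hΦ fun k => (h1 k).1
  have b3 := hB.iter hS l
  rw [← L2_sub b3.memLp b1.memLp, ← cpt_norm_conj (b3.sub b1)] at h2
  simp only [← map_mul, ← map_sum]
  rw [← L2_sub b3.star.memLp b1.star.memLp]
  simpa only [map_sub] using h2

theorem cpt_lim (hS : MeasurePreserving S μ μ) {g : X → ℂ} (hg : Bd μ C g)
    (H : ∀ ε : ℝ, 0 < ε → ∃ u, Cpt m μ S u ∧ ‖L2 μ g - L2 μ u‖ ≤ ε) : Cpt m μ S g := by
  refine ⟨⟨C, hg⟩, fun ε hε => ?_⟩
  obtain ⟨u, ⟨⟨B, hB⟩, H1⟩, H2⟩ := H _ (half_pos hε)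
  obtain ⟨ι, _, Φ, D, hΦ, H1⟩ := H1 _ (half_pos hε)
  refine ⟨ι, inferInstance, Φ, D, hΦ, fun l => ?_⟩
  obtain ⟨h, h1, h2⟩ := H1 l
  refine ⟨h, h1, ?_⟩
  rw [← L2_sub hg.memLp hB.memLp, ← norm_L2_comp (hS.iterate l) (hg.sub hB).memLp,
    L2_sub (hg.iter hS l).memLp (hB.iter hS l).memLp] at H2
  exact (norm_sub_le_norm_sub_add_norm_sub _ _ _).trans (by linarith)

theorem ae_cpt_alg (hS : MeasurePreserving S μ μ) : Alg μ (Cpt m μ S) :=
  ⟨fun _ h => h.1, cpt_const, fun _ _ => cpt_add hS, fun _ _ => cpt_mul hS, fun _ => cpt_star hS,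
    fun _ _ => cpt_lim hS⟩

theorem ae_cpt_meas (hS : MeasurePreserving S μ μ) (hSm : Measurable[m, m] S) {g : X → ℂ}
    (hg : Bd μ C g) (hgm : AEStronglyMeasurable[m] g μ) : Cpt m μ S g :=
  cpt_one (Φ := fun _ => 1) (D := max C ‖(1 : ℂ)‖) hg ((Bd.const 1).mono (le_max_right _ _))
    fun l => ⟨_, (hg.iter hS l).mono (le_max_left _ _), aesm_iter hS hSm hgm l,
      Eventually.of_forall fun _ => (mul_one _).symm⟩

theorem ae_cpt_comp (hS : MeasurePreserving S μ μ) {g : X → ℂ} (h : Cpt m μ S g) :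
    Cpt m μ S fun x => g (S x) := by
  obtain ⟨⟨B, hB⟩, H⟩ := h
  refine ⟨⟨B, hB.comp hS⟩, fun ε hε => ?_⟩
  obtain ⟨ι, _, Φ, D, hΦ, H⟩ := H ε hε
  refine ⟨ι, inferInstance, Φ, D, hΦ, fun l => ?_⟩
  simpa only [Function.iterate_succ_apply'] using H (l + 1)

theorem ae_cpt_of_comp {g : X → ℂ} (hg : Bd μ C g) (h : Cpt m μ S fun x => g (S x)) :
    Cpt m μ S g := by
  refine ⟨⟨C, hg⟩, fun ε hε => ?_⟩
  obtain ⟨ι, _, Φ, D, hΦ, H⟩ := h.2 ε hε
  have c1 : C ≤ max (max C 1) D := (le_max_left _ _).trans (le_max_left _ _)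
  have c2 : 1 ≤ max (max C 1) D := (le_max_right _ _).trans (le_max_left _ _)
  have b0 : Bd μ (max (max C 1) D) fun _ => 0 := (Bd.const 0).mono (by rw [norm_zero]; linarith)
  have b1 : Bd μ (max (max C 1) D) fun _ => 1 := (Bd.const 1).mono (by rwa [norm_one])
  refine ⟨Option ι, inferInstance, fun k => k.elim g Φ, max (max C 1) D, ?_, fun l => ?_⟩
  · rintro (_ | k)
    · exact hg.mono c1
    · exact (hΦ k).mono (le_max_right _ _)
  cases l with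
  | zero =>
    refine ⟨fun k => k.elim (fun _ => 1) fun _ _ => 0, ?_, ?_⟩
    · rintro (_ | k)
      · exact ⟨b1, aestronglyMeasurable_const⟩
      · exact ⟨b0, aestronglyMeasurable_const⟩
    · simpa [Fintype.sum_option] using hε.le
  | succ l =>
    obtain ⟨h, h1, h2⟩ := H l
    refine ⟨fun k => k.elim (fun _ => 0) h, ?_, ?_⟩
    · rintro (_ | k)
      · exact ⟨b0, aestronglyMeasurable_const⟩
      · exact ⟨(h1 k).1.mono (le_max_right _ _), (h1 k).2⟩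
    · simpa only [Fintype.sum_option, Option.elim_none, Option.elim_some, zero_mul, zero_add,
        Function.iterate_succ_apply'] using h2

theorem cpt_sum (hS : MeasurePreserving S μ μ) {ι : Type*} (I : Finset ι) {u : ι → X → ℂ}
    (h : ∀ i, Cpt m μ S (u i)) : Cpt m μ S fun x => ∑ i ∈ I, u i x := by
  classical
  induction I using Finset.induction_on with
  | empty => simpa only [sum_empty] using cpt_const 0
  | insert i I hi ih => simpa only [sum_insert hi] using cpt_add hS (h i) ih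

theorem ae_cpt_kro (hS : MeasurePreserving S μ μ) {g : X → ℂ} (h : Kro μ S g) :
    Cpt m μ S g := by
  obtain ⟨⟨B, hB⟩, H⟩ := h
  refine cpt_lim hS hB fun ε hε => ?_
  obtain ⟨n, u, D, hu, H⟩ := H ε hε
  refine ⟨_, cpt_sum hS univ fun i => ?_, H⟩
  obtain ⟨h1, θ, h2⟩ := hu i
  refine cpt_one (D := max D 1) h1 (h1.mono (le_max_left _ _)) fun l =>
    ⟨fun _ => fourier l θ, (Bd.const _).mono ?_, aestronglyMeasurable_const,
      multia_eigen_iter hS h2 l⟩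
  rw [fourier_apply, Circle.norm_coe]
  exact le_max_right _ _

end Pool.Agent.Lib.MP_1db5af_an
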