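import Pool.Agent.Lib.MP_1db5af_an.Ae.Erg
import Pool.Agent.Lib.MP_1db5af_an.Ae.ErgDec

set_option autoImplicit false

namespace Pool.Agent.Lib.MP_1db5af_an

open MeasureTheory Filter Topology ComplexConjugate Finset InnerProductSpace

variable {X : Type*} {m m1 : MeasurableSpace X} [m0 : MeasurableSpace X] {μ : Measure X}
  [IsProbabilityMeasure μ] {S : X → X} {a : ℕ → ℕ} {C : ℝ}

omit [IsProbabilityMeasure μ] in
theorem dec_scal {J : Finset ℕ} {g : ℕ → X → ℂ} (c : ℕ → ℂ) (H : Indep μ S a J g) :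
    Indep μ S a J fun j x => c j * g j x := by
  have h1 := H.const_mul (∏ j ∈ J, c j)
  unfold Indep
  simp only [integral_const_mul, prod_mul_distrib]
  refine h1.congr fun N => ?_
  unfold cor
  simp only [prod_mul_distrib, integral_const_mul, av_mul]

theorem dec_symm {s t : Set X} (hs0 : MeasurableSet s) (ht0 : MeasurableSet t) (c : ℂ) {ε : ℝ}
    (hε : 0 < ε) (ht1 : μ.real (symmDiff t s) ≤ ε ^ 2 / (‖c‖ ^ 2 + 1)) :
    ‖L2 μ (s.indicator fun _ => c) - L2 μ (t.indicator fun _ => c)‖ ≤ ε := by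
  have hη : 0 < ε ^ 2 / (‖c‖ ^ 2 + 1) := by positivity
  refine (pow_le_pow_iff_left₀ (norm_nonneg _) hε.le two_ne_zero).1 ?_
  have q1 := tw_bd_ind (μ := μ) hs0 c
  have q2 := tw_bd_ind (μ := μ) ht0 c
  rw [← L2_sub q1.memLp q2.memLp, norm_L2_sq (q1.sub q2).memLp]
  have e1 : (fun x => ‖s.indicator (fun _ => c) x - t.indicator (fun _ => c) x‖ ^ 2) =
      (symmDiff t s).indicator fun _ => ‖c‖ ^ 2 := by
    funext x
    by_cases h1 : x ∈ s <;> by_cases h2 : x ∈ t <;> simp [Set.indicator, Set.mem_symmDiff, h1, h2]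
  rw [e1, integral_indicator (ht0.symmDiff hs0), setIntegral_const, smul_eq_mul]
  calc _ ≤ ε ^ 2 / (‖c‖ ^ 2 + 1) * (‖c‖ ^ 2 + 1) :=
        mul_le_mul ht1 (by linarith) (sq_nonneg _) hη.le
    _ = ε ^ 2 := by field_simp

theorem ae_je_of_ind (hS : MeasurePreserving S μ μ) {𝒜 : Set (Set X)} (h𝒜 : IsSetAlgebra 𝒜)
    (hgen : m0 = MeasurableSpace.generateFrom 𝒜)
    (H : ∀ (J : Finset ℕ) (A : ℕ → Set X), (∀ j ∈ J, A j ∈ 𝒜) →
      Indep μ S a J fun j => (A j).indicator fun _ => 1) : JE μ S a m0 := by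
  classical
  have hmeas : ∀ t ∈ 𝒜, MeasurableSet t := fun t ht => by
    have h := MeasurableSpace.measurableSet_generateFrom ht
    rwa [← hgen] at h
  intro J g C hg
  refine tw_indep_appr hS (P := fun u => ∃ (s : Set X) (c : ℂ), MeasurableSet s ∧
    u = s.indicator fun _ => c) (fun g C hg => ?_) fun j hj => ⟨(hg j hj).1, fun ε hε => ?_⟩
  · refine tw_indep_appr hS (P := fun u => ∃ (s : Set X) (c : ℂ), s ∈ 𝒜 ∧
      u = s.indicator fun _ => c)
      (fun g C hg => ?_) fun j hj => ⟨(hg j hj).1, tw_appr_one fun ε hε => ?_⟩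
    · choose! A c h1 h2 using fun j hj => (hg j hj).2
      refine tw_indep_congr hS (fun j hj => Eventually.of_forall fun x => ?_)
        (dec_scal c (H J A h1))
      rw [h2 j hj]
      by_cases hx : x ∈ A j <;> simp [Set.indicator, hx]
    · obtain ⟨s, c, hs, e⟩ := (hg j hj).2
      have hη : 0 < ε ^ 2 / (‖c‖ ^ 2 + 1) := by positivity
      obtain ⟨t, ht', ht⟩ := exists_measure_symmDiff_lt_of_generateFrom_isSetRing (μ := μ)
        h𝒜.isSetRing ⟨{Set.univ}, Set.countable_singleton _,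
          Set.singleton_subset_iff.2 h𝒜.univ_mem, by simp⟩ hgen hs (ENNReal.ofReal_pos.2 hη)
      refine ⟨t.indicator fun _ => c, _, tw_bd_ind (hmeas t ht') c, ⟨t, c, ht', rfl⟩, ?_⟩
      rw [e]
      exact dec_symm hs (hmeas t ht') c hε (ENNReal.toReal_le_of_le_ofReal hη.le ht.le)
  · obtain ⟨k, ξ, ψ, h1, h2⟩ := tw_simple le_rfl (hg j hj).1 (hg j hj).2 hε
    refine ⟨k, fun i => (ξ ⁻¹' {i}).indicator fun _ => ψ i, ∑ i, ‖ψ i‖, fun i =>
      ⟨(tw_bd_ind (h1 (measurableSet_singleton i)) _).mono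
        (single_le_sum (f := fun i => ‖ψ i‖) (fun _ _ => norm_nonneg _) (mem_univ i)),
        _, _, h1 (measurableSet_singleton i), rfl⟩, h2.trans_eq' ?_⟩
    congr 3
    funext x
    simp [Set.indicator]

theorem dec_floor (x : ℝ) : Measurable fun c : ℝ => ⌊G c x⌋₊ := by
  unfold G
  exact (Real.measurable_exp.comp (measurable_const.pow (measurable_id.add_const 1))).nat_floor

open ProbabilityTheory in
theorem dec_meas (hS : Measurable S) (κ : Kernel X X) [IsMarkovKernel κ] (J : Finset ℕ)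
    {g : ℕ → X → ℂ} (hg : ∀ j, Measurable (g j)) :
    MeasurableSet {p : X × ℝ | 0 < p.2 → p.2 < 1 / 2 →
      Indep (κ p.1) S (fun n : ℕ => ⌊G p.2 n⌋₊) J g} := by
  have h0 : Measurable fun q : ℕ × X => S^[q.1] q.2 :=
    measurable_from_prod_countable_right fun k => hS.iterate k
  have h1 : ∀ n : ℕ, Measurable fun p : X × ℝ =>
      ∫ y, ∏ j ∈ J, g j (S^[⌊G p.2 ((n + j : ℕ) : ℝ)⌋₊] y) ∂κ p.1 := fun n => by
    have h2 : Measurable fun q : (X × ℝ) × X =>
        ∏ j ∈ J, g j (S^[⌊G q.1.2 ((n + j : ℕ) : ℝ)⌋₊] q.2) :=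
      Finset.measurable_prod _ fun j _ => (hg j).comp (h0.comp
        (((dec_floor _).comp measurable_fst.snd).prodMk measurable_snd))
    exact (h2.stronglyMeasurable.integral_kernel_prod_right'
      (κ := Kernel.prodMkRight ℝ κ)).measurable
  have h3 : Measurable fun p : X × ℝ => ∏ j ∈ J, ∫ y, g j y ∂κ p.1 :=
    Finset.measurable_prod _ fun j _ =>
      ((hg j).stronglyMeasurable.integral_kernel (κ := κ)).measurable.comp measurable_fst
  have h4 : MeasurableSet {p : X × ℝ | Indep (κ p.1) S (fun n : ℕ => ⌊G p.2 n⌋₊) J g} :=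
    measurableSet_tendsto_fun (f := fun N (p : X × ℝ) =>
      cor (κ p.1) S (fun n : ℕ => ⌊G p.2 n⌋₊) J g N) (fun N =>
        (Finset.measurable_fun_sum _ fun n _ => h1 n).const_smul ((N : ℝ)⁻¹)) h3
  exact (measurableSet_lt measurable_const measurable_snd).imp
    ((measurableSet_lt measurable_snd measurable_const).imp h4)

theorem ae_dec [StandardBorelSpace X] (hS : MeasurePreserving S μ μ) :
    ∀ᵐ c : ℝ, 0 < c → c < 1 / 2 → ∀ᵐ x ∂μ,
      JE (ProbabilityTheory.condExpKernel μ (MeasurableSpace.invariants S) x) S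
        (fun n : ℕ => ⌊G c n⌋₊) m0 := by
  classical
  set 𝒜 := generateSetAlgebra (MeasurableSpace.countableGeneratingSet X) with h𝒜
  have hc : 𝒜.Countable :=
    countable_generateSetAlgebra MeasurableSpace.countable_countableGeneratingSet
  have hgen : m0 = MeasurableSpace.generateFrom 𝒜 := by
    rw [h𝒜, generateFrom_generateSetAlgebra_eq,
      MeasurableSpace.generateFrom_countableGeneratingSet]
  have halg : IsSetAlgebra 𝒜 := isSetAlgebra_generateSetAlgebra
  have hmeas : ∀ t ∈ 𝒜, MeasurableSet t := fun t ht => by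
    have h := MeasurableSpace.measurableSet_generateFrom ht
    rwa [← hgen] at h
  obtain ⟨e, he⟩ := hc.exists_eq_range ⟨_, halg.empty_mem⟩
  have hem : ∀ k, MeasurableSet (e k) := fun k => hmeas _ (he ▸ Set.mem_range_self k)
  have hm := MeasurableSpace.invariants_le S
  let κ : ProbabilityTheory.Kernel X X :=
    (ProbabilityTheory.condExpKernel μ (MeasurableSpace.invariants S)).comap id
      (measurable_id'' hm)
  have hκ : ∀ x, κ x = ProbabilityTheory.condExpKernel μ (MeasurableSpace.invariants S) x :=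
    fun _ => rfl
  have hM : ProbabilityTheory.IsMarkovKernel κ := ⟨fun x => by rw [hκ]; infer_instance⟩
  have key : ∀ p : Σ J : Finset ℕ, J → ℕ, ∀ᵐ c : ℝ, ∀ᵐ x ∂μ, 0 < c → c < 1 / 2 →
      Indep (κ x) S (fun n : ℕ => ⌊G c n⌋₊) p.1
        fun j => (e (if hj : j ∈ p.1 then p.2 ⟨j, hj⟩ else 0)).indicator fun _ => 1 := by
    intro p
    refine (Measure.ae_ae_comm (dec_meas hS.measurable κ p.1
      fun j => measurable_const.indicator (hem _))).1 ?_
    filter_upwards [ae_ergdec hS] with x hx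
    filter_upwards [ae_erg hx] with c h1 h2 h3
    exact h1 h2 h3 p.1 _ _ fun j _ => ⟨tw_bd_ind (hem _) 1, (tw_bd_ind (hem _) 1).1⟩
  filter_upwards [ae_all_iff.2 key] with c h1 h2 h3
  filter_upwards [ae_all_iff.2 h1, ae_ergdec hS] with x h4 h5
  refine ae_je_of_ind h5.toMeasurePreserving halg hgen fun J A hA => ?_
  have h6 : ∀ j : J, ∃ k, e k = A j := fun j => by
    have h7 := hA j j.2
    rwa [he] at h7
  choose σ hσ using h6
  refine tw_indep_congr h5.toMeasurePreserving (fun j hj => Eventually.of_forall fun y => ?_)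
    (h4 ⟨J, σ⟩ h2 h3)
  simp only [dif_pos hj, hσ]

end Pool.Agent.Lib.MP_1db5af_an
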