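import Pool.Agent.Lib.MP_1db5af_an.TwMain
import Pool.Agent.Lib.MP_1db5af_an.Weyl

set_option autoImplicit false

namespace Pool.Agent.Lib.MP_1db5af_an

open MeasureTheory Filter Topology ComplexConjugate Finset InnerProductSpace

/-- A class of bounded functions that is a star algebra closed under bounded `L²` limits. -/
structure Alg {X : Type*} [MeasurableSpace X] (μ : Measure X) (A : (X → ℂ) → Prop) : Prop where
  bd : ∀ g, A g → ∃ C, Bd μ C g
  const : ∀ c : ℂ, A fun _ => c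
  add : ∀ g g', A g → A g' → A fun x => g x + g' x
  mul : ∀ g g', A g → A g' → A fun x => g x * g' x
  star : ∀ g, A g → A fun x => conj (g x)
  lim : ∀ (g : X → ℂ) (C : ℝ), Bd μ C g →
    (∀ ε : ℝ, 0 < ε → ∃ u, A u ∧ ‖L2 μ g - L2 μ u‖ ≤ ε) → A g

/-- `g` is compact over `m`: its orbit stays close to a finitely generated module. -/
def Cpt {X : Type*} (m : MeasurableSpace X) {m0 : MeasurableSpace X} (μ : Measure X) (S : X → X)
    (g : X → ℂ) : Prop :=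
  (∃ C, Bd μ C g) ∧ ∀ ε : ℝ, 0 < ε → ∃ (ι : Type) (_ : Fintype ι) (Φ : ι → X → ℂ) (D : ℝ),
    (∀ k, Bd μ D (Φ k)) ∧ ∀ l : ℕ, ∃ h : ι → X → ℂ,
      (∀ k, Bd μ D (h k) ∧ AEStronglyMeasurable[m] (h k) μ) ∧
      ‖L2 μ (fun x => g (S^[l] x)) - L2 μ (fun x => ∑ k, h k x * Φ k x)‖ ≤ ε

/-- Eigenfunctions. -/
def Eig {X : Type*} [MeasurableSpace X] (μ : Measure X) (S : X → X) (u : X → ℂ) : Prop :=
  ∃ θ : UnitAddCircle, (fun x => u (S x)) =ᵐ[μ] fun x => fourier 1 θ * u x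

/-- Bounded limits of sums of bounded eigenfunctions. -/
def Kro {X : Type*} [MeasurableSpace X] (μ : Measure X) (S : X → X) (g : X → ℂ) : Prop :=
  (∃ C, Bd μ C g) ∧ Appr μ (Eig μ S) g

/-- The vectors `v l` are almost orthogonal on average. -/
def Wk {H : Type*} [NormedAddCommGroup H] [InnerProductSpace ℂ H] (v : ℕ → H) : Prop :=
  Tendsto (fun Λ : ℕ => av (fun l => av (fun l' => ‖⟪v l, v l'⟫_ℂ‖ ^ 2) Λ) Λ) atTop (𝓝 0)

/-- The averages over `l` of the correlations of the families `v l` are small. -/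
def Small {X : Type*} [MeasurableSpace X] (μ : Measure X) (S : X → X) (a : ℕ → ℕ) (J : Finset ℕ)
    (v : ℕ → ℕ → X → ℂ) : Prop :=
  ∀ ε : ℝ, 0 < ε → ∀ᶠ Λ : ℕ in atTop, ∀ᶠ N : ℕ in atTop,
    ‖av (fun l => cor μ S a J (v l) N) Λ‖ ≤ ε

/-- Weak mixing of `m1` relative to `m`. -/
def RWM {X : Type*} (m m1 : MeasurableSpace X) {m0 : MeasurableSpace X} (μ : Measure X)
    (S : X → X) : Prop :=
  ∀ (f : X → ℂ) (C : ℝ), Bd μ C f → AEStronglyMeasurable[m1] f μ → μ[f | m] =ᵐ[μ] 0 →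
    Tendsto (av fun l => ‖L2 μ (μ[fun x => f (S^[l] x) * conj (f x) | m])‖) atTop (𝓝 0)

/-- `Ψ` is small on average along the lines of direction `d`, uniformly in the base point. -/
def Lin (d : ℕ → ℕ) (Ψ : (ℕ → ℕ) → ℝ) : Prop :=
  ∀ ε : ℝ, 0 < ε → ∃ L0 : ℕ, ∀ L : ℕ, L0 ≤ L → ∀ b : ℕ → ℕ,
    av (fun t => Ψ fun j => b j + d j * t) L ≤ ε

/-- Bounded functions of `K` times that are invariant under a common shift. -/
structure Pat (K : ℕ) (Ψ : (ℕ → ℕ) → ℝ) : Prop where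
  pos : 0 < K
  nonneg : ∀ p, 0 ≤ Ψ p
  le_one : ∀ p, Ψ p ≤ 1
  dep : ∀ p p', (∀ j < K, p j = p' j) → Ψ p = Ψ p'
  diag : ∀ (p : ℕ → ℕ) (s : ℕ), Ψ (fun j => p j + s) = Ψ p

/-- The intersection of the preimages of the σ-algebra under the iterates of `S`. -/
@[reducible] def tailAll {X : Type*} [m0 : MeasurableSpace X] (S : X → X) : MeasurableSpace X :=
  ⨅ n : ℕ, m0.comap S^[n]

/-- The mixed second derivative of `G`. -/
noncomputable def VV (c x : ℝ) : ℝ :=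
  G c x / x * Real.log x ^ c *
    ((c + 1) * (Real.log x ^ (c + 1) + 1) * Real.log (Real.log x) + 1)

end Pool.Agent.Lib.MP_1db5af_an
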