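import Pool.Agent.Lib.MP_1db5af_an.Ae.Defs

set_option autoImplicit false

namespace Pool.Agent.Lib.MP_1db5af_an

open MeasureTheory Filter Topology ComplexConjugate Finset InnerProductSpace

theorem vdca_swap {E : Type*} [AddCommGroup E] [Module ℝ E] (u : ℕ → ℕ → E) (M N : ℕ) :
    av (fun a => av (fun b => u a b) N) M = av (fun b => av (fun a => u a b) M) N := by
  simp only [av, ← smul_sum]
  rw [sum_comm, smul_comm]

theorem vdca_sq {H : Type*} [NormedAddCommGroup H] [InnerProductSpace ℂ H] (y : ℕ → H) (P : ℕ) :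
    ‖av y P‖ ^ 2 ≤ av (fun h => av (fun h' => ‖⟪y h, y h'⟫_ℂ‖) P) P := by
  have h1 : ‖∑ h ∈ range P, y h‖ ^ 2 ≤ ∑ h ∈ range P, ∑ h' ∈ range P, ‖⟪y h, y h'⟫_ℂ‖ := by
    rw [← inner_self_eq_norm_sq (𝕜 := ℂ), inner_self_re_eq_norm, sum_inner]
    refine norm_sum_le_of_le _ fun h _ => ?_
    rw [inner_sum]
    exact norm_sum_le _ _
  simp only [av, norm_smul, norm_inv, Real.norm_natCast, smul_eq_mul, ← mul_sum, mul_pow]
  rw [← mul_assoc, ← sq]
  gcongr

theorem ae_vdc {H : Type*} [NormedAddCommGroup H] [InnerProductSpace ℂ H] (x : ℕ → H) {B : ℝ}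
    (hx : ∀ t, ‖x t‖ ≤ B) {P L : ℕ} (hP : 0 < P) (hL : 0 < L) :
    ‖av x L‖ ^ 2 ≤ 2 * (2 * P * B / L) ^ 2 +
      2 * av (fun h => av (fun h' => av (fun t => ‖⟪x (t + h), x (t + h')⟫_ℂ‖) L) P) P := by
  have hB : 0 ≤ B := (norm_nonneg _).trans (hx 0)
  have h1 : ‖av x L - av (fun h => av (fun t => x (t + h)) L) P‖ ≤ 2 * P * B / L := by
    rw [← av_const (av x L) hP, ← av_sub]
    refine (norm_av_le_av _ _).trans (av_le (by positivity) fun h hh => ?_)
    simp only [av, ← smul_sub, norm_smul, norm_inv, Real.norm_natCast]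
    rw [norm_sub_rev, div_eq_inv_mul]
    have : (h : ℝ) ≤ P := by exact_mod_cast hh.le
    refine mul_le_mul_of_nonneg_left ((norm_sum_shift_le hx h L).trans ?_) (by positivity)
    gcongr
  have h2 : ‖av (fun h => av (fun t => x (t + h)) L) P‖ ^ 2 ≤
      av (fun h => av (fun h' => av (fun t => ‖⟪x (t + h), x (t + h')⟫_ℂ‖) L) P) P := by
    rw [vdca_swap]
    refine (pow_le_pow_left₀ (norm_nonneg _) (norm_av_le_av _ _) 2).trans
      ((sq_av_le _ _).trans ((av_mono fun t _ => vdca_sq _ P).trans (le_of_eq ?_)))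
    rw [vdca_swap]
    exact congrArg (av · P) (funext fun h => vdca_swap _ _ _)
  have h3 := norm_le_norm_sub_add (av x L) (av (fun h => av (fun t => x (t + h)) L) P)
  have h4 := pow_le_pow_left₀ (norm_nonneg _) (h3.trans (add_le_add_left h1 _)) 2
  nlinarith [sq_nonneg (2 * P * B / L - ‖av (fun h => av (fun t => x (t + h)) L) P‖)]

theorem vdca_inj {δ : ℕ → ℝ} (h0 : ∀ l, 0 ≤ δ l) (s : Finset ℕ) (φ : ℕ → ℕ) (N : ℕ)
    (h1 : Set.InjOn φ s) (h2 : ∀ k ∈ s, φ k < N) : ∑ k ∈ s, δ (φ k) ≤ ∑ l ∈ range N, δ l := by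
  rw [← sum_image h1]
  exact sum_le_sum_of_subset_of_nonneg (image_subset_iff.2 fun k hk => mem_range.2 (h2 k hk))
    fun l _ _ => h0 l

theorem ae_dist {δ : ℕ → ℝ} (h0 : ∀ l, 0 ≤ δ l) (h : Tendsto (av δ) atTop (𝓝 0)) {d : ℕ}
    (hd : 0 < d) :
    Tendsto (fun P : ℕ => av (fun k => av (fun k' => δ (Nat.dist (d * k) (d * k'))) P) P) atTop
      (𝓝 0) := by
  have h1 : Tendsto (fun P : ℕ => 2 * d * av δ (d * P)) atTop (𝓝 0) := by
    simpa using (h.comp (tendsto_id.const_mul_atTop' hd)).const_mul (2 * d : ℝ)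
  refine squeeze_zero (fun P => av_nonneg (fun k => av_nonneg (fun k' => h0 _) P) P)
    (fun P => av_le (mul_nonneg (by positivity) (av_nonneg h0 _)) fun k hk => ?_) h1
  have h2 : ∑ k' ∈ range P, δ (Nat.dist (d * k) (d * k')) ≤ 2 * ∑ l ∈ range (d * P), δ l := by
    rw [← sum_filter_add_sum_filter_not (range P) (· ≤ k), two_mul]
    refine add_le_add (vdca_inj h0 _ _ _ (fun a ha b hb e => ?_) fun a ha => ?_)
      (vdca_inj h0 _ _ _ (fun a ha b hb e => ?_) fun a ha => ?_)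
    · have e1 := Nat.mul_le_mul_left d (mem_filter.1 ha).2
      have e2 := Nat.mul_le_mul_left d (mem_filter.1 hb).2
      simp only [Nat.dist] at e
      exact Nat.eq_of_mul_eq_mul_left hd (by omega)
    · have e1 := Nat.mul_le_mul_left d (mem_filter.1 ha).2
      have e2 := (Nat.mul_lt_mul_left hd).2 hk
      simp only [Nat.dist]
      omega
    · have e1 := Nat.mul_le_mul_left d (not_le.1 (mem_filter.1 ha).2).le
      have e2 := Nat.mul_le_mul_left d (not_le.1 (mem_filter.1 hb).2).le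
      simp only [Nat.dist] at e
      exact Nat.eq_of_mul_eq_mul_left hd (by omega)
    · have e1 := Nat.mul_le_mul_left d (not_le.1 (mem_filter.1 ha).2).le
      have e2 := (Nat.mul_lt_mul_left hd).2 (mem_range.1 (mem_filter.1 ha).1)
      simp only [Nat.dist]
      omega
  have h3 : (0 : ℝ) < d := by exact_mod_cast hd
  simp only [av, smul_eq_mul]
  refine (mul_le_mul_of_nonneg_left h2 (by positivity)).trans (le_of_eq ?_)
  push_cast
  field_simp

theorem ae_dyadic {f : ℕ → ℝ} (h0 : ∀ n, 0 ≤ f n) (h1 : ∀ n, f n ≤ 1)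
    (h : ∀ ε : ℝ, 0 < ε → ∀ᶠ k : ℕ in atTop, ∑ n ∈ Ico (2 ^ k) (2 ^ (k + 1)), f n ≤ ε * 2 ^ k) :
    Tendsto (av f) atTop (𝓝 0) := by
  rw [Metric.tendsto_nhds]
  intro ε hε
  obtain ⟨k0, hk⟩ := eventually_atTop.1 (h (ε / 4) (by positivity))
  have h2 : ∀ k, k0 ≤ k → ∑ n ∈ range (2 ^ k), f n ≤ 2 ^ k0 + ε / 4 * 2 ^ k := by
    intro k hk0
    induction k, hk0 using Nat.le_induction with
    | base =>
      have := sum_le_card_nsmul (range (2 ^ k0)) f 1 fun n _ => h1 n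
      rw [card_range, nsmul_eq_mul, mul_one, Nat.cast_pow, Nat.cast_ofNat] at this
      exact this.trans (le_add_of_nonneg_right (by positivity))
    | succ k hk0 ih =>
      rw [← sum_range_add_sum_Ico f (Nat.pow_le_pow_right two_pos k.le_succ), pow_succ (2 : ℝ)]
      linarith [hk k hk0]
  filter_upwards [eventually_ge_atTop (2 ^ k0),
    tendsto_natCast_atTop_atTop.eventually_gt_atTop (2 ^ k0 / (ε / 2) : ℝ)] with N e1 e2
  have hN : 0 < N := (pow_pos two_pos _).trans_le e1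
  have hN' : (0 : ℝ) < N := by exact_mod_cast hN
  have e3 := Nat.lt_pow_succ_log_self one_lt_two N
  have e4 : (2 : ℝ) ^ (Nat.log 2 N + 1) ≤ 2 * N := by
    rw [pow_succ']
    exact_mod_cast Nat.mul_le_mul_left 2 (Nat.pow_log_le_self 2 hN.ne')
  have e5 := h2 (Nat.log 2 N + 1) ((Nat.pow_le_pow_iff_right one_lt_two).1 (e1.trans e3.le))
  have e6 : ∑ n ∈ range N, f n ≤ ∑ n ∈ range (2 ^ (Nat.log 2 N + 1)), f n :=
    sum_le_sum_of_subset_of_nonneg (range_mono e3.le) fun n _ _ => h0 n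
  rw [Real.dist_0_eq_abs, abs_of_nonneg (av_nonneg h0 N), av, smul_eq_mul, inv_mul_lt_iff₀ hN']
  rw [div_lt_iff₀ (by positivity)] at e2
  nlinarith [mul_le_mul_of_nonneg_left e4 hε.le]

end Pool.Agent.Lib.MP_1db5af_an
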