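import Pool.Agent.Lib.MP_1db5af_an.Ae.Blk
import Pool.Agent.Lib.MP_1db5af_an.Ae.VdcA

set_option autoImplicit false

namespace Pool.Agent.Lib.MP_1db5af_an

open MeasureTheory Filter Topology ComplexConjugate Finset InnerProductSpace

theorem metric_preimage {a : ℝ} (ha : 0 < a) (y : ℝ) (A : Set ℝ) :
    volume {c : ℝ | a * c + y ∈ A} = ENNReal.ofReal a⁻¹ * volume A := by
  have e : {c : ℝ | a * c + y ∈ A} = (fun c => a * c) ⁻¹' ((fun u => u + y) ⁻¹' A) := rfl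
  rw [e, Real.volume_preimage_mul_left ha.ne', measure_preimage_add_right,
    abs_of_pos (inv_pos.2 ha)]

theorem metric_cover {M : ℕ} (hM : 0 < M) {c0 : ℝ} (hc0 : 0 < c0) (hMc : 1 / (M : ℝ) ≤ c0 / 2)
    (p : ℝ → Prop) {B : ℝ}
    (h : ∀ α : ℝ, c0 / 2 ≤ α → α + 1 / (M : ℝ) ≤ 1 →
      volume {x : ℝ | 0 ≤ x ∧ x < 1 ∧ p (α + x / M)} ≤ ENNReal.ofReal B) :
    volume {c : ℝ | c0 ≤ c ∧ c < 1 ∧ p c} ≤ ENNReal.ofReal B := by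
  classical
  have hMR : (0 : ℝ) < M := by exact_mod_cast hM
  have hsub : {c : ℝ | c0 ≤ c ∧ c < 1 ∧ p c} ⊆
      ⋃ y ∈ (range M).filter (fun y : ℕ => c0 / 2 ≤ (y : ℝ) / M),
        {c : ℝ | (M : ℝ) * c + -(y : ℝ) ∈ {x : ℝ | 0 ≤ x ∧ x < 1 ∧ p ((y : ℝ) / M + x / M)}} := by
    rintro c ⟨h1, h2, h3⟩
    have h0 : 0 ≤ (M : ℝ) * c := mul_nonneg hMR.le (hc0.le.trans h1)
    have f1 : ((⌊(M : ℝ) * c⌋₊ : ℕ) : ℝ) ≤ M * c := Nat.floor_le h0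
    have f2 : (M : ℝ) * c < (⌊(M : ℝ) * c⌋₊ : ℕ) + 1 := Nat.lt_floor_add_one _
    simp only [Set.mem_iUnion]
    refine ⟨⌊(M : ℝ) * c⌋₊, ?_, ?_, ?_, ?_⟩
    · rw [mem_filter, mem_range]
      constructor
      · rw [Nat.floor_lt h0]
        exact mul_lt_of_lt_one_right hMR h2
      · rw [le_div_iff₀ hMR]
        rw [div_le_iff₀ hMR] at hMc
        have := mul_le_mul_of_nonneg_left h1 hMR.le
        linarith
    · linarith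
    · linarith
    · have e : ((⌊(M : ℝ) * c⌋₊ : ℕ) : ℝ) / M + ((M : ℝ) * c + -((⌊(M : ℝ) * c⌋₊ : ℕ) : ℝ)) / M
          = c := by
        field_simp
        ring
      rw [e]
      exact h3
  refine (measure_mono hsub).trans ((measure_biUnion_finset_le _ _).trans ?_)
  have hb : ∀ y ∈ (range M).filter (fun y : ℕ => c0 / 2 ≤ (y : ℝ) / M),
      volume {c : ℝ | (M : ℝ) * c + -(y : ℝ) ∈
        {x : ℝ | 0 ≤ x ∧ x < 1 ∧ p ((y : ℝ) / M + x / M)}} ≤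
        ENNReal.ofReal (M : ℝ)⁻¹ * ENNReal.ofReal B := by
    intro y hy
    rw [mem_filter, mem_range] at hy
    rw [metric_preimage hMR]
    refine mul_le_mul_right (h _ hy.2 ?_) _
    rw [← add_div, div_le_one hMR]
    exact_mod_cast hy.1
  refine (sum_le_card_nsmul _ _ _ hb).trans ?_
  have hc : ((range M).filter (fun y : ℕ => c0 / 2 ≤ (y : ℝ) / M)).card ≤ M :=
    (card_filter_le _ _).trans (card_range M).le
  refine (nsmul_le_nsmul_left zero_le hc).trans ?_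
  rw [nsmul_eq_mul, ← mul_assoc, ← ENNReal.ofReal_natCast, ← ENNReal.ofReal_mul hMR.le,
    mul_inv_cancel₀ hMR.ne', ENNReal.ofReal_one, one_mul]

theorem metric_bc {E : ℕ → Set ℝ}
    (h : ∀ᶠ k : ℕ in atTop, volume (E k) ≤ ENNReal.ofReal (1 / (k : ℝ) ^ 2)) :
    ∀ᵐ c : ℝ, ∀ᶠ k : ℕ in atTop, c ∉ E k := by
  obtain ⟨k0, hk0⟩ := eventually_atTop.1 h
  have hs : ∀ k : ℕ, volume {c : ℝ | k0 ≤ k ∧ c ∈ E k} ≤ ENNReal.ofReal (1 / (k : ℝ) ^ 2) := by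
    intro k
    by_cases hk : k0 ≤ k
    · exact (measure_mono fun c hc => hc.2).trans (hk0 k hk)
    · have e : {c : ℝ | k0 ≤ k ∧ c ∈ E k} = ∅ :=
        Set.eq_empty_of_forall_notMem fun c hc => hk hc.1
      rw [e, measure_empty]
      exact zero_le
  have hsum : Summable fun k : ℕ => 1 / (k : ℝ) ^ 2 := Real.summable_one_div_nat_pow.2 one_lt_two
  have hne : ∑' k : ℕ, volume {c : ℝ | k0 ≤ k ∧ c ∈ E k} ≠ ⊤ :=
    ne_top_of_le_ne_top hsum.tsum_ofReal_ne_top (ENNReal.tsum_le_tsum hs)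
  filter_upwards [ae_eventually_notMem hne] with c hc
  filter_upwards [hc, eventually_ge_atTop k0] with k h1 h2 h3
  exact h1 ⟨h2, h3⟩

theorem metric_step {K : ℕ} {Ψ : (ℕ → ℕ) → ℝ} (hΨ : Pat K Ψ) (hL : Lin id Ψ) {c0 ε : ℝ}
    (hc0 : 0 < c0) (hε : 0 < ε) :
    ∀ᵐ c : ℝ, ∀ᶠ k : ℕ in atTop, c ∉ {c : ℝ | c0 ≤ c ∧ c < 1 ∧
      ε * 2 ^ k < ∑ n ∈ Ico (2 ^ k) (2 ^ (k + 1)), Ψ fun j => ⌊G c ((n + j : ℕ) : ℝ)⌋₊} := by
  apply metric_bc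
  have hsm : ∀ᶠ k : ℕ in atTop, (1 / 2 : ℝ) ^ k ≤ c0 / 2 :=
    (tendsto_pow_atTop_nhds_zero_of_lt_one (by norm_num) (by norm_num)).eventually
      (eventually_le_nhds (half_pos hc0))
  filter_upwards [ae_blk hΨ hL (half_pos hc0) hε, hsm] with k h1 h2
  have e : ((2 ^ k : ℕ) : ℝ) = 2 ^ k := by push_cast; rfl
  refine metric_cover (M := 2 ^ k) (by positivity) hc0 ?_
    (fun c => ε * 2 ^ k < ∑ n ∈ Ico (2 ^ k) (2 ^ (k + 1)),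
      Ψ fun j => ⌊G c ((n + j : ℕ) : ℝ)⌋₊) ?_
  · rw [e, ← one_div_pow]
    exact h2
  · rw [e]
    exact h1

theorem ae_metric {K : ℕ} {Ψ : (ℕ → ℕ) → ℝ} (hΨ : Pat K Ψ) (hL : Lin id Ψ) :
    ∀ᵐ c : ℝ, 0 < c → c < 1 →
      Tendsto (av fun n => Ψ fun j => ⌊G c ((n + j : ℕ) : ℝ)⌋₊) atTop (𝓝 0) := by
  have h : ∀ᵐ c : ℝ, ∀ q q' : ℕ, ∀ᶠ k : ℕ in atTop, c ∉ {c : ℝ | 1 / ((q : ℝ) + 1) ≤ c ∧ c < 1 ∧
      1 / ((q' : ℝ) + 1) * 2 ^ k <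
        ∑ n ∈ Ico (2 ^ k) (2 ^ (k + 1)), Ψ fun j => ⌊G c ((n + j : ℕ) : ℝ)⌋₊} :=
    ae_all_iff.2 fun q => ae_all_iff.2 fun q' =>
      metric_step hΨ hL Nat.one_div_pos_of_nat Nat.one_div_pos_of_nat
  filter_upwards [h] with c hc h0 h1
  refine ae_dyadic (fun n => hΨ.nonneg _) (fun n => hΨ.le_one _) fun ε hε => ?_
  obtain ⟨q, hq⟩ := exists_nat_one_div_lt h0
  obtain ⟨q', hq'⟩ := exists_nat_one_div_lt hε
  filter_upwards [hc q q'] with k hk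
  have h2 : ¬ 1 / ((q' : ℝ) + 1) * 2 ^ k <
      ∑ n ∈ Ico (2 ^ k) (2 ^ (k + 1)), Ψ fun j => ⌊G c ((n + j : ℕ) : ℝ)⌋₊ :=
    fun h3 => hk ⟨hq.le, h1, h3⟩
  exact (not_lt.1 h2).trans (mul_le_mul_of_nonneg_right hq'.le (by positivity))

end Pool.Agent.Lib.MP_1db5af_an
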