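import Pool.Agent.Lib.MP_1db5af_an.Ae.VdcB

set_option autoImplicit false

namespace Pool.Agent.Lib.MP_1db5af_an

open MeasureTheory Filter Topology ComplexConjugate Finset InnerProductSpace

variable {X : Type*} {m m1 : MeasurableSpace X} [m0 : MeasurableSpace X] {μ : Measure X}
  [IsProbabilityMeasure μ] {S : X → X} {a : ℕ → ℕ} {C : ℝ}

theorem vdcc_add {d : ℕ → ℕ} {Ψ Ψ₁ Ψ₂ : (ℕ → ℕ) → ℝ} (h1 : Lin d Ψ₁) (h2 : Lin d Ψ₂)
    (h : ∀ p, Ψ p ≤ Ψ₁ p + Ψ₂ p) : Lin d Ψ := by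
  intro ε hε
  obtain ⟨L1, hL1⟩ := h1 (ε / 2) (by positivity)
  obtain ⟨L2, hL2⟩ := h2 (ε / 2) (by positivity)
  refine ⟨max L1 L2, fun L hL b => ?_⟩
  have e1 := hL1 L ((le_max_left _ _).trans hL) b
  have e2 := hL2 L ((le_max_right _ _).trans hL) b
  have e3 : av (fun t => Ψ fun j => b j + d j * t) L ≤
      av (fun t => (Ψ₁ fun j => b j + d j * t) + Ψ₂ fun j => b j + d j * t) L :=
    av_mono fun t _ => h _
  rw [av_add] at e3
  linarith

theorem vdcc_mono {d : ℕ → ℕ} {Ψ Ψ₁ : (ℕ → ℕ) → ℝ} (h1 : Lin d Ψ₁) (h : ∀ p, Ψ p ≤ Ψ₁ p) :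
    Lin d Ψ := by
  intro ε hε
  obtain ⟨L1, hL1⟩ := h1 ε hε
  exact ⟨L1, fun L hL b => (av_mono fun t _ => h _).trans (hL1 L hL b)⟩

theorem vdcc_sub (hS : MeasurePreserving S μ μ) {J : Finset ℕ} {g : ℕ → X → ℂ}
    (hg : ∀ j ∈ J, Bd μ C (g j)) {i : ℕ} (hi : i ∈ J) {φ ψ : X → ℂ} {D : ℝ} (hφ : Bd μ D φ)
    (hψ : Bd μ D ψ) (p : ℕ → ℕ) :
    ∫ x, ∏ j ∈ J, Function.update g i φ j (S^[p j] x) ∂μ -
        ∫ x, ∏ j ∈ J, Function.update g i ψ j (S^[p j] x) ∂μ =
      ∫ x, ∏ j ∈ J, Function.update g i (fun y => φ y - ψ y) j (S^[p j] x) ∂μ := by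
  simp only [multia_prod_update g hi _ fun j => S^[p j] _]
  have hb := multia_bd_erase hS hg hi p
  rw [← integral_sub (hb.mul (hφ.iter hS _)).integrable (hb.mul (hψ.iter hS _)).integrable]
  simp only [mul_sub]

theorem ae_lin (hS : MeasurePreserving S μ μ) (hm1 : m1 ≤ m0) (hS1 : Measurable[m1, m1] S)
    (hm : m ≤ m1) (hc : m.comap S = m) (hR : RWM m m1 μ S) {J : Finset ℕ} {g : ℕ → X → ℂ}
    (hg : ∀ j ∈ J, Bd μ C (g j) ∧ AEStronglyMeasurable[m1] (g j) μ) :
    Lin id fun p => ‖∫ x, ∏ j ∈ J, g j (S^[p j] x) ∂μ -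
      ∫ x, ∏ j ∈ J, (μ[g j | m]) (S^[p j] x) ∂μ‖ := by
  classical
  have hm0 : m ≤ m0 := hm.trans hm1
  have hb : ∀ (R : Finset ℕ), ∀ j ∈ J, Bd μ C (if j ∈ R then μ[g j | m] else g j) ∧
      AEStronglyMeasurable[m1] (if j ∈ R then μ[g j | m] else g j) μ := by
    intro R j hj
    split_ifs
    · exact ⟨(hg j hj).1.condExp, (stronglyMeasurable_condExp.mono hm).aestronglyMeasurable⟩
    · exact hg j hj
  suffices H : ∀ R : Finset ℕ, R ⊆ J → Lin id fun p => ‖∫ x, ∏ j ∈ J, g j (S^[p j] x) ∂μ -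
      ∫ x, ∏ j ∈ J, (if j ∈ R then μ[g j | m] else g j) (S^[p j] x) ∂μ‖ by
    refine vdcc_mono (H J Subset.rfl) fun p => le_of_eq ?_
    congr 3
    funext x
    exact prod_congr rfl fun j hj => by rw [if_pos hj]
  intro R
  induction R using Finset.induction_on with
  | empty =>
    intro _ ε hε
    refine ⟨0, fun L _ b => av_le hε.le fun t _ => ?_⟩
    simpa using hε.le
  | insert i R hiR ih =>
    intro hsub
    have hi : i ∈ J := hsub (mem_insert_self _ _)
    have hC : 0 ≤ C := (hg i hi).1.nonneg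
    set h : ℕ → X → ℂ := fun j => if j ∈ R then μ[g j | m] else g j with hh
    have hE : Bd μ C (μ[g i | m]) := (hg i hi).1.condExp
    have hstep := ae_multi hS hm1 hS1 hm hc hR J id
      (Function.update h i fun y => g i y - (μ[g i | m]) y) (C + C) i (Set.injOn_id _)
      (fun j hj => by
        by_cases hji : j = i
        · subst hji
          rw [Function.update_self]
          exact ⟨(hg j hj).1.sub hE, (hg j hj).2.sub
            (stronglyMeasurable_condExp.mono hm).aestronglyMeasurable⟩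
        · rw [Function.update_of_ne hji]
          exact ⟨(hb R j hj).1.mono (by linarith), (hb R j hj).2⟩) hi
      (by
        rw [Function.update_self]
        have e1 := condExp_sub (hg i hi).1.integrable hE.integrable m
        have e2 : μ[μ[g i | m] | m] =ᵐ[μ] μ[g i | m] := condExp_condExp_of_le le_rfl hm0
        filter_upwards [e1, e2] with x h1 h2
        refine Eq.trans h1 ?_
        rw [Pi.sub_apply, h2, sub_self, Pi.zero_apply])
    refine vdcc_add (ih ((subset_insert _ _).trans hsub)) hstep fun p => ?_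
    have e3 := vdcc_sub hS (g := h) (fun j hj => (hb R j hj).1) hi (hg i hi).1 hE p
    have e4 : Function.update h i (g i) = h := by
      refine Function.update_eq_self_iff.mpr ?_
      simp only [hh, if_neg hiR]
    have e5 : Function.update h i (μ[g i | m]) =
        fun j => if j ∈ insert i R then μ[g j | m] else g j := by
      funext j
      by_cases hji : j = i
      · subst hji
        rw [Function.update_self, if_pos (mem_insert_self _ _)]
      · rw [Function.update_of_ne hji]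
        simp only [hh, mem_insert, hji, false_or]
    rw [e4, e5] at e3
    rw [← e3]
    exact norm_sub_le_norm_sub_add_norm_sub _ _ _

theorem ae_pat (hS : MeasurePreserving S μ μ) {J : Finset ℕ} {g g' : ℕ → X → ℂ}
    (hg : ∀ j ∈ J, Bd μ C (g j)) (hg' : ∀ j ∈ J, Bd μ C (g' j))
    (hL : Lin id fun p => ‖∫ x, ∏ j ∈ J, g j (S^[p j] x) ∂μ -
      ∫ x, ∏ j ∈ J, g' j (S^[p j] x) ∂μ‖) :
    ∃ (K : ℕ) (Ψ : (ℕ → ℕ) → ℝ), Pat K Ψ ∧ Lin id Ψ ∧ ∀ a : ℕ → ℕ,
      Tendsto (av fun n => Ψ fun j => a (n + j)) atTop (𝓝 0) →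
        Tendsto (fun N => cor μ S a J g N - cor μ S a J g' N) atTop (𝓝 0) := by
  set Φ : (ℕ → ℕ) → ℝ := fun p => ‖∫ x, ∏ j ∈ J, g j (S^[p j] x) ∂μ -
      ∫ x, ∏ j ∈ J, g' j (S^[p j] x) ∂μ‖ with hΦ
  have hb : ∀ p : ℕ → ℕ, Bd μ (C ^ J.card) fun x => ∏ j ∈ J, g j (S^[p j] x) := fun p =>
    Bd.prod J fun j hj => (hg j hj).iter hS _
  have hb' : ∀ p : ℕ → ℕ, Bd μ (C ^ J.card) fun x => ∏ j ∈ J, g' j (S^[p j] x) := fun p =>
    Bd.prod J fun j hj => (hg' j hj).iter hS _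
  have hC : 0 ≤ C ^ J.card := (hb fun _ => 0).nonneg
  set B : ℝ := 2 * C ^ J.card + 1 with hB
  have hB0 : 0 < B := by positivity
  have hB1 : 1 ≤ B := by linarith
  have hΦB : ∀ p, Φ p ≤ B := fun p => by
    have e1 := (hb p).norm_integral
    have e2 := (hb' p).norm_integral
    have e3 : Φ p ≤ _ := norm_sub_le _ _
    linarith
  have hΦ0 : ∀ p, 0 ≤ Φ p := fun p => norm_nonneg _
  refine ⟨J.sup id + 1, fun p => Φ p / B, ⟨Nat.succ_pos _, fun p => div_nonneg (hΦ0 p) hB0.le,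
    fun p => (div_le_one hB0).mpr (hΦB p), fun p p' hp => ?_, fun p s => ?_⟩,
    vdcc_mono hL fun p => div_le_self (hΦ0 p) hB1, fun a ha => ?_⟩
  · have e : ∀ j ∈ J, p j = p' j := fun j hj =>
      hp j (Nat.lt_succ_of_le (le_sup (f := id) hj))
    have e1 : ∀ (u : ℕ → X → ℂ) (x : X), ∏ j ∈ J, u j (S^[p j] x) = ∏ j ∈ J, u j (S^[p' j] x) :=
      fun u x => prod_congr rfl fun j hj => by rw [e j hj]
    simp only [hΦ, e1]
  · have e1 := integral_iter hS (hb p).1 s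
    have e2 := integral_iter hS (hb' p).1 s
    simp only [hΦ, Function.iterate_add_apply, e1, e2]
  · have h1 := ha.const_mul B
    rw [mul_zero] at h1
    refine squeeze_zero_norm (fun N => ?_) h1
    unfold cor
    rw [← av_sub, ← av_rmul]
    refine (norm_av_le_av _ _).trans (av_mono fun n _ => le_of_eq ?_)
    rw [mul_div_cancel₀ _ hB0.ne']

end Pool.Agent.Lib.MP_1db5af_an
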