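import Pool.Agent.Lib.MP_1db5af_an.Ae.Zorn
import Pool.Agent.Lib.MP_1db5af_an.Ae.VdcC
import Pool.Agent.Lib.MP_1db5af_an.Ae.Metric

set_option autoImplicit false

namespace Pool.Agent.Lib.MP_1db5af_an

open MeasureTheory Filter Topology ComplexConjugate Finset InnerProductSpace

variable {X : Type*} {m m1 : MeasurableSpace X} [m0 : MeasurableSpace X] {μ : Measure X}
  [IsProbabilityMeasure μ] {S : X → X} {a : ℕ → ℕ} {C : ℝ}

theorem erg_one (hS : MeasurePreserving S μ μ) (hm1 : m1 ≤ m0) (hS1 : Measurable[m1, m1] S)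
    (hm : m ≤ m1) (hc : m.comap S = m) (hR : RWM m m1 μ S) (hJ : ∀ a : ℕ → ℕ, Weyl a → JE μ S a m)
    {J : Finset ℕ} {g : ℕ → X → ℂ} (hg : ∀ j ∈ J, Bd μ C (g j) ∧ AEStronglyMeasurable[m1] (g j) μ) :
    ∀ᵐ c : ℝ, 0 < c → c < 1 / 2 → Indep μ S (fun n : ℕ => ⌊G c n⌋₊) J g := by
  obtain ⟨K, Ψ, h1, h2, h3⟩ := ae_pat hS (fun j hj => (hg j hj).1) (g' := fun j => μ[g j | m])
    (fun j hj => (hg j hj).1.condExp) (ae_lin hS hm1 hS1 hm hc hR hg)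
  filter_upwards [ae_metric h1 h2] with c h4 c0 c1
  have h5 := (h3 (fun n : ℕ => ⌊G c n⌋₊) (h4 c0 (by linarith))).add
    (hJ _ (weyl_G c0 c1) J (fun j => μ[g j | m]) C fun j hj =>
      ⟨(hg j hj).1.condExp, stronglyMeasurable_condExp.aestronglyMeasurable⟩)
  simp only [sub_add_cancel, zero_add, integral_condExp (hm.trans hm1)] at h5
  exact h5

theorem erg_all [StandardBorelSpace X] (hS : MeasurePreserving S μ μ)
    (H : ∀ (J : Finset ℕ) (g : ℕ → X → ℂ) (C : ℝ),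
      (∀ j ∈ J, Bd μ C (g j) ∧ AEStronglyMeasurable[m1] (g j) μ) →
      ∀ᵐ c : ℝ, 0 < c → c < 1 / 2 → Indep μ S (fun n : ℕ => ⌊G c n⌋₊) J g) :
    ∀ᵐ c : ℝ, 0 < c → c < 1 / 2 → JE μ S (fun n : ℕ => ⌊G c n⌋₊) m1 := by
  classical
  have : Fact ((2 : ENNReal) ≠ ⊤) := ⟨by simp⟩
  obtain ⟨t, t1, t2, t3⟩ := (TopologicalSpace.IsSeparable.of_separableSpace
    {v : Lp ℂ 2 μ | ∃ (g : X → ℂ) (D : ℝ), (Bd μ D g ∧ AEStronglyMeasurable[m1] g μ) ∧
      v = L2 μ g}).exists_countable_dense_subset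
  have := t2.to_subtype
  choose e D h1 h2 using fun v : t => t1 v.2
  have h3 := ae_all_iff.2 fun J : Finset ℕ => ae_all_iff.2 fun σ : J → t =>
    H J (fun j => if h : j ∈ J then e (σ ⟨j, h⟩) else 0) (∑ j, D (σ j)) fun j hj => by
      rw [dif_pos hj]
      exact ⟨(h1 _).1.mono (single_le_sum (f := fun j => D (σ j)) (fun j _ => (h1 _).1.nonneg)
        (mem_univ _)), (h1 _).2⟩
  filter_upwards [h3] with c h4 c0 c1 J g C hg
  refine tw_indep_appr hS (P := fun u => ∃ v, u = e v) (fun g C hg => ?_) fun j hj =>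
    ⟨(hg j hj).1, tw_appr_one fun ε hε => ?_⟩
  · choose σ hσ using fun j : J => (hg j j.2).2
    refine tw_indep_congr hS (fun j hj => ?_) (h4 J σ c0 c1)
    rw [dif_pos hj, ← hσ]
  · obtain ⟨v, hv, h5⟩ := Metric.mem_closure_iff.1 (t3 ⟨g j, C, hg j hj, rfl⟩) ε hε
    refine ⟨e ⟨v, hv⟩, _, (h1 _).1, ⟨_, rfl⟩, ?_⟩
    rw [← h2, ← dist_eq_norm]
    exact h5.le

theorem ae_erg [StandardBorelSpace X] (hS : Ergodic S μ) :
    ∀ᵐ c : ℝ, 0 < c → c < 1 / 2 → JE μ S (fun n : ℕ => ⌊G c n⌋₊) m0 := by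
  have hS' := hS.toMeasurePreserving
  have hS1 : Measurable S := hS'.measurable
  obtain ⟨m, h1, h2, h3, h4⟩ := ae_exists_base hS
  filter_upwards [@erg_all X (@tailAll X m0 S) m0 μ _ S _ hS' fun J g C hg =>
    @erg_one X m (@tailAll X m0 S) m0 μ _ S C hS' (@ae_tail_le X m0 S)
      (Measurable.of_comap_le (@ae_tail_comap X m0 S hS1).le) h1 h2 h4 h3 J g hg]
    with c h5 c0 c1
  exact @je_tail X m0 m0 μ _ S _ hS' (mono_G c0) (gap_G c0) le_rfl fun k ξ hξ J g C hg =>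
    h5 c0 c1 J g C fun j hj =>
      ⟨(hg j hj).1, (hg j hj).2.mono (@ae_tail_xi X m0 S hS1 k ξ hξ)⟩

end Pool.Agent.Lib.MP_1db5af_an
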