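import Pool.Agent.Lib.MP_1db5af_an.Ae.Block

set_option autoImplicit false

namespace Pool.Agent.Lib.MP_1db5af_an

open MeasureTheory Filter Topology ComplexConjugate Finset InnerProductSpace

variable {X : Type*} {m m1 : MeasurableSpace X} [m0 : MeasurableSpace X] {μ : Measure X}
  [IsProbabilityMeasure μ] {S : X → X} {a : ℕ → ℕ} {C : ℝ}

theorem final_mgf {g : X → ℂ} (hgm : Measurable g) (h0 : ∫ x, g x ∂μ = 0) {la B : ℝ}
    (hla : 0 ≤ la) (hB : la * B ≤ 1) {c : ℂ} (hc : ∀ x, ‖c * g x‖ ≤ B) :
    ∫ x, Real.exp (la * (c * g x).re) ∂μ ≤ Real.exp ((la * B) ^ 2) := by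
  have ht : ∀ x, |la * (c * g x).re| ≤ la * B := fun x => by
    rw [abs_mul, abs_of_nonneg hla]
    exact mul_le_mul_of_nonneg_left ((Complex.abs_re_le_norm _).trans (hc x)) hla
  have hm : Measurable fun x => la * (c * g x).re :=
    (Complex.measurable_re.comp (hgm.const_mul c)).const_mul la
  have hi1 : Integrable (fun x => c * g x) μ :=
    Integrable.of_bound (hgm.const_mul c).aestronglyMeasurable B (Eventually.of_forall hc)
  have hi2 : Integrable (fun x => la * (c * g x).re) μ :=
    Integrable.of_bound hm.aestronglyMeasurable (la * B) (Eventually.of_forall ht)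
  have hi3 : Integrable (fun x => Real.exp (la * (c * g x).re)) μ :=
    Integrable.of_bound hm.exp.aestronglyMeasurable (Real.exp (la * B))
      (Eventually.of_forall fun x => by
        rw [Real.norm_eq_abs, Real.abs_exp]
        exact Real.exp_le_exp.2 (abs_le.1 (ht x)).2)
  have h1 : ∫ x, la * (c * g x).re ∂μ = 0 := by
    rw [integral_const_mul]
    have h2 := integral_re (𝕜 := ℂ) hi1
    rw [integral_const_mul, h0] at h2
    simp only [RCLike.re_to_complex, mul_zero, Complex.zero_re] at h2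
    rw [h2, mul_zero]
  calc ∫ x, Real.exp (la * (c * g x).re) ∂μ
      ≤ ∫ x, (1 + (la * B) ^ 2) + la * (c * g x).re ∂μ := by
        refine integral_mono hi3 ((integrable_const _).add hi2) fun x => ?_
        have h2 := block_exp ((ht x).trans hB)
        have h3 := sq_le_sq' (abs_le.1 (ht x)).1 (abs_le.1 (ht x)).2
        change Real.exp _ ≤ _ + _
        linarith
    _ = 1 + (la * B) ^ 2 := by
        rw [integral_add (integrable_const _) hi2, h1]
        simp
    _ ≤ _ := by linarith [Real.add_one_le_exp ((la * B) ^ 2)]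

omit [IsProbabilityMeasure μ] in
theorem final_lim (H : JE μ S a m0) {g : X → ℂ} (hgm : Measurable g) {la B : ℝ}
    (hla : 0 ≤ la) (K : ℕ) {c : ℕ → ℂ} (hc : ∀ j x, ‖c j * g x‖ ≤ B) :
    Tendsto (av fun n => ∫ x,
      Real.exp (la * (∑ j ∈ range K, c j * g (S^[a (n + j)] x)).re) ∂μ) atTop
      (𝓝 (∏ j ∈ range K, ∫ x, Real.exp (la * (c j * g x).re) ∂μ)) := by
  have hm : ∀ j, AEStronglyMeasurable (fun x => (Real.exp (la * (c j * g x).re) : ℂ)) μ :=
    fun j => (Complex.measurable_ofReal.comp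
      ((Complex.measurable_re.comp (hgm.const_mul (c j))).const_mul la).exp).aestronglyMeasurable
  have h1 := (Complex.continuous_re.tendsto _).comp
    (H (range K) (fun j x => (Real.exp (la * (c j * g x).re) : ℂ)) (Real.exp (la * B))
      fun j _ => ⟨⟨hm j, Eventually.of_forall fun x => by
        rw [Complex.norm_real, Real.norm_eq_abs, Real.abs_exp]
        exact Real.exp_le_exp.2 (mul_le_mul_of_nonneg_left
          ((Complex.re_le_norm _).trans (hc j x)) hla)⟩, hm j⟩)
  simp only [integral_complex_ofReal, ← Complex.ofReal_prod, Complex.ofReal_re] at h1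
  refine h1.congr fun N => ?_
  change Complex.reCLM (av _ N) = _
  rw [← av_map]
  congr 1
  ext n
  simp only [← Complex.ofReal_prod, integral_complex_ofReal, Complex.reCLM_apply,
    Complex.ofReal_re, ← Real.exp_sum, Complex.re_sum, mul_sum]

theorem ae_chernoff [StandardBorelSpace X] (hS : Measurable S)
    (H : ∀ᵐ x ∂μ, JE (ProbabilityTheory.condExpKernel μ (MeasurableSpace.invariants S) x) S a m0)
    {g : X → ℂ} (hgm : Measurable g) (h0 : μ[g | MeasurableSpace.invariants S] =ᵐ[μ] 0)
    (hg : ∀ x, ‖g x‖ ≤ C) (la B : ℝ) (K : ℕ) (c : ℕ → ℂ) (hla : 0 ≤ la) (hB : la * B ≤ 1)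
    (hc : ∀ j x, ‖c j * g x‖ ≤ B) :
    ∀ᶠ N in atTop, av (fun n => ∫ x,
      Real.exp (la * (∑ j ∈ range K, c j * g (S^[a (n + j)] x)).re) ∂μ) N ≤
        2 * Real.exp (K * (la * B) ^ 2) := by
  have hm := MeasurableSpace.invariants_le S
  set κ := ProbabilityTheory.condExpKernel μ (MeasurableSpace.invariants S) with hκ
  set E : ℕ → X → ℝ := fun n x =>
    Real.exp (la * (∑ j ∈ range K, c j * g (S^[a (n + j)] x)).re) with hE
  have hEm : ∀ n, Measurable (E n) := fun n =>
    ((Complex.measurable_re.comp (Finset.measurable_sum _ fun j _ =>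
      (hgm.comp (hS.iterate _)).const_mul _)).const_mul la).exp
  have hEb : ∀ n x, ‖E n x‖ ≤ Real.exp (la * (K * B)) := fun n x => by
    rw [hE, Real.norm_eq_abs, Real.abs_exp]
    refine Real.exp_le_exp.2 (mul_le_mul_of_nonneg_left ((Complex.re_le_norm _).trans
      ((norm_sum_le_of_le _ fun j _ => hc j _).trans ?_)) hla)
    simp
  have hEi : ∀ n, Integrable (E n) μ := fun n =>
    Integrable.of_bound (hEm n).aestronglyMeasurable _ (Eventually.of_forall (hEb n))
  have hgi : Integrable g μ :=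
    Integrable.of_bound hgm.aestronglyMeasurable _ (Eventually.of_forall hg)
  have h1 : ∀ N, ∫ x, av (fun n => ∫ y, E n y ∂κ x) N ∂μ = av (fun n => ∫ y, E n y ∂μ) N := by
    intro N
    simp only [av, smul_eq_mul]
    rw [integral_const_mul, integral_finsetSum _ fun n _ => (hEi n).integral_condExpKernel]
    congr 1
    refine sum_congr rfl fun n _ => ?_
    rw [← integral_congr_ae (ProbabilityTheory.condExp_ae_eq_integral_condExpKernel hm (hEi n)),
      integral_condExp hm]
  have h2 := tendsto_integral_of_dominated_convergence (μ := μ)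
    (F := fun N x => av (fun n => ∫ y, E n y ∂κ x) N)
    (f := fun x => ∏ j ∈ range K, ∫ y, Real.exp (la * (c j * g y).re) ∂κ x)
    (fun _ => Real.exp (la * (K * B)))
    (fun N => (Finset.aestronglyMeasurable_fun_sum _ fun n _ =>
      (hEi n).integral_condExpKernel.aestronglyMeasurable).const_smul ((N : ℝ)⁻¹))
    (integrable_const _)
    (fun N => Eventually.of_forall fun x => norm_av_le (fun n => by
      simpa using norm_integral_le_of_norm_le_const (μ := κ x) (Eventually.of_forall (hEb n))) N)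
    (H.mono fun x hx => final_lim hx hgm hla K hc)
  have h3 : ∫ x, ∏ j ∈ range K, ∫ y, Real.exp (la * (c j * g y).re) ∂κ x ∂μ <
      2 * Real.exp (K * (la * B) ^ 2) := by
    have h4 : ∀ᵐ x ∂μ, ‖∏ j ∈ range K, ∫ y, Real.exp (la * (c j * g y).re) ∂κ x‖ ≤
        Real.exp (K * (la * B) ^ 2) := by
      filter_upwards [ProbabilityTheory.condExp_ae_eq_integral_condExpKernel hm hgi, h0]
        with x e1 e2
      have e3 : ∫ y, g y ∂κ x = 0 := e1.symm.trans e2
      have e4 : ∀ j ∈ range K, 0 ≤ ∫ y, Real.exp (la * (c j * g y).re) ∂κ x :=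
        fun j _ => integral_nonneg fun y => (Real.exp_pos _).le
      rw [Real.norm_of_nonneg (prod_nonneg e4)]
      refine (prod_le_prod e4 fun j _ => final_mgf hgm e3 hla hB (hc j)).trans (le_of_eq ?_)
      rw [prod_const, card_range, ← Real.exp_nat_mul]
    have h5 := norm_integral_le_of_norm_le_const h4
    rw [probReal_univ, mul_one] at h5
    linarith [Real.exp_pos (K * (la * B) ^ 2), (Real.le_norm_self _).trans h5]
  filter_upwards [h2.eventually (gt_mem_nhds h3)] with N hN
  rw [h1] at hN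
  exact hN.le

theorem ae_thmD [StandardBorelSpace X] {T : X → X} (hT : MeasurePreserving T μ μ)
    (hZ : ZeroEnt μ T) (hS : MeasurePreserving S μ μ)
    (H : ∀ᵐ x ∂μ, JE (ProbabilityTheory.condExpKernel μ (MeasurableSpace.invariants S) x) S a m0)
    {f g : X → ℂ} (hf : MemLp f ⊤ μ) (hg : MemLp g ⊤ μ) : Conv μ T S a f g := by
  have hm := MeasurableSpace.invariants_le S
  obtain ⟨C, _, hfC⟩ := exists_Bd hf
  obtain ⟨D, hD, hgD⟩ := exists_Bd hg
  refine conv_of_null hT hS (hfC.mono (le_max_left C D)) (hgD.mono (le_max_right C D)) ?_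
  have hg0 : Bd μ (D + D) fun x => g x - (μ[g | MeasurableSpace.invariants S]) x :=
    hgD.sub hgD.condExp
  have hm0 : μ[fun x => g x - (μ[g | MeasurableSpace.invariants S]) x |
      MeasurableSpace.invariants S] =ᵐ[μ] 0 := by
    filter_upwards [condExp_sub hgD.integrable (integrable_condExp (f := g)
      (m := MeasurableSpace.invariants S)) (MeasurableSpace.invariants S),
      condExp_condExp_of_le (f := g) (μ := μ) le_rfl hm] with x e1 e2
    refine e1.trans ?_
    rw [Pi.sub_apply, e2, sub_self, Pi.zero_apply]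
  generalize (fun x => g x - (μ[g | MeasurableSpace.invariants S]) x) = g0 at hg0 hm0
  have hk : Measurable (hg0.1.mk g0) := hg0.1.stronglyMeasurable_mk.measurable
  set g1 : X → ℂ := {x | ‖hg0.1.mk g0 x‖ ≤ D + D}.indicator (hg0.1.mk g0) with hg1
  have hg1m : Measurable g1 := hk.indicator (measurableSet_le hk.norm measurable_const)
  have hg1b : ∀ x, ‖g1 x‖ ≤ D + D := fun x => by
    by_cases hx : x ∈ {x | ‖hg0.1.mk g0 x‖ ≤ D + D}
    · rw [hg1, Set.indicator_of_mem hx]; exact hx
    · rw [hg1, Set.indicator_of_notMem hx, norm_zero]; linarith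
  have he : g0 =ᵐ[μ] g1 := by
    filter_upwards [hg0.2, hg0.1.ae_eq_mk] with x e1 e2
    rw [e2] at e1
    rw [hg1, Set.indicator_of_mem (show x ∈ {x | ‖hg0.1.mk g0 x‖ ≤ D + D} from e1), e2]
  have hm1 : μ[g1 | MeasurableSpace.invariants S] =ᵐ[μ] 0 := (condExp_congr_ae he).symm.trans hm0
  refine thmb_null_left hT hS hg0 hfC.memLp fun ε hε => ?_
  obtain ⟨k, ζ, φ, h1, h2, h3⟩ := thmb_simple hfC.memLp hε
  refine ⟨_, h2, h3, thmb_null_right hT hS (thmb_bd h1 φ) hg0.memLp fun δ hδ =>
    ⟨g1, (hg0.congr he).memLp, ?_, ae_block hT hS hZ h1 φ hg1m hg1b fun la B K c h4 h5 h6 =>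
      ae_chernoff hS.measurable H hg1m hm1 hg1b la B K c h4 h5 h6⟩⟩
  rw [L2_congr he, sub_self, norm_zero]
  exact hδ.le

end Pool.Agent.Lib.MP_1db5af_an
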