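import Pool.Agent.Lib.MP_1db5af_an.Ae.Defs

set_option autoImplicit false

namespace Pool.Agent.Lib.MP_1db5af_an

open MeasureTheory Filter Topology ComplexConjugate Finset InnerProductSpace

theorem g1_L {x : ℝ} (hx : 3 ≤ x) : 1 ≤ Real.log x := by
  rw [Real.le_log_iff_exp_le (by linarith)]
  have := Real.exp_one_lt_d9
  linarith

theorem g1_dx (c : ℝ) {y : ℝ} (hy : 3 ≤ y) :
    HasDerivAt (fun y => G c y) (G c y * (y⁻¹ * (c + 1) * Real.log y ^ c)) y := by
  have hL := g1_L hy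
  have h1 : HasDerivAt (fun y => Real.log y) y⁻¹ y := Real.hasDerivAt_log (by linarith)
  have h2 := h1.rpow_const (p := c + 1) (Or.inl (by linarith))
  have h3 := h2.exp
  have e : c + 1 - 1 = c := by ring
  rw [e] at h3
  exact h3

theorem g1_dc {y : ℝ} (hy : 3 ≤ y) (e : ℝ) :
    HasDerivAt (fun e => G e y * (y⁻¹ * (e + 1) * Real.log y ^ e)) (VV e y) e := by
  have hL := g1_L hy
  have hL0 : 0 < Real.log y := by linarith
  have h0 : HasDerivAt (fun e : ℝ => e + 1) 1 e := (hasDerivAt_id e).add_const 1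
  have h1 := (h0.const_rpow hL0).exp
  have h2 := (hasDerivAt_id e).const_rpow hL0
  have h3 := h1.mul ((h0.const_mul y⁻¹).mul h2)
  refine h3.congr_deriv ?_
  simp only [VV, G, id, Pi.mul_apply]
  ring

theorem g1_div {c x : ℝ} (hx : 3 ≤ x) :
    G c x / x = Real.exp (Real.log x ^ (c + 1) - Real.log x) := by
  rw [Real.exp_sub, Real.exp_log (by linarith)]
  rfl

theorem ae_G_ge {c x : ℝ} (hc : 0 ≤ c) (hx : 3 ≤ x) : x ≤ G c x := by
  have hL := g1_L hx
  have h1 : Real.log x ^ (1 : ℝ) ≤ Real.log x ^ (c + 1) :=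
    Real.rpow_le_rpow_of_exponent_le hL (by linarith)
  rw [Real.rpow_one] at h1
  calc x = Real.exp (Real.log x) := (Real.exp_log (by linarith)).symm
    _ ≤ G c x := Real.exp_le_exp.2 h1

theorem ae_G_mono_c {c c' x : ℝ} (hcc : c ≤ c') (hx : 3 ≤ x) : G c x ≤ G c' x := by
  have hL := g1_L hx
  exact Real.exp_le_exp.2 (Real.rpow_le_rpow_of_exponent_le hL (by linarith))

theorem ae_V_mvt {c c' x : ℝ} (hc : 0 < c) (hcc : c ≤ c') (hx : 3 ≤ x) :
    ∃ γ ∈ Set.Icc c c', ∃ ξ ∈ Set.Icc x (x + 1),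
      (G c' (x + 1) - G c' x) - (G c (x + 1) - G c x) = VV γ ξ * (c' - c) := by
  rcases hcc.eq_or_lt with h | h
  · subst h
    exact ⟨c, ⟨le_rfl, le_rfl⟩, x, ⟨le_rfl, by linarith⟩, by ring⟩
  have hd : ∀ y, 3 ≤ y → HasDerivAt (fun y => G c' y - G c y)
      (G c' y * (y⁻¹ * (c' + 1) * Real.log y ^ c') - G c y * (y⁻¹ * (c + 1) * Real.log y ^ c)) y :=
    fun y hy => (g1_dx c' hy).sub (g1_dx c hy)
  obtain ⟨ξ, hξ, h1⟩ := exists_hasDerivAt_eq_slope (fun y => G c' y - G c y)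
    (fun y => G c' y * (y⁻¹ * (c' + 1) * Real.log y ^ c') -
      G c y * (y⁻¹ * (c + 1) * Real.log y ^ c)) (a := x) (b := x + 1) (by linarith)
    (fun y hy => (hd y (le_trans hx hy.1)).continuousAt.continuousWithinAt)
    (fun y hy => hd y (le_trans hx hy.1.le))
  have hξ3 : 3 ≤ ξ := le_trans hx hξ.1.le
  obtain ⟨γ, hγ, h2⟩ := exists_hasDerivAt_eq_slope
    (fun e => G e ξ * (ξ⁻¹ * (e + 1) * Real.log ξ ^ e)) (fun e => VV e ξ) (a := c) (b := c') h
    (fun e _ => (g1_dc hξ3 e).continuousAt.continuousWithinAt)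
    (fun e _ => g1_dc hξ3 e)
  refine ⟨γ, ⟨hγ.1.le, hγ.2.le⟩, ξ, ⟨hξ.1.le, hξ.2.le⟩, ?_⟩
  have hne : c' - c ≠ 0 := (sub_pos.2 h).ne'
  rw [h2, div_mul_cancel₀ _ hne, h1]
  have e : x + 1 - x = 1 := by ring
  rw [e, div_one]
  ring

theorem ae_V_fast {c x x' : ℝ} (hc : 0 ≤ c) (hx : 3 ≤ x) (hxx : x ≤ x') :
    VV c x * Real.exp ((Real.log x' - Real.log x) * (Real.log x ^ c - 1)) ≤ VV c x' := by
  have hx' : 3 ≤ x' := le_trans hx hxx
  have hL := g1_L hx
  have hL' := g1_L hx'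
  have hLL : Real.log x ≤ Real.log x' := Real.log_le_log (by linarith) hxx
  have hL0 : 0 < Real.log x := by linarith
  have hL0' : 0 < Real.log x' := by linarith
  have hc1 : Real.log x ^ c ≤ Real.log x' ^ c := Real.rpow_le_rpow hL0.le hLL hc
  have hc0 : 0 < Real.log x ^ c := Real.rpow_pos_of_pos hL0 c
  have hd1 : Real.log x ^ (c + 1) ≤ Real.log x' ^ (c + 1) :=
    Real.rpow_le_rpow hL0.le hLL (by linarith)
  have hd0 : 0 < Real.log x ^ (c + 1) := Real.rpow_pos_of_pos hL0 _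
  have hl0 : 0 ≤ Real.log (Real.log x) := Real.log_nonneg hL
  have hl1 : Real.log (Real.log x) ≤ Real.log (Real.log x') := Real.log_le_log hL0 hLL
  have hA : G c x / x * Real.exp ((Real.log x' - Real.log x) * (Real.log x ^ c - 1)) ≤
      G c x' / x' := by
    rw [g1_div hx, g1_div hx', ← Real.exp_add, Real.exp_le_exp, Real.rpow_add_one hL0.ne',
      Real.rpow_add_one hL0'.ne']
    nlinarith [mul_le_mul_of_nonneg_right hc1 hL0'.le]
  have hB : (c + 1) * (Real.log x ^ (c + 1) + 1) * Real.log (Real.log x) + 1 ≤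
      (c + 1) * (Real.log x' ^ (c + 1) + 1) * Real.log (Real.log x') + 1 := by
    gcongr
  have hB0 : 0 ≤ (c + 1) * (Real.log x ^ (c + 1) + 1) * Real.log (Real.log x) + 1 := by
    positivity
  have hA0 : 0 ≤ G c x' / x' := by rw [g1_div hx']; positivity
  calc VV c x * Real.exp ((Real.log x' - Real.log x) * (Real.log x ^ c - 1))
      = (G c x / x * Real.exp ((Real.log x' - Real.log x) * (Real.log x ^ c - 1))) *
        Real.log x ^ c * ((c + 1) * (Real.log x ^ (c + 1) + 1) * Real.log (Real.log x) + 1) := by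
        unfold VV; ring
    _ ≤ VV c x' := by
        unfold VV
        exact mul_le_mul (mul_le_mul hA hc1 hc0.le hA0) hB hB0
          (mul_nonneg hA0 (le_trans hc0.le hc1))

theorem ae_V_mono {c c' x x' : ℝ} (hc : 0 ≤ c) (hcc : c ≤ c') (hx : 3 ≤ x) (hxx : x ≤ x') :
    VV c x ≤ VV c' x' := by
  have hx' : 3 ≤ x' := le_trans hx hxx
  have hL := g1_L hx
  have hL' := g1_L hx'
  have hLL : Real.log x ≤ Real.log x' := Real.log_le_log (by linarith) hxx
  have hL0 : 0 < Real.log x := by linarith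
  have hL0' : 0 < Real.log x' := by linarith
  have hc1 : Real.log x ^ c ≤ Real.log x' ^ c' :=
    le_trans (Real.rpow_le_rpow hL0.le hLL hc) (Real.rpow_le_rpow_of_exponent_le hL' hcc)
  have hc0 : 0 < Real.log x ^ c := Real.rpow_pos_of_pos hL0 c
  have hd1 : Real.log x ^ (c + 1) ≤ Real.log x' ^ (c' + 1) :=
    le_trans (Real.rpow_le_rpow hL0.le hLL (by linarith))
      (Real.rpow_le_rpow_of_exponent_le hL' (by linarith))
  have hd0 : 0 < Real.log x ^ (c + 1) := Real.rpow_pos_of_pos hL0 _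
  have hl0 : 0 ≤ Real.log (Real.log x) := Real.log_nonneg hL
  have hl1 : Real.log (Real.log x) ≤ Real.log (Real.log x') := Real.log_le_log hL0 hLL
  have hone : 1 ≤ Real.log x ^ c := Real.one_le_rpow hL hc
  have hA : G c x / x ≤ G c' x' / x' := by
    rw [g1_div hx, g1_div hx', Real.exp_le_exp, Real.rpow_add_one hL0.ne',
      Real.rpow_add_one hL0'.ne']
    nlinarith [mul_le_mul_of_nonneg_right hc1 hL0'.le,
      mul_nonneg (sub_nonneg.2 hLL) (sub_nonneg.2 hone)]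
  have hc' : 0 ≤ c' := le_trans hc hcc
  have hB : (c + 1) * (Real.log x ^ (c + 1) + 1) * Real.log (Real.log x) + 1 ≤
      (c' + 1) * (Real.log x' ^ (c' + 1) + 1) * Real.log (Real.log x') + 1 := by
    have hd0' : 0 < Real.log x' ^ (c' + 1) := Real.rpow_pos_of_pos hL0' _
    gcongr
  have hB0 : 0 ≤ (c + 1) * (Real.log x ^ (c + 1) + 1) * Real.log (Real.log x) + 1 := by
    positivity
  have hA0 : 0 ≤ G c' x' / x' := by rw [g1_div hx']; positivity
  unfold VV
  exact mul_le_mul (mul_le_mul hA hc1 hc0.le hA0) hB hB0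
    (mul_nonneg hA0 (le_trans hc0.le hc1))

end Pool.Agent.Lib.MP_1db5af_an
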