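import Pool.Agent.Lib.MP_1db5af_an.Ae.G1

set_option autoImplicit false

namespace Pool.Agent.Lib.MP_1db5af_an

open MeasureTheory Filter Topology ComplexConjugate Finset InnerProductSpace

theorem g2_log_ge {x : ℝ} (hx : 3 ≤ x) : 1 ≤ Real.log x := by
  rw [Real.le_log_iff_exp_le (by linarith)]
  linarith [Real.exp_one_lt_d9]

theorem g2_V_nonneg {c x : ℝ} (hc : 0 ≤ c) (hx : 3 ≤ x) : 0 ≤ VV c x := by
  have h1 := g2_log_ge hx
  have h2 : 0 ≤ Real.log (Real.log x) := Real.log_nonneg h1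
  have h3 : 0 < Real.log x := by linarith
  have h4 : 0 < x := by linarith
  unfold VV G
  positivity

theorem g2_rpow {L L' δ τ e e' : ℝ} (hL : 1 ≤ L) (hL' : L ≤ L') (hδ : 0 ≤ δ) (hτ : 0 ≤ τ)
    (hl : Real.log L' ≤ Real.log L + δ) (he : 0 ≤ e') (he2 : e' ≤ 2) (hee : e' ≤ e + τ) :
    L' ^ e' ≤ Real.exp (2 * δ + τ * L) * L ^ e := by
  rw [Real.rpow_def_of_pos (by linarith), Real.rpow_def_of_pos (by linarith), ← Real.exp_add]
  refine Real.exp_le_exp.2 ?_
  have h1 : 0 ≤ Real.log L := Real.log_nonneg hL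
  have h2 : Real.log L ≤ L := (Real.log_le_sub_one_of_pos (by linarith)).trans (by linarith)
  have h3 : Real.log L' * e' ≤ (Real.log L + δ) * e' := mul_le_mul_of_nonneg_right hl he
  have h4 : Real.log L * e' ≤ Real.log L * (e + τ) := mul_le_mul_of_nonneg_left hee h1
  have h5 : δ * e' ≤ δ * 2 := mul_le_mul_of_nonneg_left he2 hδ
  have h6 : Real.log L * τ ≤ L * τ := mul_le_mul_of_nonneg_right h2 hτ
  linarith

theorem g2_exp {κ : ℝ} (h0 : 0 ≤ κ) (h1 : κ ≤ 1) : Real.exp κ ≤ 1 + 2 * κ := by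
  have h := Real.abs_exp_sub_one_le (x := κ) (by rwa [abs_of_nonneg h0])
  rw [abs_of_nonneg h0] at h
  linarith [(abs_le.1 h).2]

theorem g2_slow {x K c c' : ℝ} (hx : 3 ≤ x) (hK : 0 ≤ K) (hll : 1 ≤ Real.log (Real.log x))
    (hρ : (2 * K + 3) * (Real.log x ^ 3 / x) ≤ 1) (hc : 0 ≤ c) (hcc : c ≤ c') (hc1 : c' ≤ 1)
    (hc3 : c' ≤ c + 3 / x) :
    VV c' (x + K) ≤ Real.exp (6 * ((2 * K + 3) * (Real.log x ^ 3 / x))) * VV c x := by
  have hx0 : 0 < x := by linarith
  have hL := g2_log_ge hx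
  have hV := g2_V_nonneg hc hx
  have hLL : Real.log x ≤ Real.log (x + K) := Real.log_le_log hx0 (by linarith)
  have hδ : 0 ≤ K / x := by positivity
  have hτ : 0 ≤ 3 / x := by positivity
  have hL' : Real.log (x + K) ≤ Real.log x + K / x := by
    have h1 := Real.log_le_sub_one_of_pos (x := (x + K) / x) (by positivity)
    rw [Real.log_div (by positivity) hx0.ne'] at h1
    have h2 : (x + K) / x - 1 = K / x := by field_simp; ring
    linarith
  unfold VV G at *
  set L := Real.log x with hLdef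
  set L' := Real.log (x + K)
  set δ := K / x with hδdef
  set τ := 3 / x with hτdef
  have hl : Real.log L' ≤ Real.log L + δ := by
    have h1 : L' ≤ L * Real.exp δ := by
      have := Real.add_one_le_exp δ
      nlinarith
    have h2 := Real.log_le_log (by linarith) h1
    rwa [Real.log_mul (by linarith) (Real.exp_pos _).ne', Real.log_exp] at h2
  set κ := 2 * δ + τ * L with hκ
  have hκ0 : 0 ≤ κ := by positivity
  set ρ := (2 * K + 3) * (L ^ 3 / x) with hρdef
  have hκρ : κ * L ^ 2 ≤ ρ := by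
    have h1 : κ ≤ (2 * K + 3) * (L / x) := by
      have h2 : (2 * K + 3) * (L / x) = 2 * δ * L + τ * L := by
        rw [hδdef, hτdef]; ring
      nlinarith
    calc κ * L ^ 2 ≤ (2 * K + 3) * (L / x) * L ^ 2 :=
          mul_le_mul_of_nonneg_right h1 (by positivity)
      _ = ρ := by rw [hρdef]; ring
  have hL2 : 1 ≤ L ^ 2 := one_le_pow₀ hL
  have hκ1 : κ ≤ ρ := by nlinarith
  have hA := g2_rpow (e := c + 1) (e' := c' + 1) hL hLL hδ hτ hl (by linarith) (by linarith)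
    (by linarith)
  have hB := g2_rpow (e := c) (e' := c') hL hLL hδ hτ hl (by linarith) (by linarith) hc3
  rw [← hκ] at hA hB
  have hA2 : L ^ (c + 1) ≤ L ^ 2 := by
    rw [← Real.rpow_natCast]
    exact Real.rpow_le_rpow_of_exponent_le hL (by push_cast; linarith)
  have hA0 : 0 ≤ L ^ (c + 1) := Real.rpow_nonneg (by linarith) _
  have hB0 : 0 ≤ L ^ c := Real.rpow_nonneg (by linarith) _
  have hA0' : 0 ≤ L' ^ (c' + 1) := Real.rpow_nonneg (by linarith) _
  have hB0' : 0 ≤ L' ^ c' := Real.rpow_nonneg (by linarith) _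
  have hE := g2_exp hκ0 (by linarith)
  have hE1 : 1 + κ ≤ Real.exp κ := by linarith [Real.add_one_le_exp κ]
  set E := Real.exp κ with hEdef
  set A := L ^ (c + 1)
  set A' := L' ^ (c' + 1)
  have h1 : Real.exp A' / (x + K) ≤ Real.exp (2 * ρ) * (Real.exp A / x) := by
    have h2 : A' ≤ 2 * ρ + A := by
      have h3 : E * A ≤ (1 + 2 * κ) * A := mul_le_mul_of_nonneg_right hE hA0
      have h4 : κ * A ≤ κ * L ^ 2 := mul_le_mul_of_nonneg_left hA2 hκ0
      linarith
    rw [← mul_div_assoc, ← Real.exp_add]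
    exact div_le_div₀ (Real.exp_pos _).le (Real.exp_le_exp.2 h2) hx0 (by linarith)
  have h2 : c' + 1 ≤ E * (c + 1) := by
    have h3 : τ ≤ κ := by nlinarith
    nlinarith
  have h3 : A' + 1 ≤ E * (A + 1) := by nlinarith
  have h4 : Real.log L' ≤ E * Real.log L := by
    have h5 : δ ≤ κ := by nlinarith [mul_nonneg hτ (by linarith : (0 : ℝ) ≤ L)]
    nlinarith
  have hlL' : 0 ≤ Real.log L' := Real.log_nonneg (by linarith)
  have hE0 : 1 ≤ E := by linarith
  have h5 : (c' + 1) * (A' + 1) * Real.log L' + 1 ≤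
      E ^ 3 * ((c + 1) * (A + 1) * Real.log L + 1) := by
    have h6 : (c' + 1) * (A' + 1) * Real.log L' ≤
        (E * (c + 1)) * (E * (A + 1)) * (E * Real.log L) :=
      mul_le_mul (mul_le_mul h2 h3 (by linarith) (by positivity)) h4 hlL' (by positivity)
    have h7 : 1 ≤ E ^ 3 := one_le_pow₀ hE0
    linarith
  have h8 : E ^ 4 ≤ Real.exp (4 * ρ) := by
    rw [hEdef, ← Real.exp_nat_mul]
    exact Real.exp_le_exp.2 (by push_cast; linarith)
  have hc'0 : 0 ≤ c' := by linarith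
  calc Real.exp A' / (x + K) * L' ^ c' * ((c' + 1) * (A' + 1) * Real.log L' + 1)
      ≤ (Real.exp (2 * ρ) * (Real.exp A / x)) * (E * L ^ c) *
          (E ^ 3 * ((c + 1) * (A + 1) * Real.log L + 1)) :=
        mul_le_mul (mul_le_mul h1 hB hB0' (by positivity)) h5 (by positivity) (by positivity)
    _ = (Real.exp (2 * ρ) * E ^ 4) *
          (Real.exp A / x * L ^ c * ((c + 1) * (A + 1) * Real.log L + 1)) := by ring
    _ ≤ Real.exp (6 * ρ) *
          (Real.exp A / x * L ^ c * ((c + 1) * (A + 1) * Real.log L + 1)) := by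
        refine mul_le_mul_of_nonneg_right ?_ hV
        have h9 : Real.exp (6 * ρ) = Real.exp (2 * ρ) * Real.exp (4 * ρ) := by
          rw [← Real.exp_add]; congr 1; ring
        rw [h9]
        exact mul_le_mul_of_nonneg_left h8 (Real.exp_pos _).le

theorem g2_three : ∀ᶠ n : ℕ in atTop, (3 : ℝ) ≤ n :=
  tendsto_natCast_atTop_atTop.eventually_ge_atTop 3

theorem ae_V_slow (K : ℕ) {η : ℝ} (hη : 0 < η) :
    ∀ᶠ n : ℕ in atTop, ∀ c c' : ℝ, 0 ≤ c → c ≤ c' → c' ≤ 1 → c' ≤ c + 3 / n →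
      VV c' (n + K) ≤ (1 + η) * VV c n := by
  have h1 : Tendsto (fun n : ℕ => (2 * (K : ℝ) + 3) * (Real.log n ^ 3 / n)) atTop (𝓝 0) := by
    have h2 := (Real.tendsto_pow_log_div_mul_add_atTop 1 0 3 one_ne_zero).comp
      (tendsto_natCast_atTop_atTop (R := ℝ))
    have h3 := h2.const_mul (2 * (K : ℝ) + 3)
    simpa [Function.comp_def] using h3
  have h2 : Tendsto (fun n : ℕ => Real.exp (6 * ((2 * (K : ℝ) + 3) * (Real.log n ^ 3 / n)))) atTop
      (𝓝 1) := by
    have h3 := (Real.continuous_exp.tendsto _).comp (h1.const_mul 6)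
    simpa [Function.comp_def] using h3
  have h3 : Tendsto (fun n : ℕ => Real.log (Real.log n)) atTop atTop :=
    Real.tendsto_log_atTop.comp (Real.tendsto_log_atTop.comp tendsto_natCast_atTop_atTop)
  filter_upwards [g2_three, h3.eventually_ge_atTop 1, h1.eventually_le_const one_pos,
    h2.eventually_le_const (show (1 : ℝ) < 1 + η by linarith)] with n hn hl hρ he c c' hc hcc hc1 hc3
  exact (g2_slow hn (Nat.cast_nonneg K) hl hρ hc hcc hc1 hc3).trans
    (mul_le_mul_of_nonneg_right he (g2_V_nonneg hc hn))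

theorem ae_V_big {c0 : ℝ} (hc0 : 0 < c0) :
    ∀ᶠ n : ℕ in atTop, ∀ c : ℝ, c0 ≤ c → (n : ℝ) ^ 2 ≤ VV c n := by
  have h1 : Tendsto (fun n : ℕ => Real.log n ^ c0) atTop atTop :=
    (tendsto_rpow_atTop hc0).comp (Real.tendsto_log_atTop.comp tendsto_natCast_atTop_atTop)
  filter_upwards [g2_three, h1.eventually_ge_atTop 3] with n hn h3 c hc
  have hL := g2_log_ge hn
  have hn0 : (0 : ℝ) < n := by linarith
  have h4 : 3 ≤ Real.log n ^ c := h3.trans (Real.rpow_le_rpow_of_exponent_le hL hc)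
  have h5 : 3 * Real.log n ≤ Real.log n ^ (c + 1) := by
    rw [Real.rpow_add_one (by linarith)]
    exact mul_le_mul_of_nonneg_right h4 (by linarith)
  have h6 : (n : ℝ) ^ 2 ≤ G c n / n := by
    rw [le_div_iff₀ hn0, ← pow_succ]
    refine le_trans (le_of_eq ?_) (Real.exp_le_exp.2 h5)
    have := Real.exp_nat_mul (Real.log n) 3
    rw [Real.exp_log hn0] at this
    exact_mod_cast this.symm
  have h7 : 0 ≤ Real.log (Real.log n) := Real.log_nonneg hL
  have h8 : 0 ≤ (c + 1) * (Real.log n ^ (c + 1) + 1) * Real.log (Real.log n) :=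
    mul_nonneg (mul_nonneg (by linarith) (by linarith)) h7
  have h9 : (0 : ℝ) ≤ (n : ℝ) ^ 2 := by positivity
  unfold VV
  calc (n : ℝ) ^ 2 = (n : ℝ) ^ 2 * 1 * 1 := by ring
    _ ≤ _ := mul_le_mul (mul_le_mul h6 (by linarith) zero_le_one (h9.trans h6)) (by linarith)
        zero_le_one (mul_nonneg (h9.trans h6) (by linarith))

theorem ae_speed (K : ℕ) {η : ℝ} (hη : 0 < η) :
    ∀ᶠ n : ℕ in atTop, ∀ α c c' : ℝ, 0 < α → α ≤ c → c ≤ c' → c' ≤ 1 → c' ≤ α + 3 / n →
      ∀ i < K,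
        VV α n * (c' - c) ≤ (G c' ((n + (i + 1) : ℕ) : ℝ) - G c' ((n + i : ℕ) : ℝ)) -
          (G c ((n + (i + 1) : ℕ) : ℝ) - G c ((n + i : ℕ) : ℝ)) ∧
        (G c' ((n + (i + 1) : ℕ) : ℝ) - G c' ((n + i : ℕ) : ℝ)) -
          (G c ((n + (i + 1) : ℕ) : ℝ) - G c ((n + i : ℕ) : ℝ)) ≤ (1 + η) * VV α n * (c' - c) := by
  filter_upwards [g2_three, ae_V_slow K hη] with n hn hs α c c' hα hαc hcc hc1 hc3 i hi
  have hi0 : (0 : ℝ) ≤ i := Nat.cast_nonneg i
  have hiK : (i : ℝ) + 1 ≤ K := by exact_mod_cast hi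
  obtain ⟨γ, hγ, ξ, hξ, he⟩ := ae_V_mvt (c := c) (c' := c') (x := (n : ℝ) + i) (by linarith) hcc
    (by linarith)
  have e1 : ((n + (i + 1) : ℕ) : ℝ) = (n : ℝ) + i + 1 := by push_cast; ring
  have e2 : ((n + i : ℕ) : ℝ) = (n : ℝ) + i := by push_cast; ring
  rw [e1, e2, he]
  have hd : 0 ≤ c' - c := by linarith
  refine ⟨mul_le_mul_of_nonneg_right ?_ hd, mul_le_mul_of_nonneg_right ?_ hd⟩
  · exact ae_V_mono hα.le (hαc.trans hγ.1) hn (by linarith [hξ.1])
  · refine le_trans ?_ (hs α c' hα.le (hαc.trans hcc) hc1 hc3)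
    exact ae_V_mono (by linarith [hγ.1]) hγ.2 (by linarith [hξ.1]) (by linarith [hξ.2])

theorem ae_gap {c0 ε : ℝ} (hc0 : 0 < c0) (hε : 0 < ε) (s : ℕ) :
    ∀ᶠ k : ℕ in atTop, ∃ M D : ℕ, 0 < D ∧ 2 ^ k ≤ D * M ∧ D * M ≤ 2 ^ (k + 1) ∧
      Real.exp (-(ε * M)) ≤ 1 / (k : ℝ) ^ 2 ∧
      ∀ (c : ℝ) (n : ℕ), c0 ≤ c → 2 ^ k ≤ n → n ≤ 3 * 2 ^ k →
        2 ^ s * VV c n ≤ VV c ((n + D : ℕ) : ℝ) := by
  have ha : (0 : ℝ) < 2 ^ c0 := by positivity
  have hs0 : (0 : ℝ) ≤ s := Nat.cast_nonneg s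
  have h1 := tendsto_natCast_atTop_atTop (R := ℝ) |>.eventually
    ((isLittleO_log_rpow_atTop hc0).bound
      (c := ε / (2 * 2 ^ c0 * (8 * s + 1))) (by positivity))
  have h2 := tendsto_natCast_atTop_atTop (R := ℝ) |>.eventually
    (Real.isLittleO_log_id_atTop.bound (c := ε / 4) (by positivity))
  have h3 : Tendsto (fun k : ℕ => (k : ℝ) ^ c0) atTop atTop :=
    (tendsto_rpow_atTop hc0).comp tendsto_natCast_atTop_atTop
  filter_upwards [h1, h2, h3.eventually_ge_atTop (2 * 2 ^ c0 * (8 * s + 1)),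
    eventually_ge_atTop 4] with k hk1 hk2 hk3 hk4
  have hk : (4 : ℝ) ≤ k := by exact_mod_cast hk4
  have hlk : 0 ≤ Real.log k := Real.log_nonneg (by linarith)
  have hkc : (0 : ℝ) ≤ (k : ℝ) ^ c0 := by positivity
  rw [Real.norm_of_nonneg hlk, Real.norm_of_nonneg hkc] at hk1
  rw [Real.norm_of_nonneg hlk, id, Real.norm_of_nonneg (by linarith)] at hk2
  set M := ⌈2 * Real.log k / ε⌉₊ + 1 with hM
  have hM0 : 0 < M := Nat.succ_pos _
  have hM0' : (0 : ℝ) < M := by exact_mod_cast hM0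
  have hM1 : 2 * Real.log k / ε ≤ M := by
    rw [hM]; push_cast; linarith [Nat.le_ceil (2 * Real.log k / ε)]
  have hM2 : (M : ℝ) ≤ 2 * Real.log k / ε + 2 := by
    have := Nat.ceil_lt_add_one (show 0 ≤ 2 * Real.log k / ε by positivity)
    rw [hM]; push_cast; linarith
  have hM3 : M ≤ 2 ^ k := by
    have h4 : 2 * Real.log k / ε ≤ k / 2 := by
      rw [div_le_iff₀ hε]; linarith
    have h5 : M ≤ k := by
      have : (M : ℝ) ≤ k := by linarith
      exact_mod_cast this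
    exact h5.trans Nat.lt_two_pow_self.le
  have hD1 : 2 ^ k ≤ (2 ^ k / M + 1) * M := by
    have := Nat.lt_div_mul_add (a := 2 ^ k) hM0
    rw [add_mul, one_mul]
    exact this.le
  have hD2 : (2 ^ k / M + 1) * M ≤ 2 ^ (k + 1) := by
    have := Nat.div_mul_le_self (2 ^ k) M
    rw [add_mul, one_mul, pow_succ]
    omega
  refine ⟨M, 2 ^ k / M + 1, Nat.succ_pos _, hD1, hD2, ?_, fun c n hc hn1 hn2 => ?_⟩
  · have h4 : -(ε * M) ≤ -(2 * Real.log k) := by
      rw [div_le_iff₀ hε] at hM1; linarith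
    refine (Real.exp_le_exp.2 h4).trans (le_of_eq ?_)
    have := Real.exp_nat_mul (Real.log k) 2
    rw [Real.exp_log (by linarith)] at this
    rw [Real.exp_neg, one_div, ← this]
    norm_num
  set D := 2 ^ k / M + 1 with hD
  have hD0 : (0 : ℝ) < D := by exact_mod_cast Nat.succ_pos _
  have hn3 : (3 : ℝ) ≤ n := by
    have : 4 ≤ n := hk4.trans (Nat.lt_two_pow_self.le.trans hn1)
    have h4 : (4 : ℝ) ≤ n := by exact_mod_cast this
    linarith
  have hc0' : 0 ≤ c := by linarith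
  have hfast := ae_V_fast (c := c) (x := n) (x' := ((n + D : ℕ) : ℝ)) hc0' hn3
    (by push_cast; linarith)
  refine le_trans ?_ hfast
  rw [mul_comm]
  refine mul_le_mul_of_nonneg_left ?_ (g2_V_nonneg hc0' hn3)
  have h4 : 1 / (4 * (M : ℝ)) ≤ Real.log ((n + D : ℕ) : ℝ) - Real.log n := by
    have h5 : n + D ≤ 4 * (D * M) := by
      have : D ≤ D * M := Nat.le_mul_of_pos_right _ hM0
      omega
    have h6 : (n : ℝ) + D ≤ 4 * (D * M) := by exact_mod_cast h5
    push_cast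
    rw [← Real.log_div (by positivity) (by positivity)]
    refine le_trans ?_ (Real.one_sub_inv_le_log_of_pos (by positivity))
    have h7 : 1 - (((n : ℝ) + D) / n)⁻¹ = D / (n + D) := by field_simp; ring
    rw [h7, div_le_div_iff₀ (by positivity) (by positivity)]
    linarith
  have h5 : (k : ℝ) / 2 ≤ Real.log n := by
    have h6 : ((2 : ℝ)) ^ k ≤ n := by exact_mod_cast hn1
    have h7 := Real.log_le_log (by positivity) h6
    rw [Real.log_pow] at h7
    have := Real.log_two_gt_d9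
    nlinarith
  have h6 : 4 * (M : ℝ) * s ≤ Real.log n ^ c - 1 := by
    have h7 : ((k : ℝ) / 2) ^ c0 ≤ Real.log n ^ c :=
      (Real.rpow_le_rpow (by positivity) h5 hc0.le).trans
        (Real.rpow_le_rpow_of_exponent_le (g2_log_ge hn3) hc)
    rw [Real.div_rpow (by positivity) (by norm_num)] at h7
    set y := (k : ℝ) ^ c0 / 2 ^ c0 with hy
    have h8 : 2 * (8 * (s : ℝ) + 1) ≤ y := by
      rw [hy, le_div_iff₀ ha]; linarith
    have h9 : (8 * (s : ℝ) + 1) * (Real.log k / ε) ≤ y / 2 := by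
      have h10 : Real.log k / ε ≤ y / 2 / (8 * s + 1) := by
        rw [div_le_iff₀ hε]
        refine hk1.trans (le_of_eq ?_)
        rw [hy]; field_simp
      rwa [le_div_iff₀ (by positivity), mul_comm] at h10
    have h10 : 0 ≤ Real.log k / ε := by positivity
    have h11 : (M : ℝ) * s ≤ (2 * (Real.log k / ε) + 2) * s :=
      mul_le_mul_of_nonneg_right (by rw [← mul_div_assoc]; exact hM2) hs0
    nlinarith
  have h7 : (s : ℝ) ≤ (Real.log ((n + D : ℕ) : ℝ) - Real.log n) * (Real.log n ^ c - 1) := by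
    calc (s : ℝ) = 1 / (4 * (M : ℝ)) * (4 * (M : ℝ) * s) := by field_simp
      _ ≤ _ := mul_le_mul h4 h6 (by positivity) (le_trans (by positivity) h4)
  refine le_trans ?_ (Real.exp_le_exp.2 h7)
  rw [← Real.exp_one_pow]
  exact pow_le_pow_left₀ (by norm_num) (by linarith [Real.add_one_le_exp (1 : ℝ)]) s

end Pool.Agent.Lib.MP_1db5af_an
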