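import Pool.Agent.Lib.MP_1db5af_an.Ae.Dec
import Pool.Agent.Lib.MP_1db5af_an.Ae.Final

set_option autoImplicit false

namespace Pool.Agent.Lib.MP_1db5af_an

open MeasureTheory Filter Topology ComplexConjugate Finset InnerProductSpace

section Factor

variable {X Y : Type*} [m0 : MeasurableSpace X] [mY : MeasurableSpace Y] {μ : Measure X}
  {ν : Measure Y} [IsProbabilityMeasure μ] [IsProbabilityMeasure ν] {S : X → X} {σ : Y → Y}
  {π : X → Y} {a : ℕ → ℕ} {C : ℝ}

/-- The conditional expectation on the invariant sets commutes with a factor map. -/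
theorem gen_inv (hS : MeasurePreserving S μ μ) (hσ : MeasurePreserving σ ν ν)
    (hπ : MeasurePreserving π μ ν) (hc : Function.Semiconj π S σ) {h : Y → ℂ} (hh : Bd ν C h) :
    μ[fun x => h (π x) | MeasurableSpace.invariants S] =ᵐ[μ]
      fun x => (ν[h | MeasurableSpace.invariants σ]) (π x) := by
  let V : Lp ℂ 2 ν →ₗᵢ[ℂ] Lp ℂ 2 μ := Lp.compMeasurePreservingₗᵢ ℂ π hπ
  have hV : ∀ φ : Y → ℂ, MemLp φ 2 ν → V (L2 ν φ) = L2 μ fun x => φ (π x) := fun φ hφ => by
    rw [L2_eq hφ]
    exact (L2_eq (hφ.comp_measurePreserving hπ)).symm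
  have hE : Bd ν C (ν[h | MeasurableSpace.invariants σ]) := hh.condExp
  have hhπ : MemLp (fun x => h (π x)) 2 μ := hh.memLp.comp_measurePreserving hπ
  have h1 := (V.continuous.tendsto _).comp (mean_erg hσ hh.memLp)
  have h2 := mean_erg hS hhπ
  have e : (V ∘ av fun n => (Kp hσ)^[n] (L2 ν h)) =
      av fun n => (Kp hS)^[n] (L2 μ fun x => h (π x)) := by
    funext N
    refine ((av_map (V.toContinuousLinearMap.restrictScalars ℝ) _ N).symm).trans ?_
    congr 1
    funext n
    change V _ = _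
    rw [Kp_iter hσ hh.memLp, Kp_iter hS hhπ, hV _ (hh.iter hσ n).memLp]
    simp only [(hc.iterate_right n).eq]
  rw [e, hV _ hE.memLp] at h1
  have h3 := tendsto_nhds_unique h2 h1
  have hb : Bd μ C fun x => h (π x) :=
    ⟨hh.1.comp_measurePreserving hπ, hπ.quasiMeasurePreserving.ae hh.2⟩
  have h4 := L2_coe (hb.condExp (m := MeasurableSpace.invariants S)).memLp
  rw [h3] at h4
  exact h4.symm.trans (L2_coe (hE.memLp.comp_measurePreserving hπ))

/-- The conclusion for functions that come from a standard Borel factor. -/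
theorem gen_factor [StandardBorelSpace Y] {T : X → X} (hT : MeasurePreserving T μ μ)
    (hZ : ZeroEnt μ T) (hS : MeasurePreserving S μ μ) (hσ : MeasurePreserving σ ν ν)
    (hπ : MeasurePreserving π μ ν) (hc : Function.Semiconj π S σ)
    (H : ∀ᵐ y ∂ν, JE (ProbabilityTheory.condExpKernel ν (MeasurableSpace.invariants σ) y) σ a mY)
    {f g : X → ℂ} (hf : MemLp f ⊤ μ) (hg : MemLp g ⊤ μ) {h : Y → ℂ} (hh : Measurable h)
    (e : g =ᵐ[μ] fun x => h (π x)) : Conv μ T S a f g := by
  classical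
  obtain ⟨C, _, hfC⟩ := exists_Bd hf
  obtain ⟨D, hD, hgD⟩ := exists_Bd hg
  have hae : ∀ {s : Set Y}, MeasurableSet s → (∀ᵐ x ∂μ, π x ∈ s) → ∀ᵐ y ∂ν, y ∈ s :=
    fun hs h1 => by
      rw [← hπ.map_eq]
      exact (ae_map_iff hπ.measurable.aemeasurable hs).2 h1
  have hhD : Bd ν D h := ⟨hh.aestronglyMeasurable,
    hae (measurableSet_le hh.norm measurable_const) (hgD.congr e).2⟩
  have hI := MeasurableSpace.invariants_le σ
  set h0 : Y → ℂ := fun y => h y - (ν[h | MeasurableSpace.invariants σ]) y with hh0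
  have m0' : Measurable h0 := hh.sub (stronglyMeasurable_condExp.mono hI).measurable
  have b0 : Bd ν (D + D) h0 := hhD.sub hhD.condExp
  have z0 : ν[h0 | MeasurableSpace.invariants σ] =ᵐ[ν] 0 := by
    refine (condExp_sub hhD.integrable integrable_condExp _).trans ?_
    rw [condExp_of_stronglyMeasurable hI stronglyMeasurable_condExp integrable_condExp, sub_self]
  have s2 : MeasurableSet {y | ‖h0 y‖ ≤ D + D} := measurableSet_le m0'.norm measurable_const
  set h2 : Y → ℂ := {y | ‖h0 y‖ ≤ D + D}.indicator h0 with hh2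
  have m2 : Measurable h2 := m0'.indicator s2
  have e2 : h2 =ᵐ[ν] h0 := b0.2.mono fun y hy =>
    Set.indicator_of_mem (s := {y | ‖h0 y‖ ≤ D + D}) hy _
  have b2 : ∀ y, ‖h2 y‖ ≤ D + D := fun y => by
    by_cases hy : y ∈ {y | ‖h0 y‖ ≤ D + D}
    · rw [hh2, Set.indicator_of_mem hy]; exact hy
    · rw [hh2, Set.indicator_of_notMem hy, norm_zero]; linarith
  have hg0 : Bd μ (D + D) fun x => g x - (μ[g | MeasurableSpace.invariants S]) x :=
    hgD.sub hgD.condExp
  have e0 : (fun x => g x - (μ[g | MeasurableSpace.invariants S]) x) =ᵐ[μ] fun x => h2 (π x) := by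
    filter_upwards [e, condExp_congr_ae (m := MeasurableSpace.invariants S) e,
      gen_inv hS hσ hπ hc hhD, hπ.quasiMeasurePreserving.ae e2] with x x1 x2 x3 x4
    rw [x1, x2, x3, x4]
  refine conv_of_null hT hS (hfC.mono (le_max_left C D)) (hgD.mono (le_max_right C D)) ?_
  refine thmb_null_left hT hS hg0 hfC.memLp fun ε hε => ?_
  obtain ⟨k, ζ, φ, h1, h3, h4⟩ := thmb_simple hfC.memLp hε
  refine ⟨_, h3, h4, thmb_null_right hT hS (thmb_bd h1 φ) hg0.memLp fun δ hδ =>
    ⟨fun x => h2 (π x), (hg0.congr e0).memLp, by rw [L2_congr e0, sub_self, norm_zero]; exact hδ.le,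
      ae_block hT hS hZ h1 φ (m2.comp hπ.measurable) (fun x => b2 (π x)) ?_⟩⟩
  intro la B K c hla hB hcB
  obtain ⟨x0⟩ := nonempty_of_isProbabilityMeasure μ
  have hB0 : 0 ≤ B := (norm_nonneg _).trans (hcB 0 x0)
  have s3 : MeasurableSet {y | ∀ j, ‖c j * h2 y‖ ≤ B} := by
    rw [Set.ofPred_forall]
    exact MeasurableSet.iInter fun j => measurableSet_le (m2.const_mul _).norm measurable_const
  set h3' : Y → ℂ := {y | ∀ j, ‖c j * h2 y‖ ≤ B}.indicator h2 with hh3
  have m3 : Measurable h3' := m2.indicator s3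
  have e3 : ∀ x, h3' (π x) = h2 (π x) := fun x =>
    Set.indicator_of_mem (s := {y | ∀ j, ‖c j * h2 y‖ ≤ B}) (fun j => hcB j x) _
  have e4 : h3' =ᵐ[ν] h0 := by
    filter_upwards [hae s3 (Eventually.of_forall fun x j => hcB j x), e2] with y y1 y2
    rw [hh3, Set.indicator_of_mem (s := {y | ∀ j, ‖c j * h2 y‖ ≤ B}) y1, y2]
  have b3 : ∀ y, ‖h3' y‖ ≤ D + D := fun y => (norm_indicator_le_norm_self _ _).trans (b2 y)
  have b4 : ∀ j y, ‖c j * h3' y‖ ≤ B := fun j y => by
    by_cases hy : y ∈ {y | ∀ j, ‖c j * h2 y‖ ≤ B}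
    · rw [hh3, Set.indicator_of_mem hy]; exact hy j
    · rw [hh3, Set.indicator_of_notMem hy, mul_zero, norm_zero]; exact hB0
  filter_upwards [ae_chernoff hσ.measurable H m3 ((condExp_congr_ae e4).trans z0) b3 la B K c hla
    hB b4] with N hN
  refine le_trans (le_of_eq ?_) hN
  congr 1
  funext n
  have mF : Measurable fun y =>
      Real.exp (la * (∑ j ∈ range K, c j * h3' (σ^[a (n + j)] y)).re) :=
    ((Complex.measurable_re.comp (Finset.measurable_sum _ fun j _ =>
      (m3.comp (hσ.measurable.iterate _)).const_mul _)).const_mul la).exp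
  rw [← hπ.map_eq, integral_map hπ.measurable.aemeasurable mF.aestronglyMeasurable]
  simp only [← (hc.iterate_right _).eq, e3]

end Factor

/-- Arbitrary probability space, `g` measurable for a countably generated sub-σ-algebra. -/
theorem ae_gen {X : Type*} (m : MeasurableSpace X) [hcg : MeasurableSpace.CountablyGenerated X]
    [m0 : MeasurableSpace X] {μ : Measure X} [IsProbabilityMeasure μ] {S : X → X}
    (hS : MeasurePreserving S μ μ) (hm : m ≤ m0) :
    ∀ᵐ c : ℝ, 0 < c → c < 1 / 2 → ∀ T : X → X, MeasurePreserving T μ μ → ZeroEnt μ T →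
      ∀ f g : X → ℂ, MemLp f ⊤ μ → MemLp g ⊤ μ → AEStronglyMeasurable[m] g μ →
        Conv μ T S (fun n : ℕ => ⌊G c n⌋₊) f g := by
  classical
  set A : ℕ → Set X := @MeasurableSpace.natGeneratingSequence X m hcg with hA
  have hAm : ∀ k, MeasurableSet[m0] (A k) := fun k =>
    hm _ (@MeasurableSpace.measurableSet_natGeneratingSequence X m hcg k)
  let π : X → ℕ → ℕ → Bool := fun x j k => decide (S^[j] x ∈ A k)
  let σ : (ℕ → ℕ → Bool) → ℕ → ℕ → Bool := fun y j => y (j + 1)
  have hπm : Measurable π := measurable_pi_lambda _ fun j => measurable_pi_lambda _ fun k => by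
    refine measurable_to_bool ?_
    have : (fun x => decide (S^[j] x ∈ A k)) ⁻¹' {true} = S^[j] ⁻¹' A k := by
      ext x; simp
    rw [this]
    exact hS.measurable.iterate j (hAm k)
  have hσm : Measurable σ := measurable_pi_lambda _ fun j => measurable_pi_apply (j + 1)
  have hc : Function.Semiconj π S σ := fun x => rfl
  have : IsProbabilityMeasure (μ.map π) := Measure.isProbabilityMeasure_map hπm.aemeasurable
  have hπ : MeasurePreserving π μ (μ.map π) := ⟨hπm, rfl⟩
  have hσ : MeasurePreserving σ (μ.map π) (μ.map π) := ⟨hσm, by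
    rw [Measure.map_map hσm hπm, ← hc.comp_eq, ← Measure.map_map hπm hS.measurable, hS.map_eq]⟩
  have hle : m ≤ MeasurableSpace.comap π inferInstance := by
    rw [← @MeasurableSpace.generateFrom_natGeneratingSequence X m hcg]
    refine MeasurableSpace.generateFrom_le ?_
    rintro _ ⟨k, rfl⟩
    have hk : Measurable fun y : ℕ → ℕ → Bool => y 0 k :=
      (measurable_pi_apply k).comp (measurable_pi_apply 0)
    refine ⟨(fun y => y 0 k) ⁻¹' {true}, hk (measurableSet_singleton true), ?_⟩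
    ext x
    simp [π, hA]
  filter_upwards [ae_dec hσ] with c hc' h1 h2 T hT hZ f g hf hg hgm
  obtain ⟨h, hh, e⟩ := (hgm.stronglyMeasurable_mk.mono hle).exists_eq_measurable_comp
  exact gen_factor hT hZ hS hσ hπ hc (hc' h1 h2) hf hg hh.measurable
    (hgm.ae_eq_mk.trans (Eventually.of_forall fun x => congrFun e x))

end Pool.Agent.Lib.MP_1db5af_an
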