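import Pool.Agent.Lib.MP_1db5af_an.Ae.Alg

set_option autoImplicit false

namespace Pool.Agent.Lib.MP_1db5af_an

open MeasureTheory Filter Topology ComplexConjugate Finset InnerProductSpace

variable {X : Type*} {m m1 : MeasurableSpace X} [m0 : MeasurableSpace X] {μ : Measure X}
  [IsProbabilityMeasure μ] {S : X → X} {a : ℕ → ℕ} {C : ℝ}

/-- Finite sums of bounded eigenfunctions. -/
def KroTp (μ : Measure X) (S : X → X) (u : X → ℂ) : Prop :=
  ∃ (ι : Type) (_ : Fintype ι) (v : ι → X → ℂ) (D : ℝ), (∀ l, Bd μ D (v l) ∧ Eig μ S (v l)) ∧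
    u = fun x => ∑ l, v l x

omit [IsProbabilityMeasure μ] in
theorem kro_iff {g : X → ℂ} : Appr μ (Eig μ S) g ↔
    ∀ ε : ℝ, 0 < ε → ∃ u, KroTp μ S u ∧ ‖L2 μ g - L2 μ u‖ ≤ ε := by
  refine ⟨fun h ε hε => ?_, fun h ε hε => ?_⟩
  · obtain ⟨n, u, D, h1, h2⟩ := h ε hε
    exact ⟨_, ⟨Fin n, inferInstance, u, D, h1, rfl⟩, h2⟩
  · obtain ⟨_, ⟨ι, _, v, D, h1, rfl⟩, h2⟩ := h ε hε
    refine ⟨_, fun l => v ((Fintype.equivFin ι).symm l), D, fun l => h1 _, ?_⟩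
    have e : (fun x => ∑ l, v ((Fintype.equivFin ι).symm l) x) = fun x => ∑ l, v l x :=
      funext fun x => Equiv.sum_comp (Fintype.equivFin ι).symm fun l => v l x
    rwa [e]

omit [IsProbabilityMeasure μ] in
theorem kro_tp_bd {u : X → ℂ} (h : KroTp μ S u) : ∃ B, Bd μ B u := by
  obtain ⟨ι, _, v, D, h1, rfl⟩ := h
  exact ⟨_, Bd.sum univ fun l _ => (h1 l).1⟩

omit [IsProbabilityMeasure μ] in
theorem kro_tp_one {u : X → ℂ} {D : ℝ} (h1 : Bd μ D u) (h2 : Eig μ S u) : KroTp μ S u :=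
  ⟨Unit, inferInstance, fun _ => u, D, fun _ => ⟨h1, h2⟩, by simp⟩

omit [IsProbabilityMeasure μ] in
theorem kro_tp_add {u u' : X → ℂ} (h : KroTp μ S u) (h' : KroTp μ S u') :
    KroTp μ S fun x => u x + u' x := by
  obtain ⟨ι, _, v, D, h1, rfl⟩ := h
  obtain ⟨ι', _, v', D', h1', rfl⟩ := h'
  refine ⟨ι ⊕ ι', inferInstance, Sum.elim v v', max D D', ?_, by simp⟩
  rintro (l | l)
  · exact ⟨(h1 l).1.mono (le_max_left _ _), (h1 l).2⟩
  · exact ⟨(h1' l).1.mono (le_max_right _ _), (h1' l).2⟩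

omit [IsProbabilityMeasure μ] in
theorem kro_tp_mul {u u' : X → ℂ} (h : KroTp μ S u) (h' : KroTp μ S u') :
    KroTp μ S fun x => u x * u' x := by
  obtain ⟨ι, _, v, D, h1, rfl⟩ := h
  obtain ⟨ι', _, v', D', h1', rfl⟩ := h'
  refine ⟨ι × ι', inferInstance, fun l x => v l.1 x * v' l.2 x, D * D',
    fun l => ⟨(h1 _).1.mul (h1' _).1, ?_⟩, by simp only [Fintype.sum_prod_type, sum_mul_sum]⟩
  obtain ⟨θ, e⟩ := (h1 l.1).2
  obtain ⟨θ', e'⟩ := (h1' l.2).2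
  refine ⟨θ + θ', ?_⟩
  filter_upwards [e, e'] with x e1 e2
  rw [e1, e2, spec_fourier_arg_add]
  ring

omit [IsProbabilityMeasure μ] in
theorem kro_tp_star {u : X → ℂ} (h : KroTp μ S u) : KroTp μ S fun x => conj (u x) := by
  obtain ⟨ι, _, v, D, h1, rfl⟩ := h
  refine ⟨ι, inferInstance, fun l x => conj (v l x), D, fun l => ⟨(h1 _).1.star, ?_⟩,
    by simp only [map_sum]⟩
  obtain ⟨θ, e⟩ := (h1 l).2
  refine ⟨-θ, ?_⟩
  filter_upwards [e] with x e1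
  rw [e1, spec_fourier_arg_neg, fourier_neg, map_mul]

omit [IsProbabilityMeasure μ] in
theorem kro_of_eig {u : X → ℂ} {D : ℝ} (h1 : Bd μ D u) (h2 : Eig μ S u) : Kro μ S u :=
  ⟨⟨D, h1⟩, kro_iff.2 fun ε hε => ⟨u, kro_tp_one h1 h2, by simpa using hε.le⟩⟩

theorem kro_norm_star {u : X → ℂ} (h : Bd μ C u) : ‖L2 μ fun x => conj (u x)‖ = ‖L2 μ u‖ := by
  rw [← sq_eq_sq₀ (norm_nonneg _) (norm_nonneg _), norm_L2_sq h.star.memLp, norm_L2_sq h.memLp]
  simp only [Complex.norm_conj]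

theorem ae_kro_alg (hS : MeasurePreserving S μ μ) : Alg μ (Kro μ S) := by
  have _ := hS
  refine ⟨fun g h => h.1, fun c => kro_of_eig (Bd.const c) ⟨0, Eventually.of_forall fun x => by simp⟩,
    ?_, ?_, ?_, ?_⟩
  · rintro g g' ⟨⟨C, hC⟩, h⟩ ⟨⟨C', hC'⟩, h'⟩
    refine ⟨⟨_, hC.add hC'⟩, kro_iff.2 fun ε hε => ?_⟩
    obtain ⟨u, h1, h2⟩ := kro_iff.1 h (ε / 2) (by positivity)
    obtain ⟨u', h1', h2'⟩ := kro_iff.1 h' (ε / 2) (by positivity)
    obtain ⟨B, hB⟩ := kro_tp_bd h1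
    obtain ⟨B', hB'⟩ := kro_tp_bd h1'
    refine ⟨_, kro_tp_add h1 h1', ?_⟩
    rw [L2_add hC.memLp hC'.memLp, L2_add hB.memLp hB'.memLp, add_sub_add_comm]
    exact (norm_add_le _ _).trans (by linarith)
  · rintro g g' ⟨⟨C, hC⟩, h⟩ ⟨⟨C', hC'⟩, h'⟩
    refine ⟨⟨_, hC.mul hC'⟩, kro_iff.2 fun ε hε => ?_⟩
    have hC0 := hC'.nonneg
    obtain ⟨u, h1, h2⟩ := kro_iff.1 h (ε / (2 * (C' + 1))) (by positivity)
    obtain ⟨B, hB⟩ := kro_tp_bd h1
    have hB0 := hB.nonneg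
    obtain ⟨u', h1', h2'⟩ := kro_iff.1 h' (ε / (2 * (B + 1))) (by positivity)
    obtain ⟨B', hB'⟩ := kro_tp_bd h1'
    refine ⟨_, kro_tp_mul h1 h1', ?_⟩
    have e : (fun x => g x * g' x - u x * u' x) =
        fun x => g' x * (g x - u x) + u x * (g' x - u' x) := by funext x; ring
    rw [← L2_sub (hC.mul hC').memLp (hB.mul hB').memLp, e,
      L2_add (hC'.mul (hC.sub hB)).memLp (hB.mul (hC'.sub hB')).memLp]
    have e1 := hC'.norm_L2_mul (hC.sub hB).memLp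
    have e2 := hB.norm_L2_mul (hC'.sub hB').memLp
    rw [L2_sub hC.memLp hB.memLp] at e1
    rw [L2_sub hC'.memLp hB'.memLp] at e2
    have e3 : C' * ‖L2 μ g - L2 μ u‖ ≤ ε / 2 :=
      calc _ ≤ (C' + 1) * (ε / (2 * (C' + 1))) :=
            mul_le_mul (by linarith) h2 (norm_nonneg _) (by positivity)
        _ = ε / 2 := by field_simp
    have e4 : B * ‖L2 μ g' - L2 μ u'‖ ≤ ε / 2 :=
      calc _ ≤ (B + 1) * (ε / (2 * (B + 1))) :=
            mul_le_mul (by linarith) h2' (norm_nonneg _) (by positivity)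
        _ = ε / 2 := by field_simp
    exact (norm_add_le _ _).trans (by linarith)
  · rintro g ⟨⟨C, hC⟩, h⟩
    refine ⟨⟨_, hC.star⟩, kro_iff.2 fun ε hε => ?_⟩
    obtain ⟨u, h1, h2⟩ := kro_iff.1 h ε hε
    obtain ⟨B, hB⟩ := kro_tp_bd h1
    refine ⟨_, kro_tp_star h1, ?_⟩
    rw [← L2_sub hC.memLp hB.memLp, ← kro_norm_star (hC.sub hB)] at h2
    rw [← L2_sub hC.star.memLp hB.star.memLp]
    simpa only [map_sub] using h2
  · intro g C hC h
    refine ⟨⟨_, hC⟩, kro_iff.2 fun ε hε => ?_⟩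
    obtain ⟨u, h1, h2⟩ := h (ε / 2) (by positivity)
    obtain ⟨w, h3, h4⟩ := kro_iff.1 h1.2 (ε / 2) (by positivity)
    exact ⟨w, h3, (norm_sub_le_norm_sub_add_norm_sub _ (L2 μ u) _).trans (by linarith)⟩

theorem ae_kro_indep (hS : Ergodic S μ) (ha : Weyl a) {J : Finset ℕ} {g : ℕ → X → ℂ}
    (hg : ∀ j ∈ J, Bd μ C (g j) ∧ Kro μ S (g j)) : Indep μ S a J g := by
  exact tw_indep_appr hS.toMeasurePreserving (P := Eig μ S)
    (fun g C h => indep_eigen hS ha (fun j hj => (h j hj).1) fun j hj => (h j hj).2)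
    fun j hj => ⟨(hg j hj).1, (hg j hj).2.2⟩

theorem ae_wk_of_orth (hS : MeasurePreserving S μ μ) {c : X → ℂ} (hc : Bd μ C c)
    (h : ∀ (u : X → ℂ) (D : ℝ), Bd μ D u → Eig μ S u → ∫ x, c x * conj (u x) ∂μ = 0) :
    Wk fun l => L2 μ fun x => c (S^[l] x) := by
  obtain ⟨σ, hσf, hσ⟩ := herglotz (Kp hS) (L2 μ c)
  obtain ⟨ρ, hρf, hρ⟩ := herglotz (Kp hS) (L2 μ fun x => conj (c x))
  have h0 : ∀ θ, σ.real {θ} ≤ 0 := by
    intro θ
    obtain ⟨p, h1, -, h3, h4⟩ := eigen_proj hS le_rfl hS.measurable hc hc.1 θ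
    have hb : ∀ l : ℕ, Bd μ (‖conj (fourier l θ)‖ * C) fun x => conj (fourier l θ) * c (S^[l] x) :=
      fun l => (Bd.const _).mul (hc.iter hS l)
    have hb' : ∀ l : ℕ, Bd μ C fun x => conj (fourier l θ) * c (S^[l] x) := fun l => by
      simpa only [Complex.norm_conj, norm_fourier, one_mul] using hb l
    have h5 := Tendsto.inner (𝕜 := ℂ) (tendsto_const_nhds (x := L2 μ c)) h4
    have h6 : ⟪L2 μ c, L2 μ p⟫_ℂ = 0 := by
      rw [← inner_conj_symm, inner_L2 h1.memLp hc.memLp, h p C h1 ⟨θ, h3⟩, map_zero]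
    have h7 : ∀ M, ⟪L2 μ c, L2 μ fun x => av (fun l => conj (fourier l θ) * c (S^[l] x)) M⟫_ℂ =
        av (fun l : ℕ => conj (fourier l θ) * ∫ t, fourier l t ∂σ) M := fun M => by
      rw [inner_L2 hc.memLp (Bd.av hc.nonneg hb' M).memLp]
      simp only [av, smul_mul_assoc, sum_mul]
      rw [integral_smul, integral_finsetSum _ fun l _ => ((hb' l).mul hc.star).integrable]
      congr 1
      refine sum_congr rfl fun l _ => ?_
      rw [← hσ l, Kp_iter hS hc.memLp, inner_L2 hc.memLp (hc.iter hS l).memLp,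
        ← integral_const_mul]
      simp only [mul_assoc]
    simp only [h6, h7] at h5
    have h8 := tendsto_nhds_unique (tw_atom σ θ) h5
    exact (Complex.ofReal_eq_zero.1 h8).le
  unfold Wk
  rw [NormedAddGroup.tendsto_nhds_zero]
  intro δ hδ
  filter_upwards [tw_small hS hc hσ h0 (multi_spec hS hc.star hρ) (half_pos hδ)] with Λ hΛ
  rw [Real.norm_of_nonneg (av_nonneg (fun _ => av_nonneg (fun _ => sq_nonneg _) _) _)]
  refine lt_of_le_of_lt (le_of_eq ?_) (hΛ.trans_lt (by linarith))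
  simp only [av, smul_eq_mul, mul_sum, Complex.re_sum]
  refine sum_congr rfl fun l _ => sum_congr rfl fun l' _ => ?_
  have e : ∫ x, conj (c (S^[l] x)) * conj (conj (c (S^[l'] x))) ∂μ =
      conj (∫ x, c (S^[l] x) * conj (c (S^[l'] x)) ∂μ) := by
    rw [← integral_conj]
    simp only [map_mul]
  rw [norm_inner_symm, inner_L2 (hc.iter hS l').memLp (hc.iter hS l).memLp, e,
    Complex.conj_ofReal, Complex.mul_conj']
  norm_cast
  ring

theorem kro_split_aux (hS : MeasurePreserving S μ μ) (hm : m ≤ m0)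
    (h2 : ∀ (g : X → ℂ) (C : ℝ), Bd μ C g → AEStronglyMeasurable[m] g μ → Kro μ S g)
    (h3 : ∀ g : X → ℂ, Kro μ S g → AEStronglyMeasurable[m] g μ) {g : X → ℂ} (hg : Bd μ C g) :
    ∃ p : X → ℂ, Bd μ C p ∧ Kro μ S p ∧ ∫ x, p x ∂μ = ∫ x, g x ∂μ ∧
      Wk fun l => L2 μ fun x => g (S^[l] x) - p (S^[l] x) := by
  have hp : Bd μ C (μ[g | m]) := hg.condExp
  have hpm : AEStronglyMeasurable[m] (μ[g | m]) μ := stronglyMeasurable_condExp.aestronglyMeasurable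
  have hw := ae_wk_of_orth hS (hg.sub hp) fun u D hu he => by
    have e := tw_int_condExp hm hu.star (tw_aesm_conj (h3 u (kro_of_eig hu he))) hg
    rw [← sub_eq_zero, ← integral_sub (hu.star.mul hg).integrable (hu.star.mul hp).integrable] at e
    refine Eq.trans (integral_congr_ae (Eventually.of_forall fun x => ?_)) e
    ring
  exact ⟨μ[g | m], hp, h2 _ C hp hpm, integral_condExp hm, hw⟩

theorem ae_kro_split (hS : MeasurePreserving S μ μ) {g : X → ℂ} (hg : Bd μ C g) :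
    ∃ p : X → ℂ, Bd μ C p ∧ Kro μ S p ∧ ∫ x, p x ∂μ = ∫ x, g x ∂μ ∧
      Wk fun l => L2 μ fun x => g (S^[l] x) - p (S^[l] x) := by
  obtain ⟨m', hm1, hm2, hm3⟩ := ae_alg_sigma (m1 := m0) le_rfl (ae_kro_alg hS)
  have hm : m' ≤ m0 := fun s hs => ((hm1 s).1 hs).1
  exact @kro_split_aux X m' m0 μ _ S C hS hm hm2 (fun u hu => hm3 u hu hu.1.choose_spec.1) g hg

end Pool.Agent.Lib.MP_1db5af_an
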