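import Pool.Agent.Lib.MP_1db5af_an.Ae.OpA

set_option autoImplicit false

namespace Pool.Agent.Lib.MP_1db5af_an

open MeasureTheory Filter Topology ComplexConjugate Finset InnerProductSpace

variable {X : Type*} {m m1 : MeasurableSpace X} [m0 : MeasurableSpace X] {μ : Measure X}
  [IsProbabilityMeasure μ] {S : X → X} {a : ℕ → ℕ} {C : ℝ}

omit [IsProbabilityMeasure μ] in
theorem opb_mul {φ : X → ℂ} {D : ℝ} (hφ : Bd μ D φ) :
    ∃ M : Lp ℂ 2 μ →L[ℂ] Lp ℂ 2 μ, ∀ v, M v = L2 μ fun x => φ x * v x := by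
  have hp := fun v : Lp ℂ 2 μ => hφ.memLp_mul (Lp.memLp v)
  refine ⟨LinearMap.mkContinuous ⟨⟨fun v => L2 μ fun x => φ x * v x, fun v w => ?_⟩,
    fun c v => ?_⟩ D fun v => ?_, fun v => rfl⟩
  · rw [← L2_add (hp v) (hp w)]
    refine L2_congr ?_
    filter_upwards [Lp.coeFn_add v w] with x e
    rw [e, Pi.add_apply, mul_add]
  · rw [RingHom.id_apply, ← L2_mul c (hp v)]
    refine L2_congr ?_
    filter_upwards [Lp.coeFn_smul c v] with x e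
    rw [e, Pi.smul_apply, smul_eq_mul, mul_left_comm]
  · have h := hφ.norm_L2_mul (Lp.memLp v)
    rwa [L2_Lp] at h

theorem opb_E (hm : m ≤ m0) : ∃ E : Lp ℂ 2 μ →L[ℂ] Lp ℂ 2 μ,
    (∀ v, E v =ᵐ[μ] μ[v | m]) ∧ ∀ v w, ⟪E v, w⟫_ℂ = ⟪v, E w⟫_ℂ := by
  refine ⟨(lpMeas ℂ ℂ m 2 μ).subtypeL ∘L condExpL2 ℂ ℂ hm, fun v => ?_,
    fun v w => inner_condExpL2_left_eq_right hm⟩
  have h := (Lp.memLp v).condExpL2_ae_eq_condExp (𝕜 := ℂ) hm
  rwa [Lp.toLp_coeFn] at h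

theorem opb_B (hm : m ≤ m0) {Φ : X → ℂ} {D : ℝ} (hΦ : Bd μ D Φ) :
    ∃ B : Lp ℂ 2 μ →L[ℂ] Lp ℂ 2 μ,
      (∀ v : Lp ℂ 2 μ, AEStronglyMeasurable[m] v μ → B v = L2 μ fun x => v x * Φ x) ∧
      (∀ v, AEStronglyMeasurable[m] (ContinuousLinearMap.adjoint B v) μ) ∧
      (∀ (v : Lp ℂ 2 μ) (D' : ℝ), Bd μ D' v → Bd μ (D * D') (B v)) ∧
      ∀ (v : Lp ℂ 2 μ) (D' : ℝ), Bd μ D' v →
        Bd μ (D * D') (ContinuousLinearMap.adjoint B v) := by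
  obtain ⟨E, hE, hE'⟩ := opb_E (μ := μ) hm
  obtain ⟨M, hM⟩ := opb_mul hΦ
  obtain ⟨M', hM'⟩ := opb_mul hΦ.star
  have bE : ∀ (v : Lp ℂ 2 μ) (D' : ℝ), Bd μ D' v → Bd μ D' (E v) := fun v D' h =>
    h.condExp.congr (hE v).symm
  have ad : E ∘L M' = ContinuousLinearMap.adjoint (M ∘L E) := by
    refine (ContinuousLinearMap.eq_adjoint_iff _ _).2 fun v w => ?_
    rw [ContinuousLinearMap.comp_apply, ContinuousLinearMap.comp_apply, hE', hM', hM]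
    conv_lhs => rw [← L2_Lp (E w)]
    conv_rhs => rw [← L2_Lp v]
    rw [inner_L2 (hΦ.star.memLp_mul (Lp.memLp v)) (Lp.memLp _),
      inner_L2 (Lp.memLp v) (hΦ.memLp_mul (Lp.memLp _))]
    refine integral_congr_ae (Eventually.of_forall fun x => ?_)
    simp only [map_mul, Complex.conj_conj]
    ring
  refine ⟨M ∘L E, fun v hv => ?_, fun v => ?_, fun v D' h => ?_, fun v D' h => ?_⟩
  · rw [ContinuousLinearMap.comp_apply, hM]
    refine L2_congr ?_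
    filter_upwards [hE v, condExp_of_aestronglyMeasurable' hm hv
      ((Lp.memLp v).integrable one_le_two)] with x e1 e2
    rw [e1, e2, mul_comm]
  · rw [← ad]
    exact stronglyMeasurable_condExp.aestronglyMeasurable.congr (hE _).symm
  · rw [ContinuousLinearMap.comp_apply, hM]
    have h1 := hΦ.mul (bE v D' h)
    exact h1.congr (L2_coe h1.memLp).symm
  · rw [← ad, ContinuousLinearMap.comp_apply, hM']
    have h1 := hΦ.star.mul h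
    exact bE _ _ (h1.congr (L2_coe h1.memLp).symm)

omit [IsProbabilityMeasure μ] in
theorem opb_adjoin {s : Set (Lp ℂ 2 μ →L[ℂ] Lp ℂ 2 μ)}
    (hs : ∀ W ∈ s, ∃ κ : ℝ, ∀ (v : Lp ℂ 2 μ) (D' : ℝ), Bd μ D' v → Bd μ (κ * D') (W v))
    {W : Lp ℂ 2 μ →L[ℂ] Lp ℂ 2 μ} (hW : W ∈ Algebra.adjoin ℂ s) :
    ∃ κ : ℝ, ∀ (v : Lp ℂ 2 μ) (D' : ℝ), Bd μ D' v → Bd μ (κ * D') (W v) := by
  induction hW using Algebra.adjoin_induction with
  | mem W h => exact hs W h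
  | algebraMap c =>
    refine ⟨‖c‖, fun v D' h => ((Bd.const c).mul h).congr ?_⟩
    rw [ContinuousLinearMap.algebraMap_apply]
    exact (Lp.coeFn_smul c v).symm
  | add W W' _ _ h1 h2 =>
    obtain ⟨κ, h1⟩ := h1
    obtain ⟨κ', h2⟩ := h2
    refine ⟨κ + κ', fun v D' h => ?_⟩
    rw [add_mul]
    exact ((h1 v D' h).add (h2 v D' h)).congr (Lp.coeFn_add _ _).symm
  | mul W W' _ _ h1 h2 =>
    obtain ⟨κ, h1⟩ := h1
    obtain ⟨κ', h2⟩ := h2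
    refine ⟨κ * κ', fun v D' h => ?_⟩
    rw [mul_assoc]
    exact h1 _ _ (h2 v D' h)

theorem ae_cpt_op (hS : MeasurePreserving S μ μ) (hm : m ≤ m0) {g : X → ℂ} (hg : Cpt m μ S g)
    {ε : ℝ} (hε : 0 < ε) :
    ∃ (ι : Type) (_ : Fintype ι) (Φ : ι → X → ℂ) (D : ℝ) (T : ι → Lp ℂ 2 μ →L[ℂ] Lp ℂ 2 μ),
      (∀ k, Bd μ D (Φ k)) ∧ ∀ l : ℕ,
        (∀ k, Bd μ D (T k (L2 μ fun x => g (S^[l] x))) ∧
          AEStronglyMeasurable[m] (T k (L2 μ fun x => g (S^[l] x))) μ) ∧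
        ‖L2 μ (fun x => g (S^[l] x)) -
          L2 μ (fun x => ∑ k, T k (L2 μ fun y => g (S^[l] y)) x * Φ k x)‖ ≤ ε := by
  obtain ⟨⟨C, hC⟩, hg⟩ := hg
  obtain ⟨ι, _, Φ, D, hΦ, hg⟩ := hg (ε / 2) (half_pos hε)
  choose B b1 b2 b3 b4 using fun k => opb_B hm (hΦ k)
  obtain ⟨W, hW, hW'⟩ := ae_approx_op B (∑ _k : ι, D ^ 2) (half_pos hε)
  obtain ⟨κ, hκ⟩ := opb_adjoin (by
    rintro _ ⟨k, rfl⟩
    refine ⟨D * D, fun v D' h => ?_⟩
    rw [mul_assoc]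
    exact b3 k _ _ (b4 k v D' h)) hW
  refine ⟨ι, inferInstance, Φ, max D (D * (κ * C)),
    fun k => ContinuousLinearMap.adjoint (B k) ∘L W, fun k => (hΦ k).mono (le_max_left _ _),
    fun l => ?_⟩
  have hl := hC.iter hS l
  have hb := fun k => b4 k _ _ (hκ _ _ (hl.congr (L2_coe hl.memLp).symm))
  refine ⟨fun k => ⟨(hb k).mono (le_max_right _ _), b2 k _⟩, ?_⟩
  obtain ⟨h, h1, h2⟩ := hg l
  have e := hW' (L2 μ fun x => g (S^[l] x)) (fun k => L2 μ (h k)) (sum_le_sum fun k _ =>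
    pow_le_pow_left₀ (norm_nonneg _) (h1 k).1.norm_L2 2)
  have e1 : ∀ k, B k (L2 μ (h k)) = L2 μ fun x => h k x * Φ k x := fun k => by
    have c := L2_coe (h1 k).1.memLp
    rw [b1 k _ ((h1 k).2.congr c.symm)]
    exact L2_congr (c.mono fun x e => by simp only [e])
  simp only [e1] at e
  rw [← L2_sum _ fun k _ => ((h1 k).1.mul (hΦ k)).memLp, sum_congr rfl fun k _ => b1 k _ (b2 k _),
    ← L2_sum _ fun k _ => ((hb k).mul (hΦ k)).memLp] at e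
  exact e.trans (by linarith)

end Pool.Agent.Lib.MP_1db5af_an
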