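import Pool.Agent.Lib.MP_1db5af_an.Ae.Base
import Pool.Agent.Lib.MP_1db5af_an.Ae.OpB
import Pool.Agent.Lib.MP_1db5af_an.Ae.Cpt
import Pool.Agent.Lib.MP_1db5af_an.Ae.Kro

set_option autoImplicit false

namespace Pool.Agent.Lib.MP_1db5af_an

open MeasureTheory Filter Topology ComplexConjugate Finset InnerProductSpace

variable {X : Type*} {m m1 : MeasurableSpace X} [m0 : MeasurableSpace X] {μ : Measure X}
  [IsProbabilityMeasure μ] {S : X → X} {a : ℕ → ℕ} {C : ℝ}

theorem lift_aux (hS : MeasurePreserving S μ μ) (hm : m ≤ m0) (hJE : JE μ S a m) {J : Finset ℕ}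
    {i : ℕ} (hi : i ∈ J) {g : ℕ → X → ℂ} (hg : ∀ j ∈ J, Bd μ C (g j) ∧ Cpt m μ S (g j))
    (hW : Wk fun l => L2 μ fun x => g i (S^[l] x)) (R : Finset ℕ) :
    ∀ (Φ : ℕ → X → ℂ) (h : ℕ → ℕ → X → ℂ) (D : ℝ),
      (∀ j ∈ J, j ∉ R → Bd μ D (Φ j) ∧
        ∀ l, Bd μ D (h l j) ∧ AEStronglyMeasurable[m] (h l j) μ) →
      (i ∉ R → Wk fun l => L2 μ (h l i)) →
      Small μ S a J fun l j =>
        if j ∈ R then fun x => g j (S^[l] x) else fun x => h l j x * Φ j x := by
  induction R using Finset.induction_on with
  | empty =>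
    intro Φ h D h1 h2
    simp only [notMem_empty, if_false]
    exact ae_base hS hJE hi (fun j hj => (h1 j hj (notMem_empty j)).1)
      (fun l j hj => (h1 j hj (notMem_empty j)).2 l) (h2 (notMem_empty i))
  | insert j0 R hR ih =>
    intro Φ h D h1 h2
    by_cases hj0 : j0 ∈ J
    swap
    · have hne : ∀ j ∈ J, j ∈ insert j0 R ↔ j ∈ R := fun j hj => by
        have : j ≠ j0 := fun e => hj0 (e ▸ hj)
        simp [this]
      have := ih Φ h D (fun j hj hjR => h1 j hj fun h' => hjR ((hne j hj).1 h'))
        fun hiR => h2 fun h' => hiR ((hne i hi).1 h')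
      intro ε hε
      filter_upwards [this ε hε] with Λ hΛ
      filter_upwards [hΛ] with N hN
      refine le_of_eq_of_le ?_ hN
      congr 2
      funext l
      rw [cor_congr fun j hj => if_congr (hne j hj) rfl rfl]
    intro ε hε
    set v : ℕ → ℕ → X → ℂ := fun l j =>
      if j ∈ insert j0 R then fun x => g j (S^[l] x) else fun x => h l j x * Φ j x with hv
    have hvb : ∀ l, ∀ j ∈ J, Bd μ (max C (D * D)) (v l j) := fun l j hj => by
      by_cases e : j ∈ insert j0 R
      · simp only [hv, if_pos e]
        exact ((hg j hj).1.iter hS l).mono (le_max_left _ _)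
      · simp only [hv, if_neg e]
        exact (((h1 j hj e).2 l).1.mul (h1 j hj e).1).mono (le_max_right _ _)
    set K : ℝ := max C (D * D) ^ (J.card - 1) with hK
    have hK0 : 0 ≤ K := pow_nonneg (hvb 0 i hi).nonneg _
    obtain ⟨ι, hι, Φ', D', T, t1, t2⟩ := ae_cpt_op hS hm (hg j0 hj0).2
      (ε := ε / (2 * (K + 1))) (by positivity)
    set u : ι → ℕ → X → ℂ := fun k l x => T k (L2 μ fun y => g j0 (S^[l] y)) x * Φ' k x with hu
    have hub : ∀ k l, Bd μ (D' * D') (u k l) := fun k l => ((t2 l).1 k).1.mul (t1 k)
    have hs : ∀ k, Small μ S a J fun l => Function.update (v l) j0 (u k l) := fun k => by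
      have := ih (Function.update Φ j0 (Φ' k))
        (fun l => Function.update (h l) j0 (T k (L2 μ fun y => g j0 (S^[l] y)))) (max D D')
        (fun j hj hjR => by
          by_cases e : j = j0
          · subst e
            simp only [Function.update_self]
            exact ⟨(t1 k).mono (le_max_right _ _), fun l =>
              ⟨((t2 l).1 k).1.mono (le_max_right _ _), ((t2 l).1 k).2⟩⟩
          · simp only [Function.update_of_ne e]
            have h3 := h1 j hj fun h' => (mem_insert.1 h').elim e hjR
            exact ⟨h3.1.mono (le_max_left _ _), fun l =>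
              ⟨(h3.2 l).1.mono (le_max_left _ _), (h3.2 l).2⟩⟩)
        (fun hiR => by
          by_cases e : i = j0
          · subst e
            simp only [Function.update_self, L2_Lp]
            exact ae_wk_map (T k) hW
          · simp only [Function.update_of_ne e]
            exact h2 fun h' => (mem_insert.1 h').elim e hiR)
      convert this using 2 with l
      funext j
      by_cases e : j = j0
      · subst e
        simp only [Function.update_self, if_neg hR, hu]
      · simp only [Function.update_of_ne e, hv, mem_insert, e, false_or]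
    have hc : (0 : ℝ) < ε / (2 * (Fintype.card ι + 1)) := by positivity
    filter_upwards [eventually_all.2 fun k => hs k _ hc] with Λ hΛ
    filter_upwards [eventually_all.2 hΛ] with N hN
    have e1 : ∀ l, ‖cor μ S a J (v l) N -
        ∑ k, cor μ S a J (Function.update (v l) j0 (u k l)) N‖ ≤ ε / 2 := fun l => by
      have e2 := cor_update_sum (a := a) hS (hvb l) hj0 (univ : Finset ι) (fun _ => 1)
        (fun k _ => hub k l) N
      simp only [one_mul] at e2
      have e3 := cor_update_lip (a := a) hS (hvb l) hj0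
        (((hg j0 hj0).1.iter hS l).mono (le_max_left C (∑ _k : ι, D' * D')))
        ((Bd.sum univ fun k _ => hub k l).mono (le_max_right _ _)) N
      have e4 : Function.update (v l) j0 (fun x => g j0 (S^[l] x)) = v l :=
        Function.update_eq_self_iff.2 (by simp only [hv, mem_insert_self, if_true])
      rw [e2, e4] at e3
      refine e3.trans ((mul_le_mul_of_nonneg_left (t2 l).2 hK0).trans ?_)
      rw [mul_div_assoc', div_le_div_iff₀ (by positivity) two_pos]
      nlinarith
    have e5 := norm_av_le e1 Λ
    rw [av_sub, av_sum] at e5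
    have e6 : ‖∑ k, av (fun l => cor μ S a J (Function.update (v l) j0 (u k l)) N) Λ‖ ≤ ε / 2 := by
      refine (norm_sum_le _ _).trans ((sum_le_sum fun k _ => hN k).trans ?_)
      rw [sum_const, card_univ, nsmul_eq_mul, mul_div_assoc',
        div_le_div_iff₀ (by positivity) two_pos]
      nlinarith
    have e7 := norm_le_norm_add_norm_sub' (av (fun l => cor μ S a J (v l) N) Λ)
      (∑ k, av (fun l => cor μ S a J (Function.update (v l) j0 (u k l)) N) Λ)
    linarith

theorem ae_lift0 (hS : MeasurePreserving S μ μ) (hm : m ≤ m0) (hJE : JE μ S a m) {J : Finset ℕ}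
    {i : ℕ} (hi : i ∈ J) {g : ℕ → X → ℂ} (hg : ∀ j ∈ J, Bd μ C (g j) ∧ Cpt m μ S (g j))
    (hW : Wk fun l => L2 μ fun x => g i (S^[l] x)) : Tendsto (cor μ S a J g) atTop (𝓝 0) := by
  have h1 := lift_aux hS hm hJE hi hg hW J (fun _ _ => 0) (fun _ _ _ => 0) 0
    (fun j hj h => absurd hj h) fun h => absurd hi h
  rw [NormedAddGroup.tendsto_nhds_zero]
  intro ε hε
  obtain ⟨Λ, hΛ, hΛ0⟩ := ((h1 (ε / 2) (half_pos hε)).and (eventually_gt_atTop 0)).exists
  filter_upwards [hΛ] with N hN
  have e : ∀ l : ℕ, cor μ S a J (fun j => if j ∈ J then fun x => g j (S^[l] x)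
      else fun _ => (0 : ℂ) * 0) = cor μ S a J g := fun l =>
    (cor_congr fun j hj => if_pos hj).trans (tw_cor_iter hS (fun j hj => (hg j hj).1) l)
  simp only [e, av_const _ hΛ0] at hN
  linarith

theorem ae_je_cpt (hS : Ergodic S μ) (ha : Weyl a) (hm : m ≤ m0) (hJE : JE μ S a m)
    {J : Finset ℕ} {g : ℕ → X → ℂ} (hg : ∀ j ∈ J, Bd μ C (g j) ∧ Cpt m μ S (g j)) :
    Indep μ S a J g := by
  have hS' := hS.toMeasurePreserving
  suffices h : ∀ (R : Finset ℕ) (g : ℕ → X → ℂ) (C : ℝ), (∀ j ∈ J, Bd μ C (g j)) →
      (∀ j ∈ J, Cpt m μ S (g j)) → (∀ j ∈ J, j ∉ R → Kro μ S (g j)) → Indep μ S a J g from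
    h J g C (fun j hj => (hg j hj).1) (fun j hj => (hg j hj).2) fun j hj h => absurd hj h
  intro R
  induction R using Finset.induction_on with
  | empty => exact fun g C h1 _ he => ae_kro_indep hS ha fun j hj => ⟨h1 j hj, he j hj (by simp)⟩
  | insert i R hiR ih =>
    intro g C h1 h2 he
    by_cases hi : i ∈ J
    swap
    · exact ih g C h1 h2 fun j hj hjR => he j hj fun h =>
        (mem_insert.1 h).elim (fun h => hi (h ▸ hj)) hjR
    have hC : 0 ≤ C := (h1 i hi).nonneg
    have hup : ∀ p : X → ℂ, Cpt m μ S p → ∀ j ∈ J, Cpt m μ S (Function.update g i p j) := by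
      intro p hp j hj
      by_cases h : j = i
      · subst h; rwa [Function.update_self]
      · rw [Function.update_of_ne h]; exact h2 j hj
    obtain ⟨p, p1, p2, p3, p4⟩ := ae_kro_split hS' (h1 i hi)
    have p5 : Cpt m μ S p := ae_cpt_kro hS' p2
    have hp : Indep μ S a J (Function.update g i p) := by
      refine ih _ _ (tw_bd_update h1 i p1) (hup p p5) fun j hj hjR => ?_
      by_cases h : j = i
      · subst h; rwa [Function.update_self]
      · rw [Function.update_of_ne h]
        exact he j hj fun h' => (mem_insert.1 h').elim h hjR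
    have c1 := (h1 i hi).sub p1
    have c2 : Cpt m μ S fun x => g i x - p x := by
      have hA := ae_cpt_alg (m := m) hS'
      simpa only [neg_one_mul, ← sub_eq_add_neg] using
        hA.add _ _ (h2 i hi) (hA.mul _ _ (hA.const (-1)) p5)
    have hc : Indep μ S a J (Function.update g i fun x => g i x - p x) := by
      unfold Indep
      rw [tw_prod_update g hi, integral_sub (h1 i hi).integrable p1.integrable, p3, sub_self,
        mul_zero]
      refine ae_lift0 hS' hm hJE hi (fun j hj => ⟨tw_bd_update h1 i c1 j hj, hup _ c2 j hj⟩) ?_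
      simpa only [Function.update_self] using p4
    have := tw_indep_sum (a := a) hS' h1 hi (univ : Finset Bool)
      (φ := fun b => if b then fun x => g i x - p x else p) (D := C + C)
      (fun b _ => by
        cases b
        · exact p1.mono (by linarith)
        · exact c1)
      (fun b _ => by
        cases b
        · exact hp
        · exact hc)
    have e : (fun x => ∑ b : Bool, (if b then fun x => g i x - p x else p) x) = g i := by
      funext x
      simp
    rwa [e, Function.update_eq_self] at this

end Pool.Agent.Lib.MP_1db5af_an
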