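import Pool.Agent.Lib.MP_1db5af_an.Ae.Defs

set_option autoImplicit false

namespace Pool.Agent.Lib.MP_1db5af_an

open MeasureTheory Filter Topology ComplexConjugate Finset InnerProductSpace

variable {H : Type*} [NormedAddCommGroup H] [InnerProductSpace ℂ H]

theorem opa_id {ι : Type*} [Fintype ι] (y : ι → H) : ∃ (n : ℕ) (c : Fin n → ι → ℂ),
    ∀ z : ι → H, (∑ l, ∑ l', ⟪z l, z l'⟫_ℂ * ⟪y l', y l⟫_ℂ).re = ∑ i, ‖∑ l, c i l • z l‖ ^ 2 := by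
  have := FiniteDimensional.span_of_finite ℂ (Set.finite_range y)
  let e := stdOrthonormalBasis ℂ (Submodule.span ℂ (Set.range y))
  let y' : ι → Submodule.span ℂ (Set.range y) := fun l => ⟨y l, Submodule.subset_span ⟨l, rfl⟩⟩
  refine ⟨_, fun i l => ⟪y' l, e i⟫_ℂ, fun z => ?_⟩
  have h1 : ∀ l l', ⟪y l', y l⟫_ℂ = ∑ i, ⟪y' l', e i⟫_ℂ * ⟪e i, y' l⟫_ℂ := fun l l' =>
    (e.sum_inner_mul_inner (y' l') (y' l)).symm
  have h2 : ∑ l, ∑ l', ⟪z l, z l'⟫_ℂ * ⟪y l', y l⟫_ℂ =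
      ∑ i, ⟪∑ l, ⟪y' l, e i⟫_ℂ • z l, ∑ l, ⟪y' l, e i⟫_ℂ • z l⟫_ℂ := by
    simp only [h1, mul_sum, sum_inner]
    simp only [inner_sum, inner_smul_left, inner_smul_right, inner_conj_symm]
    refine Eq.trans (sum_congr rfl fun l _ => ?_) sum_comm
    refine Eq.trans sum_comm ?_
    exact sum_congr rfl fun i _ => sum_congr rfl fun l' _ => by ring
  rw [h2, Complex.re_sum]
  exact sum_congr rfl fun i _ => inner_self_eq_norm_sq (𝕜 := ℂ) _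

theorem opa_key {ι : Type*} [Fintype ι] (T : H →L[ℂ] H) (x y : ι → H) :
    (∑ l, ∑ l', ⟪T (x l), T (x l')⟫_ℂ * ⟪y l', y l⟫_ℂ).re ≤
      ‖T‖ ^ 2 * (∑ l, ∑ l', ⟪x l, x l'⟫_ℂ * ⟪y l', y l⟫_ℂ).re := by
  obtain ⟨n, c, h⟩ := opa_id y
  rw [h fun l => T (x l), h, mul_sum]
  refine sum_le_sum fun i _ => ?_
  simp only [← map_smul, ← map_sum, ← mul_pow]
  exact pow_le_pow_left₀ (norm_nonneg _) (T.le_opNorm _) 2

theorem opa_sq {ι : Type*} [Fintype ι] (x : ι → H) :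
    (∑ l, ∑ l', ⟪x l, x l'⟫_ℂ * ⟪x l', x l⟫_ℂ).re = ∑ l, ∑ l', ‖⟪x l, x l'⟫_ℂ‖ ^ 2 := by
  simp only [Complex.re_sum]
  refine sum_congr rfl fun l _ => sum_congr rfl fun l' _ => ?_
  rw [← inner_conj_symm (x l') (x l), Complex.mul_conj, Complex.ofReal_re,
    Complex.normSq_eq_norm_sq]

theorem opa_four {ι : Type*} [Fintype ι] (T : H →L[ℂ] H) (x : ι → H) :
    ∑ l, ∑ l', ‖⟪T (x l), T (x l')⟫_ℂ‖ ^ 2 ≤
      ‖T‖ ^ 2 * (‖T‖ ^ 2 * ∑ l, ∑ l', ‖⟪x l, x l'⟫_ℂ‖ ^ 2) := by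
  rw [← opa_sq fun l => T (x l), ← opa_sq x]
  refine (opa_key T x _).trans (mul_le_mul_of_nonneg_left ?_ (sq_nonneg _))
  refine le_of_eq_of_le ?_ (opa_key T x x)
  rw [sum_comm]
  simp only [mul_comm]

theorem ae_wk_map (T : H →L[ℂ] H) {v : ℕ → H} (hv : Wk v) : Wk fun l => T (v l) := by
  have h := hv.const_mul (‖T‖ ^ 2 * ‖T‖ ^ 2)
  rw [mul_zero] at h
  refine squeeze_zero (fun Λ => av_nonneg (fun l => av_nonneg (fun l' => sq_nonneg _) Λ) Λ)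
    (fun Λ => ?_) h
  have h1 := opa_four T fun l : Fin Λ => v l
  simp only [av, smul_eq_mul, ← mul_sum, sum_range]
  have h2 : (0 : ℝ) ≤ (Λ : ℝ)⁻¹ := by positivity
  calc _ ≤ _ := mul_le_mul_of_nonneg_left (mul_le_mul_of_nonneg_left h1 h2) h2
    _ = _ := by ring

theorem opa_sum {ι : Type*} [Fintype ι] (B : ι → H →L[ℂ] H) (h : ι → H) :
    ‖∑ k, B k (h k)‖ ^ 2 ≤ (∑ k, ‖B k‖ ^ 2) * ∑ k, ‖h k‖ ^ 2 :=
  (pow_le_pow_left₀ (norm_nonneg _) ((norm_sum_le _ _).trans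
    (sum_le_sum fun k _ => (B k).le_opNorm _)) 2).trans (sum_mul_sq_le_sq_mul_sq _ _ _)

theorem opa_sub (a b : H) (t : ℝ) :
    ‖a - (t : ℂ) • b‖ ^ 2 = ‖a‖ ^ 2 - 2 * t * (⟪a, b⟫_ℂ).re + t ^ 2 * ‖b‖ ^ 2 := by
  rw [norm_sub_sq (𝕜 := ℂ), inner_smul_right, norm_smul, mul_pow, Complex.norm_real,
    Real.norm_eq_abs, sq_abs]
  simp only [RCLike.re_to_complex, Complex.re_ofReal_mul]
  ring

theorem opa_contr [CompleteSpace H] {ι : Type*} [Fintype ι] (B : ι → H →L[ℂ] H) {t : ℝ}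
    (ht : 0 < t) (ht1 : t * ∑ k, ‖B k‖ ^ 2 ≤ 1) (w : H) :
    ‖w - (t : ℂ) • ∑ k, B k (ContinuousLinearMap.adjoint (B k) w)‖ ≤ ‖w‖ := by
  have h1 := opa_sum B fun k => ContinuousLinearMap.adjoint (B k) w
  have h2 : (⟪w, ∑ k, B k (ContinuousLinearMap.adjoint (B k) w)⟫_ℂ).re =
      ∑ k, ‖ContinuousLinearMap.adjoint (B k) w‖ ^ 2 := by
    rw [inner_sum, Complex.re_sum]
    refine sum_congr rfl fun k _ => ?_
    rw [← ContinuousLinearMap.adjoint_inner_left]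
    exact inner_self_eq_norm_sq (𝕜 := ℂ) _
  have h3 : 0 ≤ ∑ k, ‖ContinuousLinearMap.adjoint (B k) w‖ ^ 2 :=
    sum_nonneg fun k _ => sq_nonneg _
  refine (pow_le_pow_iff_left₀ (norm_nonneg _) (norm_nonneg _) two_ne_zero).1 ?_
  rw [opa_sub, h2]
  have h4 := mul_le_mul_of_nonneg_left h1 (sq_nonneg t)
  have h5 := mul_le_mul_of_nonneg_right ht1 (mul_nonneg ht.le h3)
  nlinarith [mul_nonneg ht.le h3]

theorem opa_step [CompleteSpace H] {ι : Type*} [Fintype ι] (B : ι → H →L[ℂ] H) {t : ℝ}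
    (ht : 0 < t) (ht1 : t * ∑ k, ‖B k‖ ^ 2 ≤ 1) (h : ι → H) :
    ∑ k, ‖h k - (t : ℂ) • ContinuousLinearMap.adjoint (B k) (∑ j, B j (h j))‖ ^ 2 ≤
      ∑ k, ‖h k‖ ^ 2 - t * ‖∑ j, B j (h j)‖ ^ 2 := by
  generalize hw : ∑ j, B j (h j) = w
  have h1 : ∑ k, (⟪h k, ContinuousLinearMap.adjoint (B k) w⟫_ℂ).re = ‖w‖ ^ 2 := by
    simp only [ContinuousLinearMap.adjoint_inner_right]
    rw [← Complex.re_sum, ← sum_inner, hw]
    exact inner_self_eq_norm_sq (𝕜 := ℂ) _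
  have h2 : ∑ k, ‖ContinuousLinearMap.adjoint (B k) w‖ ^ 2 ≤ (∑ k, ‖B k‖ ^ 2) * ‖w‖ ^ 2 := by
    rw [sum_mul]
    refine sum_le_sum fun k _ => ?_
    rw [← mul_pow, ← LinearIsometryEquiv.norm_map ContinuousLinearMap.adjoint (B k)]
    exact pow_le_pow_left₀ (norm_nonneg _) (ContinuousLinearMap.le_opNorm _ _) 2
  simp only [opa_sub, sum_add_distrib, sum_sub_distrib, ← mul_sum]
  rw [h1]
  have h4 := mul_le_mul_of_nonneg_left h2 (sq_nonneg t)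
  have h5 := mul_le_mul_of_nonneg_right ht1 (mul_nonneg ht.le (sq_nonneg ‖w‖))
  nlinarith

theorem ae_approx_op [CompleteSpace H] {ι : Type*} [Fintype ι] (B : ι → H →L[ℂ] H) (M : ℝ)
    {ε : ℝ} (hε : 0 < ε) :
    ∃ W ∈ Algebra.adjoin ℂ (Set.range fun k => B k ∘L ContinuousLinearMap.adjoint (B k)),
      ∀ (v : H) (h : ι → H), ∑ k, ‖h k‖ ^ 2 ≤ M →
        ‖v - ∑ k, B k (ContinuousLinearMap.adjoint (B k) (W v))‖ ≤ ‖v - ∑ k, B k (h k)‖ + ε := by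
  have hβ : 0 ≤ ∑ k, ‖B k‖ ^ 2 := sum_nonneg fun k _ => sq_nonneg _
  obtain ⟨t, ht, ht1⟩ : ∃ t : ℝ, 0 < t ∧ t * ∑ k, ‖B k‖ ^ 2 ≤ 1 :=
    ⟨(∑ k, ‖B k‖ ^ 2 + 1)⁻¹, by positivity, by
      rw [inv_mul_le_iff₀ (by positivity)]; linarith⟩
  obtain ⟨S, hS⟩ : ∃ S : H →L[ℂ] H, S = ∑ k, B k ∘L ContinuousLinearMap.adjoint (B k) := ⟨_, rfl⟩
  have hS1 : ∀ w, S w = ∑ k, B k (ContinuousLinearMap.adjoint (B k) w) := fun w => by
    rw [hS, _root_.sum_apply]; rfl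
  obtain ⟨R, hR⟩ : ∃ R : H →L[ℂ] H, R = 1 - (t : ℂ) • S := ⟨_, rfl⟩
  have hR1 : ∀ w, R w = w - (t : ℂ) • ∑ k, B k (ContinuousLinearMap.adjoint (B k) w) := fun w => by
    rw [hR, ← hS1]; rfl
  have h1 : ∀ (n : ℕ) w, ‖(R ^ n) w‖ ≤ ‖w‖ := fun n => by
    induction n with
    | zero => exact fun w => le_rfl
    | succ n ih =>
      intro w
      rw [pow_succ, mul_apply_eq_comp]
      exact (ih _).trans (hR1 w ▸ opa_contr B ht ht1 w)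
  have h2 : ∀ (n : ℕ) (h : ι → H),
      t * (n + 1) * ‖(R ^ n) (∑ k, B k (h k))‖ ^ 2 ≤ ∑ k, ‖h k‖ ^ 2 := fun n => by
    induction n with
    | zero =>
      intro h
      have h3 := (sum_nonneg fun k _ => sq_nonneg _).trans (opa_step B ht ht1 h)
      simp only [pow_zero, one_apply_eq_self, Nat.cast_zero, zero_add, mul_one]
      linarith
    | succ n ih =>
      intro h
      have h3 := (ih _).trans (opa_step B ht ht1 h)
      have h4 : ∑ k, B k (h k - (t : ℂ) • ContinuousLinearMap.adjoint (B k) (∑ j, B j (h j))) =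
          R (∑ j, B j (h j)) := by
        simp only [hR1, map_sub, map_smul, sum_sub_distrib, smul_sum]
      rw [h4, ← mul_apply_eq_comp, ← pow_succ] at h3
      have h5 := mul_le_mul_of_nonneg_left
        (pow_le_pow_left₀ (norm_nonneg _) (h1 (n + 1) (∑ j, B j (h j))) 2) ht.le
      rw [Nat.cast_succ]
      linarith
  obtain ⟨n, hn⟩ := exists_nat_gt (M / (t * ε ^ 2))
  rw [div_lt_iff₀ (by positivity)] at hn
  have hm : S ∈ Algebra.adjoin ℂ (Set.range fun k => B k ∘L ContinuousLinearMap.adjoint (B k)) :=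
    hS ▸ sum_mem fun k _ => Algebra.subset_adjoin ⟨k, rfl⟩
  refine ⟨(t : ℂ) • ∑ s ∈ range n, R ^ s, Subalgebra.smul_mem _ (sum_mem fun s _ => pow_mem
    (hR ▸ sub_mem (one_mem _) (Subalgebra.smul_mem _ hm _)) s) _, fun v h hh => ?_⟩
  have h3 : S * ((t : ℂ) • ∑ s ∈ range n, R ^ s) = 1 - R ^ n := by
    rw [← mul_neg_geom_sum, mul_smul_comm, ← smul_mul_assoc, hR, sub_sub_cancel]
  have h4 : ‖(R ^ n) (∑ k, B k (h k))‖ ≤ ε := by
    refine (pow_le_pow_iff_left₀ (norm_nonneg _) hε.le two_ne_zero).1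
      (le_of_mul_le_mul_left ((h2 n h).trans (hh.trans ?_)) (by positivity : 0 < t * (n + 1)))
    nlinarith [mul_pos ht (pow_pos hε 2)]
  rw [← hS1, ← mul_apply_eq_comp, h3, sub_apply,
    one_apply_eq_self, sub_sub_cancel]
  calc ‖(R ^ n) v‖ = ‖(R ^ n) (v - ∑ k, B k (h k)) + (R ^ n) (∑ k, B k (h k))‖ := by
        rw [← map_add, sub_add_cancel]
    _ ≤ _ := (norm_add_le _ _).trans (add_le_add (h1 n _) h4)

end Pool.Agent.Lib.MP_1db5af_an
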