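import Pool.Agent.Lib.MP_1db5af_an.Ae.Defs

set_option autoImplicit false

namespace Pool.Agent.Lib.MP_1db5af_an

open MeasureTheory Filter Topology ComplexConjugate Finset InnerProductSpace

variable {X : Type*} {m m1 : MeasurableSpace X} [m0 : MeasurableSpace X] {μ : Measure X}
  [IsProbabilityMeasure μ] {S : X → X} {a : ℕ → ℕ} {C : ℝ}

theorem rel_cond_comp (hS : MeasurePreserving S μ μ) (hm : m ≤ m0) (hc : m.comap S = m)
    {f : X → ℂ} (hf : Bd μ C f) :
    μ[fun x => f (S x) | m] =ᵐ[μ] fun x => (μ[f | m]) (S x) := by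
  have hSm : Measurable[m, m] S := measurable_iff_comap_le.2 hc.le
  have hE : Bd μ C (μ[f | m]) := hf.condExp
  refine (ae_eq_condExp_of_forall_setIntegral_eq hm (hf.comp hS).integrable
    (fun s _ _ => (hE.comp hS).integrable.integrableOn) (fun s hs _ => ?_)
    (aesm_iter hS hSm stronglyMeasurable_condExp.aestronglyMeasurable 1)).symm
  rw [← hc] at hs
  obtain ⟨t, ht, rfl⟩ := hs
  have h1 : ∀ {g : X → ℂ}, Bd μ C g → ∫ x in S ⁻¹' t, g (S x) ∂μ = ∫ x in t, g x ∂μ := by
    intro g hg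
    rw [← setIntegral_map (hm t ht) (hS.map_eq.symm ▸ hg.1) hS.aemeasurable, hS.map_eq]
  rw [h1 hE, h1 hf, setIntegral_condExp hm hf.integrable ht]

omit m0 in
theorem rel_comap_iter (hc : m.comap S = m) (k : ℕ) : m.comap S^[k] = m := by
  induction k with
  | zero => exact MeasurableSpace.comap_id
  | succ k ih => rw [Function.iterate_succ, ← MeasurableSpace.comap_comp, ih, hc]

theorem ae_cond_iter (hS : MeasurePreserving S μ μ) (hm : m ≤ m0) (hc : m.comap S = m)
    {f : X → ℂ} (hf : Bd μ C f) (k : ℕ) :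
    μ[fun x => f (S^[k] x) | m] =ᵐ[μ] fun x => (μ[f | m]) (S^[k] x) :=
  rel_cond_comp (hS.iterate k) hm (rel_comap_iter hc k) hf

theorem rel_norm_conj {f : X → ℂ} (hf : Bd μ C f) :
    ‖L2 μ (μ[fun x => conj (f x) | m])‖ = ‖L2 μ (μ[f | m])‖ := by
  have h1 : (fun x => conj ((μ[f | m]) x)) =ᵐ[μ] μ[fun x => conj (f x) | m] :=
    (Complex.conjCLE : ℂ →L[ℝ] ℂ).comp_condExp_comm (m := m) hf.integrable
  have hE : Bd μ C (μ[f | m]) := hf.condExp
  rw [← L2_congr h1, ← sq_eq_sq₀ (norm_nonneg _) (norm_nonneg _), norm_L2_sq hE.star.memLp,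
    norm_L2_sq hE.memLp]
  simp only [Complex.norm_conj]

theorem rel_cond_le (hS : MeasurePreserving S μ μ) (hm : m ≤ m0) (hc : m.comap S = m)
    {g : X → ℂ} (hg : Bd μ C g) (d q : ℕ) :
    ‖L2 μ (μ[fun x => g (S^[d + q] x) * conj (g (S^[q] x)) | m])‖ =
      ‖L2 μ (μ[fun x => g (S^[d] x) * conj (g x) | m])‖ := by
  have hF : Bd μ (C * C) fun x => g (S^[d] x) * conj (g x) := (hg.iter hS d).mul hg.star
  have hE : Bd μ (C * C) (μ[fun x => g (S^[d] x) * conj (g x) | m]) := hF.condExp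
  simp only [Function.iterate_add_apply]
  rw [L2_congr (ae_cond_iter hS hm hc hF q), norm_L2_comp (hS.iterate q) hE.memLp]

theorem ae_cond_dist (hS : MeasurePreserving S μ μ) (hm : m ≤ m0) (hc : m.comap S = m)
    {g : X → ℂ} (hg : Bd μ C g) (p q : ℕ) :
    ‖L2 μ (μ[fun x => g (S^[p] x) * conj (g (S^[q] x)) | m])‖ =
      ‖L2 μ (μ[fun x => g (S^[Nat.dist p q] x) * conj (g x) | m])‖ := by
  rcases le_total q p with h | h
  · obtain ⟨d, rfl⟩ := Nat.exists_eq_add_of_le' h
    rw [Nat.dist_eq_sub_of_le_right h, Nat.add_sub_cancel]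
    exact rel_cond_le hS hm hc hg d q
  · obtain ⟨d, rfl⟩ := Nat.exists_eq_add_of_le' h
    rw [Nat.dist_eq_sub_of_le h, Nat.add_sub_cancel, ← rel_cond_le hS hm hc hg d p,
      ← rel_norm_conj ((hg.iter hS (d + p)).mul (hg.iter hS p).star)]
    simp only [map_mul, Complex.conj_conj, mul_comm]

theorem ae_rel [StandardBorelSpace X] (hS : MeasurePreserving S μ μ) (hm : m ≤ m0)
    (hc : m.comap S = m) :
    ∃ ν : Measure (X × X), IsProbabilityMeasure ν ∧ MeasurePreserving (Prod.map S S) ν ν ∧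
      MeasurePreserving Prod.fst ν μ ∧ MeasurePreserving Prod.snd ν μ ∧
      ∀ (F F' : X → ℂ) (C C' : ℝ), Bd μ C F → Bd μ C' F' →
        ∫ p, F p.1 * F' p.2 ∂ν = ∫ x, (μ[F | m]) x * (μ[F' | m]) x ∂μ := by
  let κ : ProbabilityTheory.Kernel X X :=
    (ProbabilityTheory.condExpKernel μ m).comap id (measurable_id'' hm)
  have hκ : ∀ x, κ x = ProbabilityTheory.condExpKernel μ m x := fun _ => rfl
  have : ProbabilityTheory.IsMarkovKernel κ :=
    ProbabilityTheory.Kernel.IsMarkovKernel.comap _ (measurable_id'' hm)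
  have h1 : MeasurePreserving Prod.fst (μ.compProd κ) μ :=
    ⟨measurable_fst, Measure.fst_compProd μ κ⟩
  have h2 : MeasurePreserving Prod.snd (μ.compProd κ) μ := by
    refine ⟨measurable_snd, (Measure.snd_compProd μ κ).trans (Measure.ext fun s hs => ?_)⟩
    have h := congrArg (fun ρ : Measure X => ρ s)
      (ProbabilityTheory.condExpKernel_comp_trim (μ := μ) hm)
    rw [Measure.bind_apply hs κ.aemeasurable, ← h,
      Measure.bind_apply hs (ProbabilityTheory.condExpKernel μ m).aemeasurable,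
      lintegral_trim hm (ProbabilityTheory.measurable_condExpKernel hs)]
    rfl
  have h3 : ∀ (F F' : X → ℂ) (C C' : ℝ), Bd μ C F → Bd μ C' F' →
      ∫ p, F p.1 * F' p.2 ∂(μ.compProd κ) = ∫ x, (μ[F | m]) x * (μ[F' | m]) x ∂μ := by
    intro F F' C C' hF hF'
    have b1 : Bd (μ.compProd κ) C fun p => F p.1 :=
      ⟨hF.1.comp_measurePreserving h1, h1.quasiMeasurePreserving.ae hF.2⟩
    have b2 : Bd (μ.compProd κ) C' fun p => F' p.2 :=
      ⟨hF'.1.comp_measurePreserving h2, h2.quasiMeasurePreserving.ae hF'.2⟩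
    have hE : Bd μ C' (μ[F' | m]) := hF'.condExp
    have e := tw_int_condExp hm hE stronglyMeasurable_condExp.aestronglyMeasurable hF
    rw [Measure.integral_compProd (b1.mul b2).integrable]
    simp only [mul_comm ((μ[F | m]) _)]
    rw [← e]
    refine integral_congr_ae ?_
    filter_upwards [ProbabilityTheory.condExp_ae_eq_integral_condExpKernel hm hF'.integrable]
      with x hx
    rw [hx, integral_const_mul, mul_comm, hκ]
  have hb : ∀ {s : Set X}, MeasurableSet s → Bd μ 1 (s.indicator fun _ => (1 : ℂ)) := fun hs =>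
    ⟨aestronglyMeasurable_const.indicator hs, Eventually.of_forall fun x =>
      (norm_indicator_le_norm_self (fun _ => (1 : ℂ)) x).trans norm_one.le⟩
  have h4 : ∀ {s t : Set X}, MeasurableSet s → MeasurableSet t →
      (((μ.compProd κ).real (s ×ˢ t) : ℝ) : ℂ) = ∫ x, (μ[s.indicator fun _ => (1 : ℂ) | m]) x *
        (μ[t.indicator fun _ => (1 : ℂ) | m]) x ∂μ := by
    intro s t hs ht
    rw [← h3 _ _ 1 1 (hb hs) (hb ht)]
    have e : ∀ p : X × X, s.indicator (fun _ => (1 : ℂ)) p.1 * t.indicator (fun _ => (1 : ℂ)) p.2 =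
        (s ×ˢ t).indicator (fun _ => (1 : ℂ)) p := fun p => by
      by_cases k1 : p.1 ∈ s <;> by_cases k2 : p.2 ∈ t <;> simp [Set.indicator, k1, k2]
    simp only [e]
    rw [integral_indicator_const _ (hs.prod ht), Complex.real_smul, mul_one]
  have hSS : Measurable (Prod.map S S) := hS.measurable.prodMap hS.measurable
  refine ⟨μ.compProd κ, inferInstance, ⟨hSS, Measure.ext_prod fun {s t} hs ht => ?_⟩, h1, h2, h3⟩
  rw [Measure.map_apply hSS (hs.prod ht), Set.preimage_prod_map_prod,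
    ← measureReal_eq_measureReal_iff]
  refine Complex.ofReal_injective ?_
  rw [h4 (hS.measurable hs) (hS.measurable ht), h4 hs ht,
    ← integral_iter hS ((hb hs).condExp.mul (hb ht).condExp).1 1]
  refine integral_congr_ae ?_
  filter_upwards [rel_cond_comp hS hm hc (hb hs), rel_cond_comp hS hm hc (hb ht)] with x k1 k2
  exact congrArg₂ (· * ·) k1 k2

end Pool.Agent.Lib.MP_1db5af_an
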