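import Pool.Agent.Lib.MP_1db5af_an.Ae.Rel

set_option autoImplicit false

namespace Pool.Agent.Lib.MP_1db5af_an

open MeasureTheory Filter Topology ComplexConjugate Finset InnerProductSpace

variable {X : Type*} {m m1 : MeasurableSpace X} [m0 : MeasurableSpace X] {μ : Measure X}
  [IsProbabilityMeasure μ] {S : X → X} {a : ℕ → ℕ} {C : ℝ}

/-- The averaged rank one operators over `m`. -/
noncomputable def rwmK {X : Type*} (m : MeasurableSpace X) {m0 : MeasurableSpace X}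
    (μ : Measure X) (f : ℕ → X → ℂ) (u : X → ℂ) (L : ℕ) (x : X) : ℂ :=
  av (fun l => f l x * (μ[fun y => conj (f l y) * u y | m]) x) L

omit [IsProbabilityMeasure μ] in
theorem rwm_bd_map {Y : Type*} [MeasurableSpace Y] {ν : Measure Y} {π : Y → X}
    (hπ : MeasurePreserving π ν μ) {φ : X → ℂ} (h : Bd μ C φ) : Bd ν C fun p => φ (π p) :=
  ⟨h.1.comp_measurePreserving hπ, hπ.quasiMeasurePreserving.ae h.2⟩

theorem rwm_norm_map {Y : Type*} [MeasurableSpace Y] {ν : Measure Y} {π : Y → X}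
    (hπ : MeasurePreserving π ν μ) {φ : X → ℂ} (h : Bd μ C φ) :
    ‖L2 ν fun p => φ (π p)‖ = ‖L2 μ φ‖ := by
  have h1 : MemLp (fun p => φ (π p)) 2 ν := h.memLp.comp_measurePreserving hπ
  rw [← ENNReal.ofReal_eq_ofReal_iff (norm_nonneg _) (norm_nonneg _), ofReal_norm_L2 h1,
    ofReal_norm_L2 h.memLp]
  exact eLpNorm_comp_measurePreserving h.1 hπ

theorem rwm_conj {F : X → ℂ} (hF : Bd μ C F) :
    μ[fun x => conj (F x) | m] =ᵐ[μ] fun x => conj ((μ[F | m]) x) :=
  ((Complex.conjCLE : ℂ →L[ℝ] ℂ).comp_condExp_comm (m := m) hF.integrable).symm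

theorem rwm_bdK {f : ℕ → X → ℂ} (hf : ∀ l, Bd μ C (f l)) {u : X → ℂ} {D : ℝ} (hu : Bd μ D u)
    (L : ℕ) : Bd μ (C * (C * D)) (rwmK m μ f u L) :=
  Bd.av ((hf 0).mul ((hf 0).star.mul hu)).nonneg
    (fun l => (hf l).mul ((hf l).star.mul hu).condExp) L

theorem rwm_inner_av {Y : Type*} [MeasurableSpace Y] {ν : Measure Y} (w : Lp ℂ 2 ν)
    (v : ℕ → Lp ℂ 2 ν) (L : ℕ) : ⟪w, av v L⟫_ℂ = av (fun l => ⟪w, v l⟫_ℂ) L :=
  (av_map ((innerSL ℂ w).restrictScalars ℝ) v L).symm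

section

variable {ν : Measure (X × X)} [IsProbabilityMeasure ν]

theorem rwm_pair (hm : m ≤ m0) (h1 : MeasurePreserving Prod.fst ν μ)
    (h2 : MeasurePreserving Prod.snd ν μ)
    (h3 : ∀ (F F' : X → ℂ) (C C' : ℝ), Bd μ C F → Bd μ C' F' →
      ∫ p, F p.1 * F' p.2 ∂ν = ∫ x, (μ[F | m]) x * (μ[F' | m]) x ∂μ)
    {f : ℕ → X → ℂ} (hf : ∀ l, Bd μ C (f l)) {u w : X → ℂ} {D D' : ℝ} (hu : Bd μ D u)
    (hw : Bd μ D' w) (L : ℕ) :
    ⟪L2 μ w, L2 μ (rwmK m μ f u L)⟫_ℂ = ⟪L2 ν fun p => conj (u p.2) * w p.1,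
      av (fun l => L2 ν fun p => f l p.1 * conj (f l p.2)) L⟫_ℂ := by
  have e : L2 μ (rwmK m μ f u L) =
      av (fun l => L2 μ fun x => f l x * (μ[fun y => conj (f l y) * u y | m]) x) L :=
    L2_av (fun l => ((hf l).mul ((hf l).star.mul hu).condExp).memLp) L
  rw [e, rwm_inner_av, rwm_inner_av]
  congr 1
  funext l
  rw [inner_L2 hw.memLp ((hf l).mul ((hf l).star.mul hu).condExp).memLp,
    inner_L2 ((rwm_bd_map h2 hu.star).mul (rwm_bd_map h1 hw)).memLp
      ((rwm_bd_map h1 (hf l)).mul (rwm_bd_map h2 (hf l).star)).memLp]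
  have e1 := h3 _ _ _ _ ((hf l).mul hw.star) ((hf l).star.mul hu)
  have e2 := tw_int_condExp hm ((hf l).star.mul hu).condExp
    stronglyMeasurable_condExp.aestronglyMeasurable ((hf l).mul hw.star)
  calc _ = ∫ x, (μ[fun y => conj (f l y) * u y | m]) x * (f l x * conj (w x)) ∂μ := by
        congr 1; funext x; ring
    _ = ∫ x, (μ[fun x => f l x * conj (w x) | m]) x *
          (μ[fun y => conj (f l y) * u y | m]) x ∂μ := by
        rw [e2]; congr 1; funext x; ring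
    _ = _ := by
        rw [← e1]; congr 1; funext p
        simp only [map_mul, Complex.conj_conj]; ring

theorem rwm_diff (hm : m ≤ m0) (h1 : MeasurePreserving Prod.fst ν μ)
    (h2 : MeasurePreserving Prod.snd ν μ)
    (h3 : ∀ (F F' : X → ℂ) (C C' : ℝ), Bd μ C F → Bd μ C' F' →
      ∫ p, F p.1 * F' p.2 ∂ν = ∫ x, (μ[F | m]) x * (μ[F' | m]) x ∂μ)
    {f f' : ℕ → X → ℂ} (hf : ∀ l, Bd μ C (f l)) (hf' : ∀ l, Bd μ C (f' l)) {u : X → ℂ} {D : ℝ}
    (hu : Bd μ D u) (L L' : ℕ) :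
    ‖L2 μ (rwmK m μ f u L) - L2 μ (rwmK m μ f' u L')‖ ≤
      D * ‖av (fun l => L2 ν fun p => f l p.1 * conj (f l p.2)) L -
        av (fun l => L2 ν fun p => f' l p.1 * conj (f' l p.2)) L'‖ := by
  have b1 := rwm_bdK (m := m) hf hu L
  have b2 := rwm_bdK (m := m) hf' hu L'
  have b3 := b1.sub b2
  have e := L2_sub b1.memLp b2.memLp
  set Z := av (fun l => L2 ν fun p => f l p.1 * conj (f l p.2)) L -
    av (fun l => L2 ν fun p => f' l p.1 * conj (f' l p.2)) L' with hZ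
  set w := fun x => rwmK m μ f u L x - rwmK m μ f' u L' x with hw
  have k1 : ⟪L2 μ w, L2 μ w⟫_ℂ = ⟪L2 ν fun p => conj (u p.2) * w p.1, Z⟫_ℂ := by
    rw [hZ, inner_sub_right, ← rwm_pair hm h1 h2 h3 hf hu b3, ← rwm_pair hm h1 h2 h3 hf' hu b3,
      ← inner_sub_right, ← e]
  have k2 : ‖L2 ν fun p : X × X => conj (u p.2) * w p.1‖ ≤ D * ‖L2 μ w‖ := by
    rw [← rwm_norm_map h1 b3]
    exact (rwm_bd_map h2 hu.star).norm_L2_mul (rwm_bd_map h1 b3).memLp
  have k3 : ‖L2 μ w‖ * ‖L2 μ w‖ ≤ D * ‖L2 μ w‖ * ‖Z‖ := by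
    have k4 := norm_inner_le_norm (𝕜 := ℂ) (L2 ν fun p : X × X => conj (u p.2) * w p.1) Z
    rw [← k1, inner_self_eq_norm_sq_to_K] at k4
    simp only [norm_pow, RCLike.norm_ofReal, abs_norm] at k4
    rw [← sq]
    exact k4.trans (mul_le_mul_of_nonneg_right k2 (norm_nonneg _))
  rw [← e]
  rcases (norm_nonneg (L2 μ w)).eq_or_lt with h0 | h0
  · rw [← h0]; exact mul_nonneg hu.nonneg (norm_nonneg _)
  · refine le_of_mul_le_mul_left (k3.trans_eq ?_) h0
    ring

end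

theorem rwm_shift (hS : MeasurePreserving S μ μ) (hm : m ≤ m0) (hc : m.comap S = m)
    {f : X → ℂ} (hf : Bd μ C f) (L k : ℕ) :
    (Kp hS)^[k] (L2 μ (rwmK m μ (fun l x => f (S^[l] x)) f L)) =
      L2 μ (rwmK m μ (fun l x => f (S^[l + k] x)) (fun x => f (S^[k] x)) L) := by
  rw [Kp_iter hS (rwm_bdK (fun l => hf.iter hS l) hf L).memLp]
  refine L2_congr ?_
  filter_upwards [ae_all_iff.2 fun l : ℕ =>
    ae_cond_iter hS hm hc ((hf.iter hS l).star.mul hf) k] with x hx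
  unfold rwmK
  congr 1
  funext l
  rw [← hx l]
  simp only [Function.iterate_add_apply]

theorem rwm_inner (hS : MeasurePreserving S μ μ) (hm : m ≤ m0) {f : X → ℂ} (hf : Bd μ C f)
    (L : ℕ) : ⟪L2 μ f, L2 μ (rwmK m μ (fun l x => f (S^[l] x)) f L)⟫_ℂ =
      ((av (fun l => ‖L2 μ (μ[fun x => f (S^[l] x) * conj (f x) | m])‖ ^ 2) L : ℝ) : ℂ) := by
  have e : L2 μ (rwmK m μ (fun l x => f (S^[l] x)) f L) = av (fun l => L2 μ fun x =>
      f (S^[l] x) * (μ[fun y => conj (f (S^[l] y)) * f y | m]) x) L :=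
    L2_av (fun l => ((hf.iter hS l).mul ((hf.iter hS l).star.mul hf).condExp).memLp) L
  rw [e, rwm_inner_av]
  refine Eq.trans ?_ (av_map Complex.ofRealCLM _ L)
  congr 1
  funext l
  have b1 := (hf.iter hS l).mul hf.star
  have b2 := (hf.iter hS l).star.mul hf
  have e2 := tw_int_condExp hm b2.condExp stronglyMeasurable_condExp.aestronglyMeasurable b1
  have e3 := rwm_conj (m := m) b1
  simp only [map_mul, Complex.conj_conj] at e3
  have e4 := inner_L2 (b1.condExp (m := m)).memLp (b1.condExp (m := m)).memLp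
  rw [inner_self_eq_norm_sq_to_K] at e4
  rw [inner_L2 hf.memLp ((hf.iter hS l).mul b2.condExp).memLp]
  calc _ = ∫ x, (μ[fun y => conj (f (S^[l] y)) * f y | m]) x *
          (f (S^[l] x) * conj (f x)) ∂μ := by
        congr 1; funext x; ring
    _ = ∫ x, (μ[fun x => f (S^[l] x) * conj (f x) | m]) x *
          conj ((μ[fun x => f (S^[l] x) * conj (f x) | m]) x) ∂μ := by
        rw [e2]
        refine integral_congr_ae ?_
        filter_upwards [e3] with x hx
        rw [hx, mul_comm]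
    _ = _ := by rw [← e4]; simp

theorem ae_rwm [StandardBorelSpace X] (hS : MeasurePreserving S μ μ) (hm1 : m1 ≤ m0)
    (hS1 : Measurable[m1, m1] S) (hm : m ≤ m1) (hc : m.comap S = m)
    (hmax : ∀ g : X → ℂ, Cpt m μ S g → AEStronglyMeasurable[m1] g μ →
      AEStronglyMeasurable[m] g μ) : RWM m m1 μ S := by
  intro f C hf hfm hf0
  have hm0 : m ≤ m0 := hm.trans hm1
  have hC := hf.nonneg
  obtain ⟨ν, hν, hSS, h1, h2, h3⟩ := ae_rel hS hm0 hc
  have hfl : ∀ k l : ℕ, Bd μ C fun x => f (S^[l + k] x) := fun k l => hf.iter hS _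
  set F : ℕ → Lp ℂ 2 ν := fun l => L2 ν fun p => f (S^[l] p.1) * conj (f (S^[l] p.2)) with hF
  have hF0 : Bd ν (C * C) fun p : X × X => f p.1 * conj (f p.2) :=
    (rwm_bd_map h1 hf).mul (rwm_bd_map h2 hf.star)
  have hFit : ∀ l, (Kp hSS)^[l] (L2 ν fun p : X × X => f p.1 * conj (f p.2)) = F l := fun l => by
    rw [Kp_iter hSS hF0.memLp, hF]
    simp only [Prod.map_iterate, Prod.map_fst, Prod.map_snd]
  have hFb : ∀ l, ‖F l‖ ≤ C * C := fun l =>
    ((rwm_bd_map h1 (hf.iter hS l)).mul (rwm_bd_map h2 (hf.iter hS l).star)).norm_L2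
  obtain ⟨Hh, -, -, hH⟩ := meanerg_abs (Kp hSS).toContinuousLinearMap
    (LinearIsometry.norm_toContinuousLinearMap_le _) (L2 ν fun p : X × X => f p.1 * conj (f p.2))
  have hH' : Tendsto (av F) atTop (𝓝 Hh) := by
    refine hH.congr fun N => ?_
    congr 1
    funext l
    exact hFit l
  set g : ℕ → X → ℂ := rwmK m μ (fun l x => f (S^[l] x)) f with hg
  have hgb : ∀ L, Bd μ (C * (C * C)) (g L) := rwm_bdK (fun l => hf.iter hS l) hf
  have hcau : CauchySeq fun L => L2 μ (g L) := by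
    refine cauchySeq_of_le_tendsto_0' (fun L => C * (⨆ L' : {L' // L ≤ L'}, ‖av F L - av F L'‖))
      (fun L L' hL => ?_) ?_
    · rw [dist_eq_norm]
      refine (rwm_diff hm0 h1 h2 h3 (fun l => hf.iter hS l) (fun l => hf.iter hS l) hf L L').trans
        (mul_le_mul_of_nonneg_left ?_ hC)
      refine le_ciSup_of_le ⟨C * C + C * C, ?_⟩ ⟨L', hL⟩ le_rfl
      rintro _ ⟨L'', rfl⟩
      exact (norm_sub_le _ _).trans (add_le_add (norm_av_le hFb _) (norm_av_le hFb _))
    · rw [← mul_zero C]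
      refine Tendsto.const_mul C (Metric.tendsto_atTop.2 fun ε hε => ?_)
      obtain ⟨N, hN⟩ := Metric.cauchySeq_iff.1 hH'.cauchySeq (ε / 2) (half_pos hε)
      refine ⟨N, fun L hL => ?_⟩
      rw [Real.dist_eq, sub_zero, abs_of_nonneg (Real.iSup_nonneg fun _ => norm_nonneg _)]
      refine lt_of_le_of_lt (Real.iSup_le (fun L' => ?_) (half_pos hε).le) (half_lt_self hε)
      rw [← dist_eq_norm]
      exact (hN _ hL _ (hL.trans L'.2)).le
  obtain ⟨p, hp⟩ := cauchySeq_tendsto_of_complete hcau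
  have hgm : ∀ L, AEStronglyMeasurable[m1] (g L) μ := fun L =>
    (tw_aesm_sum (range L) fun l _ => (aesm_iter hS hS1 hfm l).mul
      (stronglyMeasurable_condExp.mono hm).aestronglyMeasurable).const_smul ((L : ℝ)⁻¹)
  obtain ⟨pb, pm⟩ := closed_Bd hm1 hgb hgm hp
  have hcpt : Cpt m μ S p := by
    refine ⟨⟨_, pb⟩, fun ε hε => ?_⟩
    have hε' : 0 < ε / (C + 1) := by positivity
    obtain ⟨L0, hL0⟩ := ((tendsto_iff_norm_sub_tendsto_zero.1 hH').eventually
      (gt_mem_nhds hε')).exists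
    refine ⟨Fin L0, inferInstance, fun l x => f (S^[l] x), max C (C * C),
      fun l => (hf.iter hS l).mono (le_max_left _ _), fun k => ⟨fun l x => (((L0 : ℝ)⁻¹ : ℝ) : ℂ) *
        (μ[fun y => conj (f (S^[l] y)) * f (S^[k] y) | m]) x, fun l => ⟨?_,
          stronglyMeasurable_condExp.aestronglyMeasurable.const_mul _⟩, ?_⟩⟩
    · refine ((Bd.const _).mul ((hf.iter hS l).star.mul (hf.iter hS k)).condExp).mono
        (le_trans ?_ (le_max_right _ _))
      refine mul_le_of_le_one_left (by positivity) ?_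
      rw [Complex.norm_real, norm_inv, Real.norm_natCast]
      exact Nat.cast_inv_le_one L0
    · have e1 : (fun x => ∑ l : Fin L0, (((L0 : ℝ)⁻¹ : ℝ) : ℂ) *
          (μ[fun y => conj (f (S^[l] y)) * f (S^[k] y) | m]) x * f (S^[l] x)) =
          rwmK m μ (fun l x => f (S^[l] x)) (fun x => f (S^[k] x)) L0 := by
        funext x
        rw [rwmK, av, Complex.real_smul, mul_sum, sum_range]
        exact sum_congr rfl fun l _ => by ring
      rw [e1, ← Kp_iter hS pb.memLp, L2_Lp]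
      have t1 : Tendsto (fun L => (Kp hS)^[k] (L2 μ (g L))) atTop (𝓝 ((Kp hS)^[k] p)) :=
        (((Kp hS).continuous.iterate k).tendsto p).comp hp
      have t2 : Tendsto (av fun l => F (l + k)) atTop (𝓝 Hh) := (tendsto_av_shift hFb k).2 hH'
      have t3 := le_of_tendsto_of_tendsto' (t1.sub_const (L2 μ (rwmK m μ
        (fun l x => f (S^[l] x)) (fun x => f (S^[k] x)) L0))).norm
        ((t2.sub_const (av F L0)).norm.const_mul C) fun L => by
          rw [hg, rwm_shift hS hm0 hc hf]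
          exact rwm_diff hm0 h1 h2 h3 (hfl k) (fun l => hf.iter hS l) (hf.iter hS k) L L0
      refine t3.trans ?_
      rw [norm_sub_rev]
      calc _ ≤ (C + 1) * (ε / (C + 1)) := by gcongr; linarith
        _ = ε := by field_simp
  have hpm := hmax p hcpt pm
  have h0 : ⟪L2 μ f, p⟫_ℂ = 0 := by
    rw [← inner_conj_symm, ← L2_Lp p, inner_L2 pb.memLp hf.memLp]
    simp only [mul_comm (f _)]
    rw [tw_int_condExp hm0 pb.star (tw_aesm_conj hpm) hf]
    have : (fun x => conj (p x) * (μ[f | m]) x) =ᵐ[μ] fun _ => 0 := by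
      filter_upwards [hf0] with x hx
      rw [hx, Pi.zero_apply, mul_zero]
    rw [integral_congr_ae this, integral_zero, map_zero]
  have t4 : Tendsto (fun L => ⟪L2 μ f, L2 μ (g L)⟫_ℂ) atTop (𝓝 0) := by
    rw [← h0]
    exact tendsto_const_nhds.inner hp
  simp only [hg, rwm_inner hS hm0 hf] at t4
  have t5 := ((Complex.continuous_re.tendsto 0).comp t4).sqrt
  simp only [Function.comp_def, Complex.ofReal_re, Complex.zero_re, Real.sqrt_zero] at t5
  exact squeeze_zero (fun L => av_nonneg (fun _ => norm_nonneg _) L)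
    (fun L => Real.le_sqrt_of_sq_le (sq_av_le _ L)) t5

end Pool.Agent.Lib.MP_1db5af_an
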