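import Pool.Agent.Lib.MP_1db5af_an.Ae.VdcA
import Pool.Agent.Lib.MP_1db5af_an.Ae.Rel

set_option autoImplicit false

namespace Pool.Agent.Lib.MP_1db5af_an

open MeasureTheory Filter Topology ComplexConjugate Finset InnerProductSpace

variable {X : Type*} {m m1 : MeasurableSpace X} [m0 : MeasurableSpace X] {μ : Measure X}
  [IsProbabilityMeasure μ] {S : X → X} {a : ℕ → ℕ} {C : ℝ}

omit [IsProbabilityMeasure μ] in
theorem vdcb_shift (hS : MeasurePreserving S μ μ) {J : Finset ℕ} {g : ℕ → X → ℂ}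
    (hg : ∀ j ∈ J, Bd μ C (g j)) {p q : ℕ → ℕ} (s : ℕ) (h : ∀ j ∈ J, q j = p j + s) :
    ∫ x, ∏ j ∈ J, g j (S^[q j] x) ∂μ = ∫ x, ∏ j ∈ J, g j (S^[p j] x) ∂μ := by
  refine Eq.trans ?_ (integral_iter hS (Bd.prod J fun j hj => (hg j hj).iter hS (p j)).1 s)
  congr 1
  funext x
  exact prod_congr rfl fun j hj => by rw [h j hj, Function.iterate_add_apply]

theorem vdcb_split (hS : MeasurePreserving S μ μ) {J : Finset ℕ} {G : ℕ → X → ℂ}
    (hG : ∀ j ∈ J, Bd μ C (G j)) {i : ℕ} (hi : i ∈ J) (p : ℕ → ℕ) :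
    ‖∫ x, ∏ j ∈ J, G j (S^[p j] x) ∂μ‖ ≤
      ‖∫ x, ∏ j ∈ J, Function.update G i (fun x => G i x - (μ[G i | m]) x) j (S^[p j] x) ∂μ‖ +
        C ^ (J.card - 1) * ‖L2 μ (μ[G i | m])‖ := by
  have h1 := multia_bd_erase hS hG hi p
  have h2 : Bd μ C (μ[G i | m]) := (hG i hi).condExp
  have h3 := (h1.mul (((hG i hi).sub h2).iter hS (p i))).integrable
  have h4 := h1.mul (h2.iter hS (p i))
  have e : ∀ x, ∏ j ∈ J, G j (S^[p j] x) =
      (∏ j ∈ J.erase i, G j (S^[p j] x)) * (G i (S^[p i] x) - (μ[G i | m]) (S^[p i] x)) +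
        (∏ j ∈ J.erase i, G j (S^[p j] x)) * (μ[G i | m]) (S^[p i] x) := fun x => by
    rw [← prod_erase_mul J _ hi]; ring
  have e' : ∀ x, ∏ j ∈ J, Function.update G i (fun x => G i x - (μ[G i | m]) x) j (S^[p j] x) =
      (∏ j ∈ J.erase i, G j (S^[p j] x)) * (G i (S^[p i] x) - (μ[G i | m]) (S^[p i] x)) :=
    fun x => multia_prod_update G hi _ fun j => S^[p j] x
  simp only [e, e']
  rw [integral_add h3 h4.integrable]
  refine (norm_add_le _ _).trans (add_le_add le_rfl ?_)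
  refine (norm_integral_le_L2 h4.memLp).trans ((h1.norm_L2_mul (h2.iter hS (p i)).memLp).trans ?_)
  rw [norm_L2_comp (hS.iterate (p i)) h2.memLp]

theorem vdcb_dual {φ : X → ℂ} (hφ : Bd μ C φ) {y : ℕ → X → ℂ} {B : ℝ} (hy : ∀ t, Bd μ B (y t))
    (L : ℕ) : ∃ w : ℕ → ℂ, (∀ t, ‖w t‖ = 1) ∧
      av (fun t => ‖∫ x, φ x * y t x ∂μ‖) L ≤ C * ‖av (fun t => w t • L2 μ (y t)) L‖ := by
  choose w hw hw' using fun t => Complex.exists_norm_eq_mul_self (∫ x, φ x * y t x ∂μ)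
  refine ⟨w, hw, ?_⟩
  have h1 : ∀ t, ⟪L2 μ fun x => conj (φ x), w t • L2 μ (y t)⟫_ℂ
      = ((‖∫ x, φ x * y t x ∂μ‖ : ℝ) : ℂ) := by
    intro t
    rw [inner_smul_right, inner_L2 hφ.star.memLp (hy t).memLp, hw']
    simp only [Complex.conj_conj, mul_comm (φ _)]
  have h2 : ⟪L2 μ fun x => conj (φ x), av (fun t => w t • L2 μ (y t)) L⟫_ℂ
      = ((av (fun t => ‖∫ x, φ x * y t x ∂μ‖) L : ℝ) : ℂ) := by
    have h3 := av_map ((innerSL ℂ (L2 μ fun x => conj (φ x))).restrictScalars ℝ)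
      (fun t => w t • L2 μ (y t)) L
    have h4 := av_map Complex.ofRealCLM (fun t => ‖∫ x, φ x * y t x ∂μ‖) L
    refine h3.symm.trans (Eq.trans ?_ h4)
    congr 1
    funext t
    exact h1 t
  have h5 := norm_inner_le_norm (𝕜 := ℂ) (L2 μ fun x => conj (φ x))
    (av (fun t => w t • L2 μ (y t)) L)
  rw [h2, Complex.norm_real, Real.norm_eq_abs] at h5
  exact (le_abs_self _).trans (h5.trans
    (mul_le_mul_of_nonneg_right hφ.star.norm_L2 (norm_nonneg _)))

theorem vdcb_step (hS : MeasurePreserving S μ μ) (hm1 : m1 ≤ m0) (hS1 : Measurable[m1, m1] S)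
    (hm : m ≤ m1) (hc : m.comap S = m) (hR : RWM m m1 μ S) {J : Finset ℕ} {d : ℕ → ℕ} {i : ℕ}
    (hi : i ∈ J) (hd : 0 < d i)
    (ih : ∀ (g : ℕ → X → ℂ) (C : ℝ),
      (∀ j ∈ J, Bd μ C (g j) ∧ AEStronglyMeasurable[m1] (g j) μ) →
      μ[g i | m] =ᵐ[μ] 0 → Lin d fun p => ‖∫ x, ∏ j ∈ J, g j (S^[p j] x) ∂μ‖)
    {g : ℕ → X → ℂ} (hg : ∀ j ∈ J, Bd μ C (g j) ∧ AEStronglyMeasurable[m1] (g j) μ)
    (h0 : μ[g i | m] =ᵐ[μ] 0) {ε : ℝ} (hε : 0 < ε) :
    ∀ᶠ L : ℕ in atTop, ∀ (b : ℕ → ℕ) (φ : X → ℂ), Bd μ C φ →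
      av (fun t => ‖∫ x, φ x * ∏ j ∈ J, g j (S^[b j + d j * t] x) ∂μ‖) L ≤ ε := by
  have hC : 0 ≤ C := (hg i hi).1.nonneg
  have hm0 : m ≤ m0 := hm.trans hm1
  set e := ε / (C + 1) with he
  have he0 : 0 < e := by positivity
  set K := (C * C) ^ (J.card - 1) with hK
  have hK0 : 0 ≤ K := by positivity
  set δ : ℕ → ℝ := fun l => ‖L2 μ (μ[fun x => g i (S^[l] x) * conj (g i x) | m])‖ with hδ
  have hδ0 := (ae_dist (δ := δ) (fun _ => norm_nonneg _)
    (hR (g i) C (hg i hi).1 (hg i hi).2 h0) hd).const_mul K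
  rw [mul_zero] at hδ0
  obtain ⟨P, hP1, hP⟩ := ((hδ0.eventually_le_const (show 0 < e ^ 2 / 8 by positivity)).and
    (eventually_gt_atTop 0)).exists
  set G : ℕ → ℕ → ℕ → X → ℂ := fun h h' j x =>
    g j (S^[d j * h'] x) * conj (g j (S^[d j * h] x)) with hG
  have hGb : ∀ h h', ∀ j ∈ J, Bd μ (C * C) (G h h' j) := fun h h' j hj =>
    ((hg j hj).1.iter hS _).mul ((hg j hj).1.iter hS _).star
  have hGm : ∀ h h', ∀ j ∈ J, AEStronglyMeasurable[m1] (G h h' j) μ := fun h h' j hj =>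
    (aesm_iter hS hS1 (hg j hj).2 _).mul (tw_aesm_conj (aesm_iter hS hS1 (hg j hj).2 _))
  have hlin : ∀ h h', ∀ᶠ L : ℕ in atTop, ∀ b : ℕ → ℕ, av (fun t => ‖∫ x, ∏ j ∈ J,
      Function.update (G h h') i (fun x => G h h' i x - (μ[G h h' i | m]) x) j
        (S^[b j + d j * t] x) ∂μ‖) L ≤ e ^ 2 / 8 := by
    intro h h'
    have hE : Bd μ (C * C) (μ[G h h' i | m]) := (hGb h h' i hi).condExp
    refine eventually_atTop.2 (ih _ (max (C * C) (C * C + C * C)) (fun j hj =>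
      ⟨tw_bd_update (hGb h h') i ((hGb h h' i hi).sub hE) j hj, ?_⟩) ?_ _ (by positivity))
    · by_cases hji : j = i
      · subst hji
        rw [Function.update_self]
        exact (hGm h h' j hj).sub (stronglyMeasurable_condExp.mono hm).aestronglyMeasurable
      · rw [Function.update_of_ne hji]
        exact hGm h h' j hj
    · rw [Function.update_self]
      have h1 := condExp_sub (hGb h h' i hi).integrable hE.integrable m
      have h2 := condExp_condExp_of_le (μ := μ) (f := G h h' i) (le_refl m) hm0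
      filter_upwards [h1, h2] with x e1 e2
      refine Eq.trans e1 ?_
      rw [Pi.sub_apply, e2, sub_self, Pi.zero_apply]
  have hB : Tendsto (fun L : ℕ => 2 * (P : ℝ) * C ^ J.card / L) atTop (𝓝 0) :=
    tendsto_const_div_atTop_nhds_zero_nat _
  filter_upwards [(eventually_all_finset (range P)).2 fun h _ =>
    (eventually_all_finset (range P)).2 fun h' _ => hlin h h',
    hB.eventually_le_const (show 0 < e / 2 by positivity), eventually_gt_atTop 0]
    with L hL1 hL2 hL3 b φ hφ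
  have hy : ∀ t, Bd μ (C ^ J.card) fun x => ∏ j ∈ J, g j (S^[b j + d j * t] x) := fun t =>
    Bd.prod J fun j hj => (hg j hj).1.iter hS _
  obtain ⟨w, hw, h1⟩ := vdcb_dual hφ hy L
  set v : ℕ → Lp ℂ 2 μ := fun t => w t • L2 μ fun x => ∏ j ∈ J, g j (S^[b j + d j * t] x) with hv
  have hvB : ∀ t, ‖v t‖ ≤ C ^ J.card := fun t => by
    simp only [hv]
    rw [norm_smul, hw, one_mul]
    exact (hy t).norm_L2
  have h2 := ae_vdc v hvB hP hL3
  have h3 : ∀ h h' t, ‖⟪v (t + h), v (t + h')⟫_ℂ‖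
      = ‖∫ x, ∏ j ∈ J, G h h' j (S^[b j + d j * t] x) ∂μ‖ := by
    intro h h' t
    simp only [hv]
    rw [inner_smul_left, inner_smul_right, norm_mul, norm_mul, Complex.norm_conj, hw, hw, one_mul,
      one_mul, inner_L2 (hy _).memLp (hy _).memLp]
    congr 2
    funext x
    rw [map_prod, ← prod_mul_distrib]
    refine prod_congr rfl fun j _ => ?_
    simp only [hG]
    rw [← Function.iterate_add_apply, ← Function.iterate_add_apply,
      show d j * h' + (b j + d j * t) = b j + d j * (t + h') by ring,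
      show d j * h + (b j + d j * t) = b j + d j * (t + h) by ring]
  have h4 : ∀ h < P, ∀ h' < P, av (fun t => ‖⟪v (t + h), v (t + h')⟫_ℂ‖) L
      ≤ e ^ 2 / 8 + K * δ (Nat.dist (d i * h) (d i * h')) := by
    intro h hh h' hh'
    have h5 : ‖L2 μ (μ[G h h' i | m])‖ = δ (Nat.dist (d i * h) (d i * h')) := by
      rw [Nat.dist_comm]
      exact ae_cond_dist hS hm0 hc (hg i hi).1 _ _
    refine (av_mono fun t _ => (h3 h h' t).le.trans
      (vdcb_split (m := m) hS (hGb h h') hi fun j => b j + d j * t)).trans ?_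
    rw [av_add, av_const _ hL3, h5]
    exact add_le_add (hL1 h (mem_range.2 hh) h' (mem_range.2 hh') b) le_rfl
  have h6 : av (fun h => av (fun h' => av (fun t => ‖⟪v (t + h), v (t + h')⟫_ℂ‖) L) P) P
      ≤ e ^ 2 / 8 + K * av (fun k => av (fun k' => δ (Nat.dist (d i * k) (d i * k'))) P) P := by
    refine (av_mono fun h hh => av_mono fun h' hh' => h4 h hh h' hh').trans (le_of_eq ?_)
    simp only [av_add, av_const _ hP, av_rmul]
  have h7 : (2 * (P : ℝ) * C ^ J.card / L) ^ 2 ≤ (e / 2) ^ 2 :=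
    pow_le_pow_left₀ (by positivity) hL2 2
  have h8 : ‖av v L‖ ≤ e := by
    refine (pow_le_pow_iff_left₀ (norm_nonneg _) he0.le two_ne_zero).1 (h2.trans ?_)
    exact (add_le_add (mul_le_mul_of_nonneg_left h7 zero_le_two) (mul_le_mul_of_nonneg_left
      (h6.trans (add_le_add le_rfl hP1)) zero_le_two)).trans (le_of_eq (by ring))
  refine h1.trans ((mul_le_mul_of_nonneg_left h8 hC).trans ?_)
  rw [he, ← mul_div_assoc, div_le_iff₀ (by positivity)]
  nlinarith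

theorem vdcb_min (hS : MeasurePreserving S μ μ) (hm1 : m1 ≤ m0) (hS1 : Measurable[m1, m1] S)
    (hm : m ≤ m1) (hc : m.comap S = m) (hR : RWM m m1 μ S) {J : Finset ℕ} {i j0 : ℕ}
    (hi : i ∈ J) (hj0 : j0 ∈ J) (hne : i ≠ j0)
    (ih : ∀ (d : ℕ → ℕ) (g : ℕ → X → ℂ) (C : ℝ) (i : ℕ), Set.InjOn d (J.erase j0 : Finset ℕ) →
      (∀ j ∈ J.erase j0, Bd μ C (g j) ∧ AEStronglyMeasurable[m1] (g j) μ) → i ∈ J.erase j0 →
      μ[g i | m] =ᵐ[μ] 0 → Lin d fun p => ‖∫ x, ∏ j ∈ J.erase j0, g j (S^[p j] x) ∂μ‖)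
    {d : ℕ → ℕ} (hinj : Set.InjOn d J) (hmin : ∀ j ∈ J, d j0 ≤ d j) {g : ℕ → X → ℂ}
    (hg : ∀ j ∈ J, Bd μ C (g j) ∧ AEStronglyMeasurable[m1] (g j) μ) (h0 : μ[g i | m] =ᵐ[μ] 0) :
    Lin d fun p => ‖∫ x, ∏ j ∈ J, g j (S^[p j] x) ∂μ‖ := by
  intro ε hε
  have hi' : i ∈ J.erase j0 := mem_erase.2 ⟨hne, hi⟩
  have hinj' : Set.InjOn (fun j => d j - d j0) (J.erase j0 : Finset ℕ) := by
    intro j hj k hk h
    have hj' := mem_of_mem_erase (mem_coe.1 hj)
    have hk' := mem_of_mem_erase (mem_coe.1 hk)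
    have h1 := hmin j hj'
    have h2 := hmin k hk'
    simp only at h
    exact hinj hj' hk' (by omega)
  have hd : 0 < (fun j => d j - d j0) i := by
    have h1 := hmin i hi
    have h2 : d i ≠ d j0 := fun h => hne (hinj hi hj0 h)
    simp only
    omega
  obtain ⟨L0, hL0⟩ := eventually_atTop.1 (vdcb_step hS hm1 hS1 hm hc hR hi' hd
    (fun g C hg h0 => ih _ g C i hinj' hg hi' h0) (fun j hj => hg j (mem_of_mem_erase hj)) h0 hε)
  refine ⟨L0, fun L hL b => le_trans (le_of_eq ?_) (hL0 L hL b _ ((hg j0 hj0).1.iter hS (b j0)))⟩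
  congr 1
  funext t
  refine congrArg norm ((vdcb_shift hS (fun j hj => (hg j hj).1)
    (p := fun j => b j + (d j - d j0) * t) (q := fun j => b j + d j * t) (d j0 * t)
    fun j hj => by
      obtain ⟨u, hu⟩ := Nat.exists_eq_add_of_le (hmin j hj)
      rw [hu, Nat.add_sub_cancel_left]; ring).trans ?_)
  congr 1
  funext x
  rw [← mul_prod_erase J _ hj0, Nat.sub_self, zero_mul, add_zero]

theorem ae_multi (hS : MeasurePreserving S μ μ) (hm1 : m1 ≤ m0) (hS1 : Measurable[m1, m1] S)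
    (hm : m ≤ m1) (hc : m.comap S = m) (hR : RWM m m1 μ S) (J : Finset ℕ) :
    ∀ (d : ℕ → ℕ) (g : ℕ → X → ℂ) (C : ℝ) (i : ℕ), Set.InjOn d J →
      (∀ j ∈ J, Bd μ C (g j) ∧ AEStronglyMeasurable[m1] (g j) μ) → i ∈ J →
      μ[g i | m] =ᵐ[μ] 0 → Lin d fun p => ‖∫ x, ∏ j ∈ J, g j (S^[p j] x) ∂μ‖ := by
  induction J using Finset.strongInduction with
  | H J ih =>
  intro d g C i hinj hg hi h0
  rcases (J.erase i).eq_empty_or_nonempty with he | ⟨k, hk⟩
  · intro ε hε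
    refine ⟨0, fun L _ b => av_le hε.le fun t _ => ?_⟩
    have hJ : J = {i} := by rw [← insert_erase hi, he]; rfl
    have h1 : ∫ x, g i x ∂μ = 0 := by
      rw [← integral_condExp (hm.trans hm1), integral_congr_ae h0]; simp
    simp only [hJ, prod_singleton]
    rw [integral_iter hS (hg i hi).1.1, h1, norm_zero]
    exact hε.le
  obtain ⟨j1, hj1, hmin⟩ := exists_min_image J d ⟨i, hi⟩
  by_cases hne : i = j1
  swap
  · exact vdcb_min hS hm1 hS1 hm hc hR hi hj1 hne (ih _ (erase_ssubset hj1)) hinj hmin hg h0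
  subst hne
  obtain ⟨j0, hj0, hmax⟩ := exists_max_image J d ⟨i, hi⟩
  have hne : i ≠ j0 := by
    rintro rfl
    have hk' := mem_of_mem_erase hk
    exact ne_of_mem_erase hk (hinj hk' hi (le_antisymm (hmax k hk') (hmin k hk')))
  have hinj' : Set.InjOn (fun j => d j0 - d j) J := by
    intro j hj k hk h
    have h1 := hmax j hj
    have h2 := hmax k hk
    simp only at h
    exact hinj hj hk (by omega)
  have H := vdcb_min hS hm1 hS1 hm hc hR hi hj0 hne (ih _ (erase_ssubset hj0)) hinj'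
    (fun j _ => by simp) hg h0
  intro ε hε
  obtain ⟨L0, hL0⟩ := H ε hε
  refine ⟨L0, fun L hL b => le_trans (le_of_eq ?_) (hL0 L hL fun j => b j + d j * (L - 1))⟩
  simp only [av]
  congr 1
  rw [← sum_range_reflect]
  refine sum_congr rfl fun t ht => ?_
  congr 1
  symm
  refine vdcb_shift hS (fun j hj => (hg j hj).1) (d j0 * t) fun j hj => ?_
  obtain ⟨u, hu⟩ := Nat.exists_eq_add_of_le (hmax j hj)
  obtain ⟨s, hs⟩ : ∃ s, L - 1 = t + s := ⟨L - 1 - t, by have := mem_range.1 ht; omega⟩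
  rw [hs, hu, Nat.add_sub_cancel_left, Nat.add_sub_cancel_left]; ring

end Pool.Agent.Lib.MP_1db5af_an
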