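import Pool.Agent.Lib.MP_1db5af_an.Ae.Lift
import Pool.Agent.Lib.MP_1db5af_an.Ae.Rwm

set_option autoImplicit false

namespace Pool.Agent.Lib.MP_1db5af_an

open MeasureTheory Filter Topology ComplexConjugate Finset InnerProductSpace

variable {X : Type*} {m m1 : MeasurableSpace X} [m0 : MeasurableSpace X] {μ : Measure X}
  [IsProbabilityMeasure μ] {S : X → X} {a : ℕ → ℕ} {C : ℝ}

omit [IsProbabilityMeasure μ] in
theorem ae_tail_le : tailAll S ≤ m0 := by
  exact (iInf_le _ 0).trans MeasurableSpace.comap_id.le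

omit [IsProbabilityMeasure μ] in
theorem ae_tail_comap (hS : Measurable S) : (tailAll S).comap S = tailAll S := by
  have h1 : ∀ n k : ℕ, m0.comap S^[n + k] ≤ m0.comap S^[n] := fun n k => by
    rw [add_comm, Function.iterate_add, ← MeasurableSpace.comap_comp]
    exact MeasurableSpace.comap_mono (hS.iterate k).comap_le
  refine le_antisymm (le_iInf fun n => ?_) fun A hA => ?_
  · refine (MeasurableSpace.comap_mono (iInf_le _ n)).trans ?_
    rw [MeasurableSpace.comap_comp]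
    exact h1 n 1
  · choose B hB hA using fun n => MeasurableSpace.measurableSet_iInf.1 hA (n + 1)
    have h2 : ∀ n, S ⁻¹' (S^[n] ⁻¹' B n) = A := hA
    refine ⟨⋃ k, ⋂ j, S^[k + j] ⁻¹' B (k + j), MeasurableSpace.measurableSet_iInf.2 fun n => ?_, ?_⟩
    · have e : ⋃ k, ⋂ j, S^[k + j] ⁻¹' B (k + j) =
          ⋃ k, ⋂ j, S^[n + (k + j)] ⁻¹' B (n + (k + j)) := by
        ext x
        simp only [Set.mem_iUnion, Set.mem_iInter]
        constructor
        · rintro ⟨k, h⟩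
          refine ⟨k, fun j => ?_⟩
          rw [add_left_comm]
          exact h _
        · rintro ⟨k, h⟩
          refine ⟨n + k, fun j => ?_⟩
          rw [add_assoc]
          exact h _
      rw [e]
      exact MeasurableSet.iUnion fun k => MeasurableSet.iInter fun j => h1 n _ _ ⟨_, hB _, rfl⟩
    · simp only [Set.preimage_iUnion, Set.preimage_iInter, h2, Set.iInter_const, Set.iUnion_const]

omit [IsProbabilityMeasure μ] in
theorem ae_tail_xi (hS : Measurable S) {k : ℕ} {ξ : X → Fin k} (hξ : Measurable ξ) :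
    tail S ξ ≤ tailAll S := by
  refine le_iInf fun n => (iInf_le _ n).trans (iSup₂_le fun j hj => ?_)
  obtain ⟨i, rfl⟩ := Nat.exists_eq_add_of_le' hj
  have e : (fun x => ξ (S^[i + n] x)) = (fun x => ξ (S^[i] x)) ∘ S^[n] :=
    funext fun x => congrArg ξ (Function.iterate_add_apply S i n x)
  rw [e, ← MeasurableSpace.comap_comp]
  exact MeasurableSpace.comap_mono (hξ.comp (hS.iterate i)).comap_le

theorem zorn_step (hS : Ergodic S μ) (hm : m ≤ tailAll S) (hc : m.comap S = m)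
    (hJ : ∀ a : ℕ → ℕ, Weyl a → JE μ S a m) :
    ∃ m' : MeasurableSpace X, (m' ≤ @tailAll X m0 S ∧ m'.comap S = m' ∧
      ∀ a : ℕ → ℕ, Weyl a → JE μ S a m') ∧ m ≤ m' ∧ ∀ g : X → ℂ, Cpt m μ S g →
        AEStronglyMeasurable[@tailAll X m0 S] g μ → AEStronglyMeasurable[m'] g μ := by
  have hP := hS.toMeasurePreserving
  have ht := ae_tail_comap hP.measurable
  have hle := ae_tail_le (S := S)
  have hb : ∀ s, MeasurableSet[tailAll S] s → Bd μ ‖(1 : ℂ)‖ (s.indicator fun _ => 1) :=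
    fun s hs => tw_bd_ind (hle s hs) 1
  have h1 : ∀ s, MeasurableSet[m] s → Cpt m μ S (s.indicator fun _ => 1) := fun s hs =>
    ae_cpt_meas hP (Measurable.of_comap_le hc.le) (hb s (hm s hs))
      ((stronglyMeasurable_const.indicator hs).aestronglyMeasurable)
  have h2 := fun a => @ae_je_cpt X m m0 μ _ S a
  have h3 := @ae_cpt_comp X m m0 μ _ S hP
  have h4 := @ae_cpt_of_comp X m m0 μ _ S
  obtain ⟨m', k1, k2, k3⟩ := ae_alg_sigma hle (ae_cpt_alg (m := m) hP)
  refine ⟨m', ⟨fun s hs => ((k1 s).1 hs).1, le_antisymm ?_ fun s hs => ?_, fun a ha J g C hg => ?_⟩,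
    fun s hs => (k1 s).2 ⟨hm s hs, h1 s hs⟩, k3⟩
  · rintro _ ⟨s, hs, rfl⟩
    obtain ⟨k4, k5⟩ := (k1 s).1 hs
    exact (k1 _).2 ⟨ht.le _ ⟨s, k4, rfl⟩, h3 k5⟩
  · obtain ⟨k4, k5⟩ := (k1 s).1 hs
    obtain ⟨t, k6, rfl⟩ := ht.ge s k4
    exact ⟨t, (k1 t).2 ⟨k6, h4 (hb t k6) k5⟩, rfl⟩
  · exact h2 a hS ha (hm.trans hle) (hJ a ha) fun j hj =>
      ⟨(hg j hj).1, k2 _ C (hg j hj).1 (hg j hj).2⟩

theorem ae_exists_base [StandardBorelSpace X] (hS : Ergodic S μ) :
    ∃ m : MeasurableSpace X, m ≤ @tailAll X m0 S ∧ m.comap S = m ∧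
      (∀ a : ℕ → ℕ, Weyl a → JE μ S a m) ∧ RWM m (@tailAll X m0 S) μ S := by
  have hP := hS.toMeasurePreserving
  have hle := ae_tail_le (S := S)
  have h1 := fun m => @zorn_step X m m0 μ _ S hS
  have h2 := fun m => @ae_rwm X m (tailAll S) m0 μ _ S _ hP hle
    (Measurable.of_comap_le (ae_tail_comap hP.measurable).le)
  have h3 := fun a {c} => @je_lim X m0 μ _ S a hP c
  obtain ⟨m, -, hm, hmax⟩ := zorn_le_nonempty₀
    {m : MeasurableSpace X | m ≤ @tailAll X m0 S ∧ m.comap S = m ∧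
      ∀ a : ℕ → ℕ, Weyl a → JE μ S a m}
    (fun c hc hch y hy => ⟨sSup c, ⟨sSup_le fun m h => (hc h).1, by
      rw [sSup_eq_iSup', MeasurableSpace.comap_iSup]
      exact iSup_congr fun m => (hc m.2).2.1, fun a ha =>
        h3 a ⟨y, hy⟩ hch.directedOn (fun m h => (hc h).1.trans hle)
          fun m h => (hc h).2.2 a ha⟩, fun z hz => le_sSup hz⟩)
    ⊥ ⟨bot_le, MeasurableSpace.comap_bot, fun a ha => je_bot hS ha⟩
  obtain ⟨m', k1, k2, k3⟩ := h1 m hm.1 hm.2.1 hm.2.2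
  exact ⟨m, hm.1, hm.2.1, hm.2.2, h2 m hm.1 hm.2.1 fun g hg hg' => (k3 g hg hg').mono (hmax k1 k2)⟩

end Pool.Agent.Lib.MP_1db5af_an
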